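import Pool.Agent.Lib.MP_f4ff90_ag.HDefs

/-!
# MP_f4ff90_ag : closure properties of polynomial sequences
-/

set_option autoImplicit false

open Filter Polynomial

namespace Pool.Agent.Lib.MP_f4ff90_ag

variable {F : Subalgebra ℝ (ℕ → ℝ)}

lemma PS.mono {D E : ℕ} {P : ℕ → ℝ[X]} (h : PS F D P) (hDE : D ≤ E) : PS F E P :=
  ⟨by filter_upwards [h.deg] with n hn; exact hn.trans hDE, h.coeff⟩

lemma PS.mono_alg {F' : Subalgebra ℝ (ℕ → ℝ)} (hF : F ≤ F') {D : ℕ} {P : ℕ → ℝ[X]}
    (h : PS F D P) : PS F' D P :=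
  ⟨h.deg, fun k => hF (h.coeff k)⟩

lemma PS.C {u : ℕ → ℝ} (hu : u ∈ F) : PS F 0 (fun n => Polynomial.C (u n)) := by
  refine ⟨Eventually.of_forall fun n => by simp, fun k => ?_⟩
  by_cases hk : k = 0
  · simpa [hk] using hu
  · simp only [coeff_C, hk, if_false]
    exact F.zero_mem

lemma PS.X : PS F 1 (fun _ => (Polynomial.X : ℝ[X])) := by
  refine ⟨Eventually.of_forall fun n => by simp, fun k => ?_⟩
  exact F.algebraMap_mem _

lemma PS.zero : PS F 0 (fun _ => (0 : ℝ[X])) := by
  refine ⟨Eventually.of_forall fun n => by simp, fun k => ?_⟩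
  simp only [coeff_zero]
  exact F.zero_mem

lemma PS.add {D E : ℕ} {P Q : ℕ → ℝ[X]} (h : PS F D P) (h' : PS F E Q) :
    PS F (max D E) (fun n => P n + Q n) := by
  refine ⟨?_, fun k => ?_⟩
  · filter_upwards [h.deg, h'.deg] with n h1 h2
    exact (natDegree_add_le _ _).trans (max_le_max h1 h2)
  · simp only [coeff_add]
    exact F.add_mem (h.coeff k) (h'.coeff k)

lemma PS.neg {D : ℕ} {P : ℕ → ℝ[X]} (h : PS F D P) : PS F D (fun n => - P n) := by
  refine ⟨?_, fun k => ?_⟩
  · filter_upwards [h.deg] with n h1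
    rwa [natDegree_neg]
  · simp only [coeff_neg]
    exact F.neg_mem (h.coeff k)

lemma PS.sub {D E : ℕ} {P Q : ℕ → ℝ[X]} (h : PS F D P) (h' : PS F E Q) :
    PS F (max D E) (fun n => P n - Q n) := by
  have := h.add h'.neg
  simpa only [sub_eq_add_neg] using this

lemma PS.mul {D E : ℕ} {P Q : ℕ → ℝ[X]} (h : PS F D P) (h' : PS F E Q) :
    PS F (D + E) (fun n => P n * Q n) := by
  refine ⟨?_, fun k => ?_⟩
  · filter_upwards [h.deg, h'.deg] with n h1 h2
    exact natDegree_mul_le.trans (add_le_add h1 h2)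
  · have : (fun n => (P n * Q n).coeff k) =
        ∑ x ∈ Finset.HasAntidiagonal.antidiagonal k, (fun n => (P n).coeff x.1) * (fun n => (Q n).coeff x.2) := by
      funext n
      rw [coeff_mul, Finset.sum_apply]
      rfl
    rw [this]
    exact F.sum_mem fun x _ => F.mul_mem (h.coeff _) (h'.coeff _)

lemma PS.pow {D : ℕ} {P : ℕ → ℝ[X]} (h : PS F D P) (k : ℕ) :
    PS F (k * D) (fun n => P n ^ k) := by
  induction k with
  | zero =>
    simp only [pow_zero, Nat.zero_mul]
    exact PS.C (F := F) (u := fun _ => 1) F.one_mem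
  | succ k ih =>
    have := ih.mul h
    simpa only [pow_succ, Nat.succ_mul] using this

lemma PS.derivative {D : ℕ} {P : ℕ → ℝ[X]} (h : PS F D P) :
    PS F (D - 1) (fun n => Polynomial.derivative (P n)) := by
  refine ⟨?_, fun k => ?_⟩
  · filter_upwards [h.deg] with n h1
    exact (natDegree_derivative_le _).trans (Nat.sub_le_sub_right h1 1)
  · simp only [coeff_derivative]
    exact F.mul_mem (h.coeff (k + 1)) (F.algebraMap_mem ((k : ℝ) + 1))

/-- evaluation, over an algebra closed under eventual equality -/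
lemma PS.eval_mem (hF : ∀ u ∈ F, ∀ v : ℕ → ℝ, (∀ᶠ n in atTop, v n = u n) → v ∈ F)
    {D : ℕ} {P : ℕ → ℝ[X]} (h : PS F D P) {u : ℕ → ℝ} (hu : u ∈ F) :
    (fun n => (P n).eval (u n)) ∈ F := by
  have h1 : (∑ k ∈ Finset.range (D + 1), (fun n => (P n).coeff k) * u ^ k) ∈ F :=
    F.sum_mem fun k _ => F.mul_mem (h.coeff k) (F.pow_mem hu k)
  refine hF _ h1 _ ?_
  filter_upwards [h.deg] with n hn
  rw [eval_eq_sum_range' (Nat.lt_succ_of_le hn), Finset.sum_apply]
  rfl

lemma HF.eval_mem (hF : HF F) {D : ℕ} {P : ℕ → ℝ[X]} (h : PS F D P) {u : ℕ → ℝ} (hu : u ∈ F) :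
    (fun n => (P n).eval (u n)) ∈ F := h.eval_mem hF.ev hu

/-- a polynomial sequence is decided to be zero or not -/
lemma PS.dcd_zero (hF : HF F) {D : ℕ} {P : ℕ → ℝ[X]} (h : PS F D P) :
    Dcd (fun n => P n = 0) := by
  have h1 : Dcd (fun n => ∀ k ∈ List.range (D + 1), (P n).coeff k = 0) :=
    Dcd.forall_list fun k _ => (hF.tame _ (h.coeff k)).zero
  refine h1.congr ?_
  filter_upwards [h.deg] with n hn
  constructor
  · intro h0 k _
    rw [h0, coeff_zero]
  · intro h0
    ext k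
    rw [coeff_zero]
    by_cases hk : k < D + 1
    · exact h0 k (List.mem_range.2 hk)
    · exact coeff_eq_zero_of_natDegree_lt (by omega)

/-- drop the leading coefficient if it vanishes eventually -/
lemma PS.drop {D : ℕ} {P : ℕ → ℝ[X]} (h : PS F (D + 1) P)
    (h0 : ∀ᶠ n in atTop, (P n).coeff (D + 1) = 0) : PS F D P := by
  refine ⟨?_, h.coeff⟩
  filter_upwards [h.deg, h0] with n hn h1
  rw [natDegree_le_iff_coeff_eq_zero]
  intro N hN
  rcases Nat.lt_or_ge (D + 1) N with h2 | h2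
  · exact coeff_eq_zero_of_natDegree_lt (by omega)
  · rw [show N = D + 1 by omega, h1]

/-- reduction modulo `P`, on the roots of `P` -/
lemma exists_rem (hF : HF F) {D : ℕ} {P : ℕ → ℝ[X]} (hP : PS F (D + 1) P)
    (hlead : ∀ᶠ n in atTop, (P n).coeff (D + 1) ≠ 0) :
    ∀ (E : ℕ) (Q : ℕ → ℝ[X]), PS F E Q →
      ∃ R : ℕ → ℝ[X], PS F D R ∧
        ∀ᶠ n in atTop, ∀ t : ℝ, (P n).eval t = 0 → (Q n).eval t = (R n).eval t := by
  intro E
  induction E with
  | zero => intro Q hQ; exact ⟨Q, hQ.mono (Nat.zero_le _), Eventually.of_forall fun _ _ _ => rfl⟩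
  | succ E ih =>
    intro Q hQ
    by_cases hE : E + 1 ≤ D
    · exact ⟨Q, hQ.mono hE, Eventually.of_forall fun _ _ _ => rfl⟩
    · have hu : (fun n => (Q n).coeff (E + 1) / (P n).coeff (D + 1)) ∈ F :=
        hF.div (hQ.coeff _) (hP.coeff _)
      have h1 : PS F (E + 1) (fun n => Q n -
          Polynomial.C ((Q n).coeff (E + 1) / (P n).coeff (D + 1)) * Polynomial.X ^ (E - D) *
            P n) := by
        have h2 := hQ.sub (((PS.C hu).mul (PS.X.pow (E - D))).mul hP)
        refine h2.mono ?_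
        simp only [max_le_iff]
        omega
      have h3 := h1.drop (by
        filter_upwards [hlead] with n hn
        have h4 : E + 1 = (D + 1) + (E - D) := by omega
        have h5 : (Polynomial.C ((Q n).coeff (E + 1) / (P n).coeff (D + 1)) *
            Polynomial.X ^ (E - D) * P n).coeff (E + 1) =
            ((Q n).coeff (E + 1) / (P n).coeff (D + 1)) * (P n).coeff (D + 1) := by
          rw [mul_assoc, coeff_C_mul]
          congr 1
          conv_lhs => rw [h4]
          rw [coeff_X_pow_mul]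
        rw [coeff_sub, h5]
        field_simp
        ring)
      obtain ⟨R, hR, hR'⟩ := ih _ h3
      refine ⟨R, hR, ?_⟩
      filter_upwards [hR'] with n hn t ht
      rw [← hn t ht]
      simp [ht]

end Pool.Agent.Lib.MP_f4ff90_ag
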