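import Mathlib

/-!
# MP_f4ff90_ag : Hardy type fields of sequences, definitions

`Tame u`: the sign of `u n` is eventually constant.  `HF F`: `F` is an algebra of real sequences,
closed under pointwise inverses and under eventual equality, all of whose elements are tame
(a Hardy type field of sequences).  `PS F D P`: `P` is a sequence of real polynomials, eventually
of degree at most `D`, with coefficients in `F`.
-/

set_option autoImplicit false

open Filter Polynomial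

namespace Pool.Agent.Lib.MP_f4ff90_ag

/-- the statement `p n` is decided: eventually true or eventually false -/
def Dcd (p : ℕ → Prop) : Prop := (∀ᶠ n in atTop, p n) ∨ ∀ᶠ n in atTop, ¬ p n

/-- the sign of `u n` is eventually constant -/
def Tame (u : ℕ → ℝ) : Prop := ∃ s : SignType, ∀ᶠ n in atTop, SignType.sign (u n) = s

/-- a Hardy type field of sequences -/
structure HF (F : Subalgebra ℝ (ℕ → ℝ)) : Prop where
  inv : ∀ u ∈ F, (fun n => (u n)⁻¹) ∈ F
  tame : ∀ u ∈ F, Tame u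
  ev : ∀ u ∈ F, ∀ v : ℕ → ℝ, (∀ᶠ n in atTop, v n = u n) → v ∈ F

/-- a maximal Hardy type field of sequences -/
structure MaxHF (F : Subalgebra ℝ (ℕ → ℝ)) : Prop extends HF F where
  max : ∀ F' : Subalgebra ℝ (ℕ → ℝ), HF F' → F ≤ F' → F' ≤ F

/-- polynomial sequences with coefficients in `F`, eventually of degree at most `D` -/
structure PS (F : Subalgebra ℝ (ℕ → ℝ)) (D : ℕ) (P : ℕ → ℝ[X]) : Prop where
  deg : ∀ᶠ n in atTop, (P n).natDegree ≤ D
  coeff : ∀ k, (fun n => (P n).coeff k) ∈ F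

/-- `L` is a complete list of the real roots of the polynomials `P n` -/
def RootList (F : Subalgebra ℝ (ℕ → ℝ)) (P : ℕ → ℝ[X]) (L : List (ℕ → ℝ)) : Prop :=
  (∀ ξ ∈ L, ξ ∈ F) ∧ ∀ᶠ n in atTop, ∀ t : ℝ, (P n).eval t = 0 ↔ ∃ ξ ∈ L, ξ n = t

/-- the sequence `u` is tame over `F` -/
def TameOver (F : Subalgebra ℝ (ℕ → ℝ)) (u : ℕ → ℝ) : Prop :=
  ∀ (D : ℕ) (P : ℕ → ℝ[X]), PS F D P → Tame (fun n => (P n).eval (u n))

/-! ## Decided statements -/

lemma Dcd.not {p : ℕ → Prop} (h : Dcd p) : Dcd (fun n => ¬ p n) := by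
  rcases h with h | h
  · right; filter_upwards [h] with n hn; simpa using hn
  · left; exact h

lemma Dcd.and {p q : ℕ → Prop} (h : Dcd p) (h' : Dcd q) : Dcd (fun n => p n ∧ q n) := by
  rcases h with h | h
  · rcases h' with h' | h'
    · left; exact h.and h'
    · right; filter_upwards [h'] with n hn hpq; exact hn hpq.2
  · right; filter_upwards [h] with n hn hpq; exact hn hpq.1

lemma Dcd.or {p q : ℕ → Prop} (h : Dcd p) (h' : Dcd q) : Dcd (fun n => p n ∨ q n) := by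
  have := (h.not.and h'.not).not
  refine this.imp ?_ ?_ <;> intro h <;> filter_upwards [h] with n hn <;> tauto

lemma Dcd.imp {p q : ℕ → Prop} (h : Dcd p) (h' : Dcd q) : Dcd (fun n => p n → q n) := by
  have := h.not.or h'
  refine Or.imp ?_ ?_ this <;> intro h <;> filter_upwards [h] with n hn <;> tauto

lemma Dcd.congr {p q : ℕ → Prop} (h : Dcd p) (h' : ∀ᶠ n in atTop, (q n ↔ p n)) : Dcd q := by
  rcases h with h | h
  · left; filter_upwards [h, h'] with n h1 h2; exact h2.2 h1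
  · right; filter_upwards [h, h'] with n h1 h2; exact fun h => h1 (h2.1 h)

lemma Dcd.forall_list {α : Type*} {p : α → ℕ → Prop} :
    ∀ {L : List α}, (∀ x ∈ L, Dcd (p x)) → Dcd (fun n => ∀ x ∈ L, p x n)
  | [], _ => by left; simp
  | a :: L, h => by
    have h1 := h a (by simp)
    have h2 : Dcd (fun n => ∀ x ∈ L, p x n) :=
      Dcd.forall_list fun x hx => h x (List.mem_cons_of_mem _ hx)
    refine (h1.and h2).congr (Eventually.of_forall fun n => ?_)
    simp

lemma Dcd.exists_list {α : Type*} {p : α → ℕ → Prop} {L : List α}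
    (h : ∀ x ∈ L, Dcd (p x)) : Dcd (fun n => ∃ x ∈ L, p x n) := by
  have := (Dcd.forall_list (p := fun x n => ¬ p x n) fun x hx => (h x hx).not).not
  refine this.congr (Eventually.of_forall fun n => ?_)
  simp

lemma Dcd.const (p : Prop) : Dcd (fun _ => p) := by
  by_cases h : p
  · left; exact Eventually.of_forall fun _ => h
  · right; exact Eventually.of_forall fun _ => h

/-- for a decided statement, truth at `n` (large) means eventual truth -/
lemma Dcd.iff {p : ℕ → Prop} (h : Dcd p) : ∀ᶠ n in atTop, (p n ↔ ∀ᶠ k in atTop, p k) := by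
  rcases h with h | h
  · filter_upwards [h] with n hn; exact ⟨fun _ => h, fun _ => hn⟩
  · filter_upwards [h] with n hn
    refine ⟨fun h' => absurd h' hn, fun h' => ?_⟩
    obtain ⟨k, hk⟩ := (h.and h').exists
    exact absurd hk.2 hk.1

lemma eventually_forall_list {α : Type*} {p : α → ℕ → Prop} :
    ∀ {L : List α}, (∀ x ∈ L, ∀ᶠ n in atTop, p x n) → ∀ᶠ n in atTop, ∀ x ∈ L, p x n
  | [], _ => by simp
  | a :: L, h => by
    have h1 := h a (by simp)
    have h2 : ∀ᶠ n in atTop, ∀ x ∈ L, p x n :=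
      eventually_forall_list fun x hx => h x (List.mem_cons_of_mem _ hx)
    filter_upwards [h1, h2] with n h1 h2
    simpa using ⟨h1, h2⟩

/-! ## Tame sequences -/

lemma Tame.dcd {u : ℕ → ℝ} (h : Tame u) (s : SignType) :
    Dcd (fun n => SignType.sign (u n) = s) := by
  obtain ⟨t, ht⟩ := h
  by_cases hst : t = s
  · left; filter_upwards [ht] with n hn; rw [hn, hst]
  · right; filter_upwards [ht] with n hn; rw [hn]; exact hst

lemma Tame.pos {u : ℕ → ℝ} (h : Tame u) : Dcd (fun n => 0 < u n) :=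
  (h.dcd 1).congr (Eventually.of_forall fun n => by rw [sign_eq_one_iff])

lemma Tame.neg {u : ℕ → ℝ} (h : Tame u) : Dcd (fun n => u n < 0) :=
  (h.dcd (-1)).congr (Eventually.of_forall fun n => by rw [sign_eq_neg_one_iff])

lemma Tame.zero {u : ℕ → ℝ} (h : Tame u) : Dcd (fun n => u n = 0) :=
  (h.dcd 0).congr (Eventually.of_forall fun n => by rw [sign_eq_zero_iff])

lemma Tame.congr {u v : ℕ → ℝ} (h : Tame u) (h' : ∀ᶠ n in atTop, v n = u n) : Tame v := by
  obtain ⟨s, hs⟩ := h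
  exact ⟨s, by filter_upwards [hs, h'] with n h1 h2; rw [h2, h1]⟩

lemma Tame.congr_sign {u v : ℕ → ℝ} (h : Tame u)
    (h' : ∀ᶠ n in atTop, SignType.sign (v n) = SignType.sign (u n)) : Tame v := by
  obtain ⟨s, hs⟩ := h
  exact ⟨s, by filter_upwards [hs, h'] with n h1 h2; rw [h2, h1]⟩

lemma Tame.mul {u v : ℕ → ℝ} (h : Tame u) (h' : Tame v) : Tame (fun n => u n * v n) := by
  obtain ⟨s, hs⟩ := h
  obtain ⟨t, ht⟩ := h'
  exact ⟨s * t, by filter_upwards [hs, ht] with n h1 h2; rw [sign_mul, h1, h2]⟩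

lemma Tame.neg' {u : ℕ → ℝ} (h : Tame u) : Tame (fun n => - u n) := by
  obtain ⟨s, hs⟩ := h
  exact ⟨-s, by filter_upwards [hs] with n h1; rw [Left.sign_neg, h1]⟩

lemma tame_zero : Tame (fun _ => 0) := ⟨0, by simp⟩

lemma Tame.of_pos {u : ℕ → ℝ} (h : ∀ᶠ n in atTop, 0 < u n) : Tame u :=
  ⟨1, by filter_upwards [h] with n hn; rw [sign_pos hn]⟩

lemma Tame.of_neg {u : ℕ → ℝ} (h : ∀ᶠ n in atTop, u n < 0) : Tame u :=
  ⟨-1, by filter_upwards [h] with n hn; rw [sign_neg hn]⟩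

lemma Tame.of_zero {u : ℕ → ℝ} (h : ∀ᶠ n in atTop, u n = 0) : Tame u :=
  ⟨0, by filter_upwards [h] with n hn; rw [hn, sign_zero]⟩

/-- trichotomy -/
lemma Tame.cases {u : ℕ → ℝ} (h : Tame u) :
    (∀ᶠ n in atTop, u n < 0) ∨ (∀ᶠ n in atTop, u n = 0) ∨ (∀ᶠ n in atTop, 0 < u n) := by
  obtain ⟨s, hs⟩ := h
  rcases s with _ | _ | _
  · right; left; filter_upwards [hs] with n hn; exact sign_eq_zero_iff.1 hn
  · left; filter_upwards [hs] with n hn; exact sign_eq_neg_one_iff.1 hn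
  · right; right; filter_upwards [hs] with n hn; exact sign_eq_one_iff.1 hn

lemma tame_iff {u : ℕ → ℝ} : Tame u ↔
    (∀ᶠ n in atTop, u n < 0) ∨ (∀ᶠ n in atTop, u n = 0) ∨ (∀ᶠ n in atTop, 0 < u n) :=
  ⟨Tame.cases, fun h => by
    rcases h with h | h | h
    exacts [Tame.of_neg h, Tame.of_zero h, Tame.of_pos h]⟩

/-! ## Hardy type fields -/

lemma HF.const {F : Subalgebra ℝ (ℕ → ℝ)} (_ : HF F) (c : ℝ) : (fun _ => c) ∈ F :=
  F.algebraMap_mem c

lemma HF.mul {F : Subalgebra ℝ (ℕ → ℝ)} (_ : HF F) {u v : ℕ → ℝ} (hu : u ∈ F) (hv : v ∈ F) :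
    (fun n => u n * v n) ∈ F := F.mul_mem hu hv

lemma HF.add {F : Subalgebra ℝ (ℕ → ℝ)} (_ : HF F) {u v : ℕ → ℝ} (hu : u ∈ F) (hv : v ∈ F) :
    (fun n => u n + v n) ∈ F := F.add_mem hu hv

lemma HF.sub {F : Subalgebra ℝ (ℕ → ℝ)} (_ : HF F) {u v : ℕ → ℝ} (hu : u ∈ F) (hv : v ∈ F) :
    (fun n => u n - v n) ∈ F := F.sub_mem hu hv

lemma HF.neg {F : Subalgebra ℝ (ℕ → ℝ)} (_ : HF F) {u : ℕ → ℝ} (hu : u ∈ F) :
    (fun n => - u n) ∈ F := F.neg_mem hu

lemma HF.div {F : Subalgebra ℝ (ℕ → ℝ)} (h : HF F) {u v : ℕ → ℝ} (hu : u ∈ F) (hv : v ∈ F) :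
    (fun n => u n / v n) ∈ F := by
  have := h.mul hu (h.inv v hv)
  simpa only [div_eq_mul_inv] using this

lemma HF.abs {F : Subalgebra ℝ (ℕ → ℝ)} (h : HF F) {u : ℕ → ℝ} (hu : u ∈ F) :
    (fun n => |u n|) ∈ F := by
  rcases (h.tame u hu).cases with h' | h' | h'
  · refine h.ev _ (h.neg hu) _ ?_
    filter_upwards [h'] with n hn; exact abs_of_neg hn
  · refine h.ev _ hu _ ?_
    filter_upwards [h'] with n hn; rw [hn, abs_zero]
  · refine h.ev _ hu _ ?_
    filter_upwards [h'] with n hn; exact abs_of_pos hn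

lemma HF.lt {F : Subalgebra ℝ (ℕ → ℝ)} (h : HF F) {u v : ℕ → ℝ} (hu : u ∈ F) (hv : v ∈ F) :
    Dcd (fun n => u n < v n) :=
  (h.tame _ (h.sub hv hu)).pos.congr (Eventually.of_forall fun n => by simp)

lemma HF.eq {F : Subalgebra ℝ (ℕ → ℝ)} (h : HF F) {u v : ℕ → ℝ} (hu : u ∈ F) (hv : v ∈ F) :
    Dcd (fun n => u n = v n) :=
  (h.tame _ (h.sub hv hu)).zero.congr (Eventually.of_forall fun n => by
    rw [sub_eq_zero]; exact eq_comm)

lemma HF.le {F : Subalgebra ℝ (ℕ → ℝ)} (h : HF F) {u v : ℕ → ℝ} (hu : u ∈ F) (hv : v ∈ F) :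
    Dcd (fun n => u n ≤ v n) :=
  (h.lt hv hu).not.congr (Eventually.of_forall fun n => by simp)

end Pool.Agent.Lib.MP_f4ff90_ag
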