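import Pool.Agent.Lib.MP_f4ff90_ag.HBasic

/-!
# MP_f4ff90_ag : maximal Hardy type fields and simple extensions
-/

set_option autoImplicit false

open Filter Polynomial

namespace Pool.Agent.Lib.MP_f4ff90_ag

/-- every Hardy type field is contained in a maximal one -/
theorem exists_maxHF (F : Subalgebra ℝ (ℕ → ℝ)) (hF : HF F) : ∃ G, F ≤ G ∧ MaxHF G := by
  have key : ∀ c ⊆ {F : Subalgebra ℝ (ℕ → ℝ) | HF F}, IsChain (· ≤ ·) c → ∀ y ∈ c,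
      ∃ ub ∈ {F : Subalgebra ℝ (ℕ → ℝ) | HF F}, ∀ z ∈ c, z ≤ ub := by
    intro c hc hchain y hy
    have : Nonempty c := ⟨⟨y, hy⟩⟩
    have hdir : Directed (· ≤ ·) (fun i : c => (i : Subalgebra ℝ (ℕ → ℝ))) := by
      intro i j
      rcases hchain.total i.2 j.2 with h | h
      · exact ⟨j, h, le_rfl⟩
      · exact ⟨i, le_rfl, h⟩
    have hmem : ∀ u : ℕ → ℝ, u ∈ (⨆ i : c, (i : Subalgebra ℝ (ℕ → ℝ))) ↔
        ∃ G ∈ c, u ∈ G := by
      intro u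
      rw [← SetLike.mem_coe, Subalgebra.coe_iSup_of_directed hdir, Set.mem_iUnion]
      constructor
      · rintro ⟨i, hi⟩; exact ⟨i, i.2, hi⟩
      · rintro ⟨G, hG, hu⟩; exact ⟨⟨G, hG⟩, hu⟩
    refine ⟨⨆ i : c, (i : Subalgebra ℝ (ℕ → ℝ)), ⟨?_, ?_, ?_⟩, ?_⟩
    · intro u hu
      obtain ⟨G, hG, hu⟩ := (hmem u).1 hu
      exact (hmem _).2 ⟨G, hG, (hc hG : HF G).inv u hu⟩
    · intro u hu
      obtain ⟨G, hG, hu⟩ := (hmem u).1 hu
      exact (hc hG : HF G).tame u hu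
    · intro u hu v hv
      obtain ⟨G, hG, hu⟩ := (hmem u).1 hu
      exact (hmem _).2 ⟨G, hG, (hc hG : HF G).ev u hu v hv⟩
    · intro z hz
      exact le_iSup (fun i : c => (i : Subalgebra ℝ (ℕ → ℝ))) ⟨z, hz⟩
  obtain ⟨G, hFG, hG⟩ := zorn_le_nonempty₀ {F : Subalgebra ℝ (ℕ → ℝ) | HF F} key F hF
  exact ⟨G, hFG, ⟨hG.prop, fun F' hF' hle => hG.2 hF' hle⟩⟩

/-- the algebra of eventual values of fractions `P(u)/Q(u)` -/
def ext (F : Subalgebra ℝ (ℕ → ℝ)) (u : ℕ → ℝ) : Subalgebra ℝ (ℕ → ℝ) where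
  carrier := {v | ∃ (D : ℕ) (P Q : ℕ → ℝ[X]), PS F D P ∧ PS F D Q ∧
    ∀ᶠ n in atTop, (Q n).eval (u n) ≠ 0 ∧ v n = (P n).eval (u n) / (Q n).eval (u n)}
  mul_mem' := by
    rintro v w ⟨D, P, Q, hP, hQ, h⟩ ⟨E, P', Q', hP', hQ', h'⟩
    refine ⟨D + E, fun n => P n * P' n, fun n => Q n * Q' n, hP.mul hP', hQ.mul hQ', ?_⟩
    filter_upwards [h, h'] with n h1 h2
    rw [eval_mul, eval_mul, Pi.mul_apply, h1.2, h2.2]
    exact ⟨mul_ne_zero h1.1 h2.1, by rw [div_mul_div_comm]⟩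
  add_mem' := by
    rintro v w ⟨D, P, Q, hP, hQ, h⟩ ⟨E, P', Q', hP', hQ', h'⟩
    refine ⟨D + E, fun n => P n * Q' n + Q n * P' n, fun n => Q n * Q' n,
      ((hP.mul hQ').add (hQ.mul hP')).mono (by simp), hQ.mul hQ', ?_⟩
    filter_upwards [h, h'] with n h1 h2
    rw [eval_add, eval_mul, eval_mul, eval_mul, Pi.add_apply, h1.2, h2.2]
    exact ⟨mul_ne_zero h1.1 h2.1, by rw [div_add_div _ _ h1.1 h2.1]⟩
  algebraMap_mem' r := by
    refine ⟨0, fun _ => Polynomial.C r, fun _ => Polynomial.C 1,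
      PS.C (F := F) (u := fun _ => r) (F.algebraMap_mem r),
      PS.C (F := F) (u := fun _ => 1) F.one_mem, Eventually.of_forall fun n => ?_⟩
    simp

lemma mem_ext_iff {F : Subalgebra ℝ (ℕ → ℝ)} {u v : ℕ → ℝ} :
    v ∈ ext F u ↔ ∃ (D : ℕ) (P Q : ℕ → ℝ[X]), PS F D P ∧ PS F D Q ∧
    ∀ᶠ n in atTop, (Q n).eval (u n) ≠ 0 ∧ v n = (P n).eval (u n) / (Q n).eval (u n) := Iff.rfl

lemma le_ext (F : Subalgebra ℝ (ℕ → ℝ)) (u : ℕ → ℝ) : F ≤ ext F u := by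
  intro v hv
  refine ⟨0, fun n => Polynomial.C (v n), fun _ => Polynomial.C 1, PS.C hv,
    PS.C (F := F) (u := fun _ => 1) F.one_mem, Eventually.of_forall fun n => ?_⟩
  simp

lemma self_mem_ext (F : Subalgebra ℝ (ℕ → ℝ)) (u : ℕ → ℝ) : u ∈ ext F u := by
  refine ⟨1, fun n => Polynomial.X, fun _ => Polynomial.C 1, PS.X,
    (PS.C (F := F) (u := fun _ => 1) F.one_mem).mono (Nat.zero_le 1),
    Eventually.of_forall fun n => ?_⟩
  simp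

lemma ext_hf {F : Subalgebra ℝ (ℕ → ℝ)} {u : ℕ → ℝ} (hu : TameOver F u) :
    HF (ext F u) := by
  refine ⟨?_, ?_, ?_⟩
  · rintro v ⟨D, P, Q, hP, hQ, h⟩
    rcases (hu D P hP).zero with h0 | h0
    · refine ⟨0, fun _ => 0, fun _ => Polynomial.C 1, PS.zero,
        PS.C (F := F) (u := fun _ => 1) F.one_mem, ?_⟩
      filter_upwards [h, h0] with n h1 h2
      rw [h1.2, h2]
      simp
    · refine ⟨D, Q, P, hQ, hP, ?_⟩
      filter_upwards [h, h0] with n h1 h2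
      exact ⟨h2, by rw [h1.2, inv_div]⟩
  · rintro v ⟨D, P, Q, hP, hQ, h⟩
    refine ((hu D P hP).mul (hu D Q hQ)).congr_sign ?_
    filter_upwards [h] with n h1
    rw [h1.2, div_eq_mul_inv, sign_mul, sign_mul]
    congr 1
    rcases lt_or_gt_of_ne h1.1 with h2 | h2
    · rw [sign_neg h2, sign_neg (inv_lt_zero.2 h2)]
    · rw [sign_pos h2, sign_pos (inv_pos.2 h2)]
  · rintro v ⟨D, P, Q, hP, hQ, h⟩ w hw
    refine ⟨D, P, Q, hP, hQ, ?_⟩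
    filter_upwards [h, hw] with n h1 h2
    exact ⟨h1.1, by rw [h2, h1.2]⟩

/-- minimality of `ext` -/
lemma ext_le {F F' : Subalgebra ℝ (ℕ → ℝ)} {u : ℕ → ℝ} (hle : F ≤ F') (hu : u ∈ F')
    (hinv : ∀ v ∈ F', (fun n => (v n)⁻¹) ∈ F')
    (hev : ∀ v ∈ F', ∀ w : ℕ → ℝ, (∀ᶠ n in atTop, w n = v n) → w ∈ F') :
    ext F u ≤ F' := by
  rintro v ⟨D, P, Q, hP, hQ, h⟩
  have h1 := (hP.mono_alg hle).eval_mem hev hu
  have h2 := (hQ.mono_alg hle).eval_mem hev hu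
  have h3 := F'.mul_mem h1 (hinv _ h2)
  refine hev _ h3 _ ?_
  filter_upwards [h] with n hn
  rw [hn.2, div_eq_mul_inv]
  rfl

/-- a sequence which is tame over a maximal Hardy type field belongs to it -/
theorem MaxHF.mem {F : Subalgebra ℝ (ℕ → ℝ)} (hF : MaxHF F) {u : ℕ → ℝ} (hu : TameOver F u) :
    u ∈ F := hF.max _ (ext_hf hu) (le_ext F u) (self_mem_ext F u)

end Pool.Agent.Lib.MP_f4ff90_ag
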