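import Pool.Agent.Lib.MP_f4ff90_ag.HRoots

/-!
# MP_f4ff90_ag : shifts of root sequences
-/

set_option autoImplicit false

open Filter Polynomial

namespace Pool.Agent.Lib.MP_f4ff90_ag

/-- number of real roots of `p` below `s` -/
noncomputable def rk (p : ℝ[X]) (s : ℝ) : ℕ := (p.roots.toFinset.filter (· < s)).card

lemma rk_lt {p : ℝ[X]} (hp : p ≠ 0) {s t : ℝ} (hs : p.eval s = 0) (hst : s < t) :
    rk p s < rk p t := by
  unfold rk
  refine Finset.card_lt_card ?_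
  rw [Finset.ssubset_iff_of_subset]
  · refine ⟨s, ?_, ?_⟩
    · rw [Finset.mem_filter, Multiset.mem_toFinset, mem_roots hp]
      exact ⟨hs, hst⟩
    · rw [Finset.mem_filter]
      exact fun h => lt_irrefl _ h.2
  · intro x hx
    rw [Finset.mem_filter] at hx ⊢
    exact ⟨hx.1, hx.2.trans hst⟩

lemma rk_inj {p : ℝ[X]} (hp : p ≠ 0) {s t : ℝ} (hs : p.eval s = 0) (ht : p.eval t = 0)
    (h : rk p s = rk p t) : s = t := by
  rcases lt_trichotomy s t with h1 | h1 | h1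
  · exact absurd h (rk_lt hp hs h1).ne
  · exact h1
  · exact absurd h (rk_lt hp ht h1).ne'

lemma card_ev_const {F : Subalgebra ℝ (ℕ → ℝ)} (hF : HF F) {ξ : ℕ → ℝ} (hξ : ξ ∈ F) :
    ∀ L : List (ℕ → ℝ), (∀ η ∈ L, η ∈ F) → ∃ r : ℕ, ∀ᶠ n in atTop,
      ((L.map (fun η => η n)).toFinset.filter (· < ξ n)).card = r
  | [], _ => ⟨0, by simp⟩
  | a :: L, hL => by
    obtain ⟨r, hr⟩ := card_ev_const hF hξ L fun η hη => hL η (List.mem_cons_of_mem _ hη)
    have haF := hL a (by simp)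
    rcases hF.lt haF hξ with h1 | h1
    · have h2 : Dcd (fun n => ∃ η ∈ L, η n = a n) :=
        Dcd.exists_list fun η hη => hF.eq (hL η (List.mem_cons_of_mem _ hη)) haF
      rcases h2 with h2 | h2
      · refine ⟨r, ?_⟩
        filter_upwards [hr, h1, h2] with n hr h1 h2
        rw [← hr, List.map_cons, List.toFinset_cons, Finset.insert_eq_of_mem]
        rw [List.mem_toFinset, List.mem_map]
        obtain ⟨η, hη, h⟩ := h2
        exact ⟨η, hη, h⟩
      · refine ⟨r + 1, ?_⟩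
        filter_upwards [hr, h1, h2] with n hr h1 h2
        rw [← hr, List.map_cons, List.toFinset_cons, Finset.filter_insert, if_pos h1,
          Finset.card_insert_of_notMem]
        rw [Finset.mem_filter, List.mem_toFinset, List.mem_map]
        rintro ⟨⟨η, hη, h⟩, _⟩
        exact h2 ⟨η, hη, h⟩
    · refine ⟨r, ?_⟩
      filter_upwards [hr, h1] with n hr h1
      rw [← hr, List.map_cons, List.toFinset_cons, Finset.filter_insert, if_neg h1]

lemma rk_ev_const {F : Subalgebra ℝ (ℕ → ℝ)} (hF : HF F) {P : ℕ → ℝ[X]} {L : List (ℕ → ℝ)}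
    (hL : RootList F P L) (h0 : ∀ᶠ n in atTop, P n ≠ 0) {ξ : ℕ → ℝ} (hξ : ξ ∈ F) :
    ∃ r : ℕ, ∀ᶠ n in atTop, rk (P n) (ξ n) = r := by
  obtain ⟨r, hr⟩ := card_ev_const hF hξ L hL.1
  refine ⟨r, ?_⟩
  filter_upwards [hr, hL.2, h0] with n hr h1 h0
  rw [← hr, rk]
  congr 2
  ext t
  rw [Multiset.mem_toFinset, mem_roots h0, List.mem_toFinset, List.mem_map]
  exact h1 t

/-- **shifts of root sequences** -/
theorem root_shift {F : Subalgebra ℝ (ℕ → ℝ)} (hF : MaxHF F) {D : ℕ} {P : ℕ → ℝ[X]}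
    (hP' : PS F D (fun n => P (n + 1))) (h0 : ∀ᶠ n in atTop, P n ≠ 0)
    {L : List (ℕ → ℝ)} (hL : RootList F P L) {ξ : ℕ → ℝ} (hξ : ξ ∈ L) :
    (fun n => ξ (n + 1)) ∈ F := by
  have hsh : ∀ {p : ℕ → Prop}, (∀ᶠ n in atTop, p n) → ∀ᶠ n in atTop, p (n + 1) := by
    intro p h
    exact (tendsto_add_atTop_nat 1).eventually h
  have h0' := hsh h0
  obtain ⟨L', hL'⟩ := exists_rootList hF D _ hP' (by
    intro h
    obtain ⟨n, hn⟩ := (h.and h0').exists
    exact hn.2 hn.1)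
  obtain ⟨r, hr⟩ := rk_ev_const hF.toHF hL h0 (hL.1 ξ hξ)
  have hr' := hsh hr
  have hroot : ∀ᶠ n in atTop, (P (n + 1)).eval (ξ (n + 1)) = 0 := hsh (by
    filter_upwards [hL.2] with n hn
    exact (hn _).2 ⟨ξ, hξ, rfl⟩)
  -- ranks of the elements of `L'`
  have hrk : ∀ η ∈ L', ∃ r' : ℕ, ∀ᶠ n in atTop, rk (P (n + 1)) (η n) = r' :=
    fun η hη => rk_ev_const hF.toHF hL' h0' (hL'.1 η hη)
  have hdec : ∀ η ∈ L', (∀ᶠ n in atTop, rk (P (n + 1)) (η n) = r) ∨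
      (∀ᶠ n in atTop, rk (P (n + 1)) (η n) ≠ r) := by
    intro η hη
    obtain ⟨r', h⟩ := hrk η hη
    by_cases hrr : r' = r
    · left; filter_upwards [h] with n hn; rw [hn, hrr]
    · right; filter_upwards [h] with n hn; rw [hn]; exact hrr
  have hiff : ∀ᶠ n in atTop, ∀ η ∈ L', (rk (P (n + 1)) (η n) = r ↔
      ∀ᶠ k in atTop, rk (P (k + 1)) (η k) = r) :=
    eventually_forall_list fun η hη => Dcd.iff (hdec η hη)
  obtain ⟨n, hn1, hn2, hn3, hn4⟩ := (hiff.and (hL'.2.and (hroot.and hr'))).exists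
  obtain ⟨η, hη, hηn⟩ := (hn2 _).1 hn3
  have hηr : ∀ᶠ k in atTop, rk (P (k + 1)) (η k) = r :=
    (hn1 η hη).1 (by rw [hηn]; exact hn4)
  refine hF.ev η (hL'.1 η hη) _ ?_
  filter_upwards [hηr, hr', h0', hL'.2, hroot] with k h1 h2 h3 h4 h5
  exact rk_inj h3 h5 ((h4 _).2 ⟨η, hη, rfl⟩) (by rw [h1, h2])

end Pool.Agent.Lib.MP_f4ff90_ag
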