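import Pool.Agent.Lib.MP_f4ff90_ag.HBasic

/-!
# MP_f4ff90_ag : the sign of a polynomial at a point whose position relative to the roots is known
-/

set_option autoImplicit false

open Filter Polynomial

namespace Pool.Agent.Lib.MP_f4ff90_ag

lemma sign_eq_of_no_root (p : ℝ[X]) (a b : ℝ) (h : ∀ t ∈ Set.uIcc a b, p.eval t ≠ 0) :
    SignType.sign (p.eval a) = SignType.sign (p.eval b) := by
  have ha := h a Set.left_mem_uIcc
  have hb := h b Set.right_mem_uIcc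
  have key : ¬ (0 : ℝ) ∈ Set.uIcc (p.eval a) (p.eval b) := by
    intro h0
    obtain ⟨t, ht, ht'⟩ := intermediate_value_uIcc (f := fun t => p.eval t)
      (p.continuous.continuousOn) h0
    exact h t ht ht'
  rcases lt_or_gt_of_ne ha with h1 | h1 <;> rcases lt_or_gt_of_ne hb with h2 | h2
  · rw [sign_neg h1, sign_neg h2]
  · exact absurd (Set.mem_uIcc.2 (Or.inl ⟨h1.le, h2.le⟩)) key
  · exact absurd (Set.mem_uIcc.2 (Or.inr ⟨h2.le, h1.le⟩)) key
  · rw [sign_pos h1, sign_pos h2]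

lemma exists_max_list {F : Subalgebra ℝ (ℕ → ℝ)} (hF : HF F) :
    ∀ (L : List (ℕ → ℝ)), L ≠ [] → (∀ ξ ∈ L, ξ ∈ F) →
      ∃ α ∈ L, ∀ ξ ∈ L, ∀ᶠ n in atTop, ξ n ≤ α n
  | [], h, _ => absurd rfl h
  | a :: L, _, hL => by
    by_cases h0 : L = []
    · subst h0
      exact ⟨a, by simp, fun ξ hξ => by
        rw [List.mem_singleton] at hξ; rw [hξ]; exact Eventually.of_forall fun _ => le_rfl⟩
    · obtain ⟨α, hα, h⟩ := exists_max_list hF L h0 fun ξ hξ => hL ξ (List.mem_cons_of_mem _ hξ)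
      rcases hF.le (hL a (by simp)) (hL α (List.mem_cons_of_mem _ hα)) with h1 | h1
      · refine ⟨α, List.mem_cons_of_mem _ hα, fun ξ hξ => ?_⟩
        rcases List.mem_cons.1 hξ with rfl | hξ
        · exact h1
        · exact h ξ hξ
      · refine ⟨a, by simp, fun ξ hξ => ?_⟩
        rcases List.mem_cons.1 hξ with rfl | hξ
        · exact Eventually.of_forall fun _ => le_rfl
        · filter_upwards [h ξ hξ, h1] with n h2 h3
          exact h2.trans (not_le.1 h3).le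

lemma exists_min_list {F : Subalgebra ℝ (ℕ → ℝ)} (hF : HF F) :
    ∀ (L : List (ℕ → ℝ)), L ≠ [] → (∀ ξ ∈ L, ξ ∈ F) →
      ∃ α ∈ L, ∀ ξ ∈ L, ∀ᶠ n in atTop, α n ≤ ξ n
  | [], h, _ => absurd rfl h
  | a :: L, _, hL => by
    by_cases h0 : L = []
    · subst h0
      exact ⟨a, by simp, fun ξ hξ => by
        rw [List.mem_singleton] at hξ; rw [hξ]; exact Eventually.of_forall fun _ => le_rfl⟩
    · obtain ⟨α, hα, h⟩ := exists_min_list hF L h0 fun ξ hξ => hL ξ (List.mem_cons_of_mem _ hξ)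
      rcases hF.le (hL α (List.mem_cons_of_mem _ hα)) (hL a (by simp)) with h1 | h1
      · refine ⟨α, List.mem_cons_of_mem _ hα, fun ξ hξ => ?_⟩
        rcases List.mem_cons.1 hξ with rfl | hξ
        · exact h1
        · exact h ξ hξ
      · refine ⟨a, by simp, fun ξ hξ => ?_⟩
        rcases List.mem_cons.1 hξ with rfl | hξ
        · exact Eventually.of_forall fun _ => le_rfl
        · filter_upwards [h ξ hξ, h1] with n h2 h3
          exact (not_le.1 h3).le.trans h2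

/-- a point of `F` which has the same position as `φ` relative to the elements of `L` -/
lemma exists_test {F : Subalgebra ℝ (ℕ → ℝ)} (hF : HF F) (L : List (ℕ → ℝ))
    (hL : ∀ ξ ∈ L, ξ ∈ F) (φ : ℕ → ℝ)
    (hφ : ∀ ξ ∈ L, (∀ᶠ n in atTop, φ n < ξ n) ∨ (∀ᶠ n in atTop, ξ n < φ n)) :
    ∃ w ∈ F, ∀ ξ ∈ L, (∀ᶠ n in atTop, φ n < ξ n ∧ w n < ξ n) ∨
      (∀ᶠ n in atTop, ξ n < φ n ∧ ξ n < w n) := by
  classical
  set Lm := L.filter (fun ξ => ∀ᶠ n in atTop, ξ n < φ n) with hLm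
  set Lp := L.filter (fun ξ => ∀ᶠ n in atTop, φ n < ξ n) with hLp
  have hm : ∀ ξ, ξ ∈ Lm ↔ ξ ∈ L ∧ ∀ᶠ n in atTop, ξ n < φ n := by
    intro ξ; rw [hLm, List.mem_filter]; simp
  have hp : ∀ ξ, ξ ∈ Lp ↔ ξ ∈ L ∧ ∀ᶠ n in atTop, φ n < ξ n := by
    intro ξ; rw [hLp, List.mem_filter]; simp
  by_cases hm0 : Lm = []
  · by_cases hp0 : Lp = []
    · refine ⟨fun _ => 0, hF.const 0, fun ξ hξ => ?_⟩
      rcases hφ ξ hξ with h | h
      · have := (hp ξ).2 ⟨hξ, h⟩; rw [hp0] at this; simp at this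
      · have := (hm ξ).2 ⟨hξ, h⟩; rw [hm0] at this; simp at this
    · obtain ⟨β, hβ, hmin⟩ := exists_min_list hF Lp hp0 fun ξ hξ => hL ξ ((hp ξ).1 hξ).1
      refine ⟨fun n => β n - 1, hF.sub (hL β ((hp β).1 hβ).1) (hF.const 1), fun ξ hξ => ?_⟩
      rcases hφ ξ hξ with h | h
      · left
        filter_upwards [h, hmin ξ ((hp ξ).2 ⟨hξ, h⟩)] with n h1 h2
        exact ⟨h1, by linarith⟩
      · have := (hm ξ).2 ⟨hξ, h⟩; rw [hm0] at this; simp at this
  · obtain ⟨α, hα, hmax⟩ := exists_max_list hF Lm hm0 fun ξ hξ => hL ξ ((hm ξ).1 hξ).1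
    by_cases hp0 : Lp = []
    · refine ⟨fun n => α n + 1, hF.add (hL α ((hm α).1 hα).1) (hF.const 1), fun ξ hξ => ?_⟩
      rcases hφ ξ hξ with h | h
      · have := (hp ξ).2 ⟨hξ, h⟩; rw [hp0] at this; simp at this
      · right
        filter_upwards [h, hmax ξ ((hm ξ).2 ⟨hξ, h⟩)] with n h1 h2
        exact ⟨h1, by linarith⟩
    · obtain ⟨β, hβ, hmin⟩ := exists_min_list hF Lp hp0 fun ξ hξ => hL ξ ((hp ξ).1 hξ).1
      refine ⟨fun n => (α n + β n) / 2,
        hF.div (hF.add (hL α ((hm α).1 hα).1) (hL β ((hp β).1 hβ).1)) (hF.const 2),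
        fun ξ hξ => ?_⟩
      have hαφ := ((hm α).1 hα).2
      have hβφ := ((hp β).1 hβ).2
      rcases hφ ξ hξ with h | h
      · left
        filter_upwards [h, hmin ξ ((hp ξ).2 ⟨hξ, h⟩), hαφ, hβφ] with n h1 h2 h3 h4
        exact ⟨h1, by linarith⟩
      · right
        filter_upwards [h, hmax ξ ((hm ξ).2 ⟨hξ, h⟩), hαφ, hβφ] with n h1 h2 h3 h4
        exact ⟨h1, by linarith⟩

/-- the sign of `R` at `φ` is tame if the position of `φ` relative to the roots is -/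
theorem sign_at {F : Subalgebra ℝ (ℕ → ℝ)} (hF : HF F) {D : ℕ} {R : ℕ → ℝ[X]}
    (hR : PS F D R) {L : List (ℕ → ℝ)} (hL : RootList F R L) {φ : ℕ → ℝ}
    (hφ : ∀ ξ ∈ L, Tame (fun n => φ n - ξ n)) : Tame (fun n => (R n).eval (φ n)) := by
  by_cases h0 : ∃ ξ ∈ L, ∀ᶠ n in atTop, φ n = ξ n
  · obtain ⟨ξ, hξ, h⟩ := h0
    refine Tame.of_zero ?_
    filter_upwards [h, hL.2] with n h1 h2
    rw [h1]
    exact (h2 (ξ n)).2 ⟨ξ, hξ, rfl⟩
  · have h1 : ∀ ξ ∈ L, (∀ᶠ n in atTop, φ n < ξ n) ∨ (∀ᶠ n in atTop, ξ n < φ n) := by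
      intro ξ hξ
      rcases (hφ ξ hξ).cases with h | h | h
      · left; filter_upwards [h] with n hn; linarith
      · exfalso
        refine h0 ⟨ξ, hξ, ?_⟩
        filter_upwards [h] with n hn; linarith
      · right; filter_upwards [h] with n hn; linarith
    obtain ⟨w, hw, hw'⟩ := exists_test hF L hL.1 φ h1
    refine (hF.tame _ (hF.eval_mem hR hw)).congr_sign ?_
    have h2 : ∀ᶠ n in atTop, ∀ ξ ∈ L, (φ n < ξ n ∧ w n < ξ n) ∨ (ξ n < φ n ∧ ξ n < w n) := by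
      refine eventually_forall_list fun ξ hξ => ?_
      rcases hw' ξ hξ with h | h
      · filter_upwards [h] with n hn; exact Or.inl hn
      · filter_upwards [h] with n hn; exact Or.inr hn
    filter_upwards [h2, hL.2] with n h3 h4
    refine sign_eq_of_no_root _ _ _ fun t ht ht0 => ?_
    obtain ⟨ξ, hξ, rfl⟩ := (h4 t).1 ht0
    rw [Set.mem_uIcc] at ht
    rcases h3 ξ hξ with h5 | h5 <;> rcases ht with h6 | h6 <;> linarith [h5.1, h5.2, h6.1, h6.2]

end Pool.Agent.Lib.MP_f4ff90_ag
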