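import Pool.Agent.Lib.MP_f4ff90_ag.HExt
import Pool.Agent.Lib.MP_f4ff90_ag.HSign

/-!
# MP_f4ff90_ag : maximal Hardy type fields contain the real roots of polynomials
-/

set_option autoImplicit false

open Filter Polynomial

namespace Pool.Agent.Lib.MP_f4ff90_ag

/-- monotonicity between consecutive critical points -/
lemma mono_of_no_crit (p : ℝ[X]) {a b : ℝ}
    (h : ∀ t, a < t → t < b → (Polynomial.derivative p).eval t ≠ 0) :
    StrictMonoOn (fun t => p.eval t) (Set.Icc a b) ∨
      StrictAntiOn (fun t => p.eval t) (Set.Icc a b) := by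
  rcases lt_or_ge a b with hab | hab
  · set m := (a + b) / 2 with hm
    have hm1 : a < m := by rw [hm]; linarith
    have hm2 : m < b := by rw [hm]; linarith
    have hs : ∀ t, a < t → t < b → SignType.sign ((Polynomial.derivative p).eval t) =
        SignType.sign ((Polynomial.derivative p).eval m) := by
      intro t h1 h2
      refine sign_eq_of_no_root _ _ _ fun s hs => ?_
      rw [Set.mem_uIcc] at hs
      rcases hs with hs | hs
      · exact h s (by linarith [hs.1]) (by linarith [hs.2])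
      · exact h s (by linarith [hs.1]) (by linarith [hs.2])
    rcases lt_or_gt_of_ne (h m hm1 hm2) with h0 | h0
    · right
      refine strictAntiOn_of_deriv_neg (convex_Icc a b) p.continuous.continuousOn ?_
      intro t ht
      rw [interior_Icc] at ht
      rw [Polynomial.deriv, ← sign_eq_neg_one_iff, hs t ht.1 ht.2, sign_neg h0]
    · left
      refine strictMonoOn_of_deriv_pos (convex_Icc a b) p.continuous.continuousOn ?_
      intro t ht
      rw [interior_Icc] at ht
      rw [Polynomial.deriv, ← sign_eq_one_iff, hs t ht.1 ht.2, sign_pos h0]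
  · left
    intro x hx y hy hxy
    exfalso
    linarith [hx.1, hx.2, hy.1, hy.2]

/-- position of a point relative to the root of a monotone function -/
lemma sign_root_sub {f : ℝ → ℝ} {a b t s : ℝ}
    (h : StrictMonoOn f (Set.Icc a b) ∨ StrictAntiOn f (Set.Icc a b))
    (ht : t ∈ Set.Ioo a b) (ht0 : f t = 0) (hs : s ∈ Set.Ioo a b) :
    SignType.sign (t - s) = SignType.sign (-(f s * f b)) := by
  have ht' := Set.Ioo_subset_Icc_self ht
  have hs' := Set.Ioo_subset_Icc_self hs
  have hab : a < b := ht.1.trans ht.2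
  have hb' : b ∈ Set.Icc a b := ⟨hab.le, le_rfl⟩
  rcases h with h | h
  · have hb : 0 < f b := by rw [← ht0]; exact h ht' hb' ht.2
    rcases lt_trichotomy t s with h1 | h1 | h1
    · have h2 : 0 < f s := by rw [← ht0]; exact h ht' hs' h1
      rw [sign_neg (by linarith), sign_neg (by have := mul_pos h2 hb; linarith)]
    · subst h1; rw [ht0]; simp
    · have h2 : f s < 0 := by rw [← ht0]; exact h hs' ht' h1
      rw [sign_pos (by linarith), sign_pos (by have := mul_neg_of_neg_of_pos h2 hb; linarith)]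
  · have hb : f b < 0 := by rw [← ht0]; exact h ht' hb' ht.2
    rcases lt_trichotomy t s with h1 | h1 | h1
    · have h2 : f s < 0 := by rw [← ht0]; exact h ht' hs' h1
      rw [sign_neg (by linarith), sign_neg (by have := mul_pos_of_neg_of_neg h2 hb; linarith)]
    · subst h1; rw [ht0]; simp
    · have h2 : 0 < f s := by rw [← ht0]; exact h hs' ht' h1
      rw [sign_pos (by linarith), sign_pos (by have := mul_neg_of_pos_of_neg h2 hb; linarith)]

/-- a simple real root, isolated by points of `F`, belongs to `F` -/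
theorem root_mem {F : Subalgebra ℝ (ℕ → ℝ)} (hF : MaxHF F) {D : ℕ}
    (IH : ∀ Q : ℕ → ℝ[X], PS F D Q → (¬ ∀ᶠ n in atTop, Q n = 0) → ∃ L, RootList F Q L)
    {P : ℕ → ℝ[X]} (hP : PS F (D + 1) P)
    (hlead : ∀ᶠ n in atTop, (P n).coeff (D + 1) ≠ 0)
    {α β φ : ℕ → ℝ} (hα : α ∈ F) (hβ : β ∈ F)
    (hcrit : ∀ᶠ n in atTop, ∀ t, α n < t → t < β n →
      (Polynomial.derivative (P n)).eval t ≠ 0)
    (hφ : ∀ᶠ n in atTop, α n < φ n ∧ φ n < β n ∧ (P n).eval (φ n) = 0) : φ ∈ F := by
  refine hF.mem fun E Q hQ => ?_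
  obtain ⟨R, hR, hR'⟩ := exists_rem hF.toHF hP hlead E Q hQ
  have h1 : Tame (fun n => (R n).eval (φ n)) := by
    rcases hR.dcd_zero hF.toHF with h0 | h0
    · refine Tame.of_zero ?_
      filter_upwards [h0] with n hn
      rw [hn, eval_zero]
    · obtain ⟨L, hL⟩ := IH R hR (by
        intro h
        obtain ⟨n, hn⟩ := (h.and h0).exists
        exact hn.2 hn.1)
      refine sign_at hF.toHF hR hL fun ξ hξ => ?_
      have hξF := hL.1 ξ hξ
      rcases hF.le hξF hα with h2 | h2
      · refine Tame.of_pos ?_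
        filter_upwards [h2, hφ] with n h3 h4
        linarith [h4.1]
      · rcases hF.le hβ hξF with h3 | h3
        · refine Tame.of_neg ?_
          filter_upwards [h3, hφ] with n h4 h5
          linarith [h5.2.1]
        · have h4 : Tame (fun n => -((P n).eval (ξ n) * (P n).eval (β n))) :=
            ((hF.tame _ (hF.eval_mem hP hξF)).mul (hF.tame _ (hF.eval_mem hP hβ))).neg'
          refine h4.congr_sign ?_
          filter_upwards [h2, h3, hφ, hcrit] with n h5 h6 h7 h8
          exact sign_root_sub (f := fun t => (P n).eval t) (mono_of_no_crit (P n) h8)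
            ⟨h7.1, h7.2.1⟩ h7.2.2 ⟨not_le.1 h5, not_le.1 h6⟩
  refine h1.congr ?_
  filter_upwards [hR', hφ] with n h2 h3
  exact h2 _ h3.2.2

/-- a bound in `F` for the roots -/
lemma exists_bound {F : Subalgebra ℝ (ℕ → ℝ)} (hF : HF F) {D : ℕ} {P : ℕ → ℝ[X]}
    (hP : PS F D P) (hlead : ∀ᶠ n in atTop, (P n).coeff D ≠ 0) :
    ∃ B ∈ F, ∀ᶠ n in atTop, ∀ t : ℝ, (P n).eval t = 0 → - B n < t ∧ t < B n := by
  have hmem : (fun n => (∑ k ∈ Finset.range D, |(P n).coeff k / (P n).coeff D|) + 1) ∈ F := by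
    refine hF.add ?_ (hF.const 1)
    have : (∑ k ∈ Finset.range D, fun n => |(P n).coeff k / (P n).coeff D|) ∈ F :=
      F.sum_mem fun k _ => hF.abs (hF.div (hP.coeff k) (hP.coeff D))
    refine hF.ev _ this _ (Eventually.of_forall fun n => ?_)
    rw [Finset.sum_apply]
  refine ⟨_, hmem, ?_⟩
  filter_upwards [hP.deg, hlead] with n h1 h2 t ht
  have hdeg : (P n).natDegree = D := le_antisymm h1 (le_natDegree_of_ne_zero h2)
  have hne : P n ≠ 0 := by
    intro h0; rw [h0, coeff_zero] at h2; exact h2 rfl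
  have h3 := IsRoot.norm_lt_cauchyBound hne (a := t) ht
  have h4 : (cauchyBound (P n) : ℝ) ≤
      (∑ k ∈ Finset.range D, |(P n).coeff k / (P n).coeff D|) + 1 := by
    rw [cauchyBound, hdeg]
    simp only [NNReal.coe_add, NNReal.coe_div, NNReal.coe_one, coe_nnnorm]
    have hl : (P n).leadingCoeff = (P n).coeff D := by rw [leadingCoeff, hdeg]
    rw [hl]
    have h5 : (0 : ℝ) < ‖(P n).coeff D‖ := norm_pos_iff.2 h2
    refine add_le_add_left ?_ 1 |>.trans (le_of_eq rfl)
    rw [div_le_iff₀ h5]
    have h6 : ((Finset.range D).sup fun x => ‖(P n).coeff x‖₊ : NNReal) ≤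
        ∑ k ∈ Finset.range D, ‖(P n).coeff k‖₊ := by
      refine Finset.sup_le fun k hk => ?_
      exact Finset.single_le_sum (f := fun k => ‖(P n).coeff k‖₊) (fun _ _ => zero_le) hk
    have h7 : (((Finset.range D).sup fun x => ‖(P n).coeff x‖₊ : NNReal) : ℝ) ≤
        ∑ k ∈ Finset.range D, ‖(P n).coeff k‖ := by
      have := NNReal.coe_le_coe.2 h6
      simpa using this
    refine h7.trans (le_of_eq ?_)
    rw [Finset.sum_mul]
    refine Finset.sum_congr rfl fun k _ => ?_
    rw [abs_div, ← Real.norm_eq_abs, ← Real.norm_eq_abs]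
    field_simp
  have h8 : ‖t‖ < _ := (NNReal.coe_lt_coe.2 h3).trans_le h4
  rw [Real.norm_eq_abs] at h8
  exact abs_lt.1 h8

end Pool.Agent.Lib.MP_f4ff90_ag
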