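import Pool.Agent.Lib.MP_f4ff90_ag.HRoot

/-!
# MP_f4ff90_ag : complete root lists over maximal Hardy type fields
-/

set_option autoImplicit false

open Filter Polynomial

namespace Pool.Agent.Lib.MP_f4ff90_ag

lemma exists_list_max {ι : Type*} (L : List ι) (f : ι → ℝ) (p : ι → Prop)
    (h : ∃ x ∈ L, p x) : ∃ x ∈ L, p x ∧ ∀ y ∈ L, p y → f y ≤ f x := by
  classical
  have hfin : ({x | x ∈ L ∧ p x} : Set ι).Finite :=
    (List.finite_toSet L).subset fun x hx => hx.1
  obtain ⟨x, hx, hmax⟩ := Set.exists_max_image _ f hfin (by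
    obtain ⟨x, hx, hp⟩ := h
    exact ⟨x, hx, hp⟩)
  exact ⟨x, hx.1, hx.2, fun y hy hpy => hmax y ⟨hy, hpy⟩⟩

lemma exists_list_min {ι : Type*} (L : List ι) (f : ι → ℝ) (p : ι → Prop)
    (h : ∃ x ∈ L, p x) : ∃ x ∈ L, p x ∧ ∀ y ∈ L, p y → f x ≤ f y := by
  obtain ⟨x, hx, hp, hmax⟩ := exists_list_max L (fun y => - f y) p h
  exact ⟨x, hx, hp, fun y hy hpy => neg_le_neg_iff.1 (hmax y hy hpy)⟩

/-- the root of `P n` between `α n` and `β n` -/
noncomputable def rootFn (P : ℕ → ℝ[X]) (α β : ℕ → ℝ) (n : ℕ) : ℝ :=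
  open Classical in
  if h : ∃ t, α n < t ∧ t < β n ∧ (P n).eval t = 0 then h.choose else 0

lemma rootFn_spec {P : ℕ → ℝ[X]} {α β : ℕ → ℝ} {n : ℕ}
    (h : ∃ t, α n < t ∧ t < β n ∧ (P n).eval t = 0) :
    α n < rootFn P α β n ∧ rootFn P α β n < β n ∧ (P n).eval (rootFn P α β n) = 0 := by
  classical
  have : rootFn P α β n = h.choose := dif_pos h
  rw [this]
  exact h.choose_spec

lemma exists_root_of_mul_neg {p : ℝ[X]} {a b : ℝ} (hab : a < b)
    (h : p.eval a * p.eval b < 0) : ∃ t, a < t ∧ t < b ∧ p.eval t = 0 := by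
  by_contra hno
  push Not at hno
  have ha : p.eval a ≠ 0 := by intro h0; rw [h0] at h; simp at h
  have hb : p.eval b ≠ 0 := by intro h0; rw [h0] at h; simp at h
  have := sign_eq_of_no_root p a b (by
    intro t ht
    rw [Set.uIcc_of_le hab.le] at ht
    rcases ht.1.eq_or_lt with h1 | h1
    · rw [← h1]; exact ha
    · rcases ht.2.eq_or_lt with h2 | h2
      · rw [h2]; exact hb
      · exact hno t h1 h2)
  rcases lt_or_gt_of_ne ha with h1 | h1 <;> rcases lt_or_gt_of_ne hb with h2 | h2
  · have := mul_pos_of_neg_of_neg h1 h2; linarith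
  · rw [sign_neg h1, sign_pos h2] at this; exact absurd this (by decide)
  · rw [sign_pos h1, sign_neg h2] at this; exact absurd this (by decide)
  · have := mul_pos h1 h2; linarith

/-- **complete root lists** -/
theorem exists_rootList {F : Subalgebra ℝ (ℕ → ℝ)} (hF : MaxHF F) :
    ∀ (D : ℕ) (P : ℕ → ℝ[X]), PS F D P → (¬ ∀ᶠ n in atTop, P n = 0) →
      ∃ L, RootList F P L := by
  classical
  intro D
  induction D with
  | zero =>
    intro P hP h0
    refine ⟨[], by simp, ?_⟩
    rcases hP.dcd_zero hF.toHF with h | h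
    · exact absurd h h0
    · filter_upwards [h, hP.deg] with n h1 h2 t
      rw [eq_C_of_natDegree_le_zero h2] at h1 ⊢
      simpa using h1
  | succ D IH =>
    intro P hP h0
    rcases (hF.tame _ (hP.coeff (D + 1))).zero with hl | hlead
    · exact IH P (hP.drop hl) h0
    · -- critical points
      have hP' : PS F D (fun n => Polynomial.derivative (P n)) := by
        simpa using hP.derivative
      have hP0 : ¬ ∀ᶠ n in atTop, Polynomial.derivative (P n) = 0 := by
        intro h
        obtain ⟨n, h1, h2⟩ := (h.and hlead).exists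
        have h3 : (Polynomial.derivative (P n)).coeff D = 0 := by rw [h1, coeff_zero]
        rw [coeff_derivative] at h3
        have h4 : (D : ℝ) + 1 ≠ 0 := by positivity
        exact h2 ((mul_eq_zero.1 h3).resolve_right h4)
      obtain ⟨L', hL'F, hL'⟩ := IH _ hP' hP0
      obtain ⟨B, hBF, hB⟩ := exists_bound hF.toHF hP hlead
      set E : List (ℕ → ℝ) := (fun n => - B n) :: B :: L' with hE
      have hEF : ∀ ξ ∈ E, ξ ∈ F := by
        intro ξ hξ
        rw [hE, List.mem_cons, List.mem_cons] at hξ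
        rcases hξ with rfl | rfl | hξ
        · exact hF.neg hBF
        · exact hBF
        · exact hL'F ξ hξ
      -- good pairs
      let cond : (ℕ → ℝ) × (ℕ → ℝ) → ℕ → Prop := fun x n =>
        x.1 n < x.2 n ∧ (∀ γ ∈ E, ¬ (x.1 n < γ n ∧ γ n < x.2 n)) ∧
          (P n).eval (x.1 n) * (P n).eval (x.2 n) < 0
      have hcond : ∀ x : (ℕ → ℝ) × (ℕ → ℝ), x.1 ∈ E → x.2 ∈ E → Dcd (cond x) := by
        intro x h1 h2
        refine (hF.lt (hEF _ h1) (hEF _ h2)).and (Dcd.and ?_ ?_)
        · exact Dcd.forall_list fun γ hγ =>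
            ((hF.lt (hEF _ h1) (hEF γ hγ)).and (hF.lt (hEF γ hγ) (hEF _ h2))).not
        · exact ((hF.tame _ (hF.eval_mem hP (hEF _ h1))).mul
            (hF.tame _ (hF.eval_mem hP (hEF _ h2)))).neg
      set pairs : List ((ℕ → ℝ) × (ℕ → ℝ)) :=
        (E.product E).filter (fun x => ∀ᶠ n in atTop, cond x n) with hpairs
      have hmem : ∀ x, x ∈ pairs ↔ (x.1 ∈ E ∧ x.2 ∈ E) ∧ ∀ᶠ n in atTop, cond x n := by
        rintro ⟨a, b⟩
        rw [hpairs, List.mem_filter, decide_eq_true_eq]
        exact and_congr_left fun _ => List.mem_product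
      -- no critical points between adjacent points
      have hcrit : ∀ᶠ n in atTop, ∀ a b : ℝ, (∀ γ ∈ E, ¬ (a < γ n ∧ γ n < b)) →
          ∀ t, a < t → t < b → (Polynomial.derivative (P n)).eval t ≠ 0 := by
        filter_upwards [hL'] with n hn a b hab t h1 h2 h3
        obtain ⟨γ, hγ, rfl⟩ := (hn t).1 h3
        exact hab γ (by rw [hE]; simp [hγ]) ⟨h1, h2⟩
      refine ⟨E.filter (fun ξ => ∀ᶠ n in atTop, (P n).eval (ξ n) = 0) ++
        pairs.map (fun x => rootFn P x.1 x.2), ?_, ?_⟩
      · intro ξ hξ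
        rw [List.mem_append, List.mem_filter, List.mem_map] at hξ
        rcases hξ with hξ | ⟨x, hx, rfl⟩
        · exact hEF ξ hξ.1
        · obtain ⟨⟨h1, h2⟩, h3⟩ := (hmem x).1 hx
          refine root_mem hF IH hP hlead (hEF _ h1) (hEF _ h2) ?_ ?_
          · filter_upwards [h3, hcrit] with n h4 h5
            exact h5 _ _ h4.2.1
          · filter_upwards [h3] with n h4
            exact rootFn_spec (exists_root_of_mul_neg h4.1 h4.2.2)
      · have e1 : ∀ᶠ n in atTop, ∀ ξ ∈ E,
            ((P n).eval (ξ n) = 0 ↔ ∀ᶠ k in atTop, (P k).eval (ξ k) = 0) :=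
          eventually_forall_list fun ξ hξ =>
            ((hF.tame _ (hF.eval_mem hP (hEF ξ hξ))).zero).iff
        have e2 : ∀ᶠ n in atTop, ∀ x ∈ E.product E,
            (cond x n ↔ ∀ᶠ k in atTop, cond x k) :=
          eventually_forall_list fun x hx => (hcond x (by simpa using (List.mem_product.1 hx).1)
            (by simpa using (List.mem_product.1 hx).2)).iff
        filter_upwards [e1, e2, hB, hcrit] with n e1 e2 hB hcrit t
        constructor
        · intro ht
          by_cases hex : ∃ ξ ∈ E, ξ n = t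
          · obtain ⟨ξ, hξ, rfl⟩ := hex
            exact ⟨ξ, List.mem_append_left _ (List.mem_filter.2 ⟨hξ, by
              simpa using (e1 ξ hξ).1 ht⟩), rfl⟩
          · push Not at hex
            obtain ⟨α, hα, hαt, hαmax⟩ := exists_list_max E (fun ξ => ξ n) (fun ξ => ξ n < t)
              ⟨fun n => - B n, by rw [hE]; simp, (hB t ht).1⟩
            obtain ⟨β, hβ, hβt, hβmin⟩ := exists_list_min E (fun ξ => ξ n) (fun ξ => t < ξ n)
              ⟨B, by rw [hE]; simp, (hB t ht).2⟩
            have hadj : ∀ γ ∈ E, ¬ (α n < γ n ∧ γ n < β n) := by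
              rintro γ hγ ⟨h1, h2⟩
              rcases lt_or_gt_of_ne (hex γ hγ) with h3 | h3
              · exact absurd (hαmax γ hγ h3) (not_le.2 h1)
              · exact absurd (hβmin γ hγ h3) (not_le.2 h2)
            have hmono := mono_of_no_crit (P n) (hcrit _ _ hadj)
            have htI : t ∈ Set.Icc (α n) (β n) := ⟨hαt.le, hβt.le⟩
            have haI : α n ∈ Set.Icc (α n) (β n) := ⟨le_rfl, (hαt.trans hβt).le⟩
            have hbI : β n ∈ Set.Icc (α n) (β n) := ⟨(hαt.trans hβt).le, le_rfl⟩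
            have hneg : (P n).eval (α n) * (P n).eval (β n) < 0 := by
              rcases hmono with h | h
              · have h1 := h haI htI hαt
                have h2 := h htI hbI hβt
                simp only [ht] at h1 h2
                exact mul_neg_of_neg_of_pos h1 h2
              · have h1 := h haI htI hαt
                have h2 := h htI hbI hβt
                simp only [ht] at h1 h2
                exact mul_neg_of_pos_of_neg h1 h2
            have hc : cond (α, β) n := ⟨hαt.trans hβt, hadj, hneg⟩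
            have hmemP : (α, β) ∈ pairs :=
              (hmem _).2 ⟨⟨hα, hβ⟩, (e2 (α, β) (List.mem_product.2 ⟨hα, hβ⟩)).1 hc⟩
            refine ⟨rootFn P α β, List.mem_append_right _ (List.mem_map.2 ⟨_, hmemP, rfl⟩), ?_⟩
            have hsp := rootFn_spec (P := P) (α := α) (β := β) (n := n) ⟨t, hαt, hβt, ht⟩
            have hrI : rootFn P α β n ∈ Set.Icc (α n) (β n) := ⟨hsp.1.le, hsp.2.1.le⟩
            have hinj : Set.InjOn (fun t => (P n).eval t) (Set.Icc (α n) (β n)) := by
              rcases hmono with h | h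
              · exact h.injOn
              · exact h.injOn
            exact hinj hrI htI (by simp only [hsp.2.2, ht])
        · rintro ⟨ξ, hξ, rfl⟩
          rw [List.mem_append, List.mem_filter, List.mem_map] at hξ
          rcases hξ with ⟨hξ, h⟩ | ⟨x, hx, rfl⟩
          · exact (e1 ξ hξ).2 (by simpa using h)
          · obtain ⟨⟨h1, h2⟩, h3⟩ := (hmem x).1 hx
            have hc : cond x n := (e2 x (List.mem_product.2 ⟨h1, h2⟩)).2 h3
            exact (rootFn_spec (exists_root_of_mul_neg hc.1 hc.2.2)).2.2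

end Pool.Agent.Lib.MP_f4ff90_ag
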