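import Pool.Agent.Lib.MP_f4ff90_ag.KItin2

/-!
# MP_f4ff90_ag : fibre systems which are monotone on cells given by sign conditions
-/

set_option autoImplicit false

open Filter Polynomial

namespace Pool.Agent.Lib.MP_f4ff90_ag

/-! ## Thom's lemma -/

/-- **Thom's lemma**: sign conditions on all derivatives define intervals -/
lemma thom_conn : ∀ (N : ℕ) (P : ℝ[X]), P.natDegree ≤ N → ∀ a b t : ℝ, a ≤ t → t ≤ b →
    (∀ j, SignType.sign ((derivative^[j] P).eval a) = SignType.sign ((derivative^[j] P).eval b)) →
    ∀ j, SignType.sign ((derivative^[j] P).eval t) = SignType.sign ((derivative^[j] P).eval a) := by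
  intro N
  induction N with
  | zero =>
    intro P hP a b t _ _ _ j
    rw [eq_C_of_natDegree_le_zero hP]
    rcases j with _ | j
    · simp
    · rw [Function.iterate_succ_apply, derivative_C, iterate_derivative_zero]
      simp
  | succ N ih =>
    intro P hP a b t hat htb h j
    have hP' : (derivative P).natDegree ≤ N := (natDegree_derivative_le P).trans (by omega)
    have h' : ∀ j, SignType.sign ((derivative^[j] (derivative P)).eval a) =
        SignType.sign ((derivative^[j] (derivative P)).eval b) := fun j => h (j + 1)
    have ht' := fun t h1 h2 => ih (derivative P) hP' a b t h1 h2 h'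
    rcases j with _ | j
    · -- the sign of `P` itself
      have hd : ∀ s, a ≤ s → s ≤ b → SignType.sign ((derivative P).eval s) =
          SignType.sign ((derivative P).eval a) := fun s h1 h2 => ht' s h1 h2 0
      have h0 : SignType.sign (P.eval a) = SignType.sign (P.eval b) := h 0
      show SignType.sign (P.eval t) = SignType.sign (P.eval a)
      have hIcc : Set.Icc a b = Set.Icc a b := rfl
      have hta : t ∈ Set.Icc a b := ⟨hat, htb⟩
      have haa : a ∈ Set.Icc a b := ⟨le_rfl, hat.trans htb⟩
      have hbb : b ∈ Set.Icc a b := ⟨hat.trans htb, le_rfl⟩
      rcases lt_trichotomy ((derivative P).eval a) 0 with h1 | h1 | h1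
      · have hanti : StrictAntiOn (fun t => P.eval t) (Set.Icc a b) := by
          refine strictAntiOn_of_deriv_neg (convex_Icc a b) P.continuous.continuousOn ?_
          intro s hs
          rw [interior_Icc] at hs
          rw [Polynomial.deriv, ← sign_eq_neg_one_iff, hd s hs.1.le hs.2.le, sign_neg h1]
        rcases hat.eq_or_lt with h2 | h2
        · rw [← h2]
        · rcases htb.eq_or_lt with h3 | h3
          · rw [h3, h0]
          · have h4 := hanti haa hta h2
            have h5 := hanti hta hbb h3
            simp only at h4 h5
            rcases lt_trichotomy (P.eval a) 0 with h6 | h6 | h6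
            · rw [sign_neg h6, sign_neg (h4.trans h6)]
            · exfalso
              rw [h6, sign_zero] at h0
              have := sign_eq_zero_iff.1 h0.symm
              linarith
            · rw [sign_pos h6] at h0 ⊢
              have := sign_eq_one_iff.1 h0.symm
              rw [sign_pos (this.trans h5)]
      · have hz : ∀ s ∈ Set.Icc a b, (derivative P).eval s = 0 := by
          intro s hs
          rw [← sign_eq_zero_iff, hd s hs.1 hs.2, h1, sign_zero]
        have hconst : P.eval t = P.eval a := by
          refine constant_of_has_deriv_right_zero (f := fun t => P.eval t)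
            P.continuous.continuousOn (fun s hs => ?_) t hta
          have := (P.hasDerivAt s).hasDerivWithinAt (s := Set.Ici s)
          rwa [hz s ⟨hs.1, hs.2.le⟩] at this
        rw [hconst]
      · have hmono : StrictMonoOn (fun t => P.eval t) (Set.Icc a b) := by
          refine strictMonoOn_of_deriv_pos (convex_Icc a b) P.continuous.continuousOn ?_
          intro s hs
          rw [interior_Icc] at hs
          rw [Polynomial.deriv, ← sign_eq_one_iff, hd s hs.1.le hs.2.le, sign_pos h1]
        rcases hat.eq_or_lt with h2 | h2
        · rw [← h2]
        · rcases htb.eq_or_lt with h3 | h3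
          · rw [h3, h0]
          · have h4 := hmono haa hta h2
            have h5 := hmono hta hbb h3
            simp only at h4 h5
            rcases lt_trichotomy (P.eval a) 0 with h6 | h6 | h6
            · rw [sign_neg h6] at h0 ⊢
              have := sign_eq_neg_one_iff.1 h0.symm
              rw [sign_neg (h5.trans this)]
            · exfalso
              rw [h6, sign_zero] at h0
              have := sign_eq_zero_iff.1 h0.symm
              linarith
            · rw [sign_pos h6, sign_pos (h6.trans h4)]
    · exact ht' t hat htb j

/-- comparison of signs -/
def scmp (u v : SignType) : SignType := if v < u then 1 else if u < v then -1 else 0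

lemma scmp_swap (u v : SignType) : scmp v u = - scmp u v := by
  revert u v; decide

/-- **order of points from the signs of the derivatives** -/
lemma thom_sign {P : ℝ[X]} {a b : ℝ} {j : ℕ}
    (hne : SignType.sign ((derivative^[j] P).eval a) ≠ SignType.sign ((derivative^[j] P).eval b))
    (heq : ∀ i > j, SignType.sign ((derivative^[i] P).eval a) =
      SignType.sign ((derivative^[i] P).eval b)) :
    SignType.sign (a - b) = SignType.sign ((derivative^[j + 1] P).eval a) *
      scmp (SignType.sign ((derivative^[j] P).eval a))
        (SignType.sign ((derivative^[j] P).eval b)) := by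
  -- reduction to `a < b`
  have key : ∀ a b : ℝ, a < b →
      SignType.sign ((derivative^[j] P).eval a) ≠ SignType.sign ((derivative^[j] P).eval b) →
      (∀ i > j, SignType.sign ((derivative^[i] P).eval a) =
        SignType.sign ((derivative^[i] P).eval b)) →
      SignType.sign ((derivative^[j + 1] P).eval a) *
        scmp (SignType.sign ((derivative^[j] P).eval a))
          (SignType.sign ((derivative^[j] P).eval b)) = -1 := by
    intro a b hab hne heq
    set R := derivative^[j] P with hR
    have hR' : derivative^[j + 1] P = derivative R := by
      rw [hR, Function.iterate_succ_apply']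
    have hRj : ∀ i, derivative^[i] (derivative R) = derivative^[i + (j + 1)] P := by
      intro i
      rw [Function.iterate_add_apply, hR']
    have hd : ∀ s, a ≤ s → s ≤ b → SignType.sign ((derivative R).eval s) =
        SignType.sign ((derivative R).eval a) := by
      intro s h1 h2
      have := thom_conn _ (derivative R) le_rfl a b s h1 h2 (fun i => by
        rw [hRj]; exact heq _ (by omega)) 0
      exact this
    have haa : a ∈ Set.Icc a b := ⟨le_rfl, hab.le⟩
    have hbb : b ∈ Set.Icc a b := ⟨hab.le, le_rfl⟩
    rw [hR']
    rcases lt_trichotomy ((derivative R).eval a) 0 with h1 | h1 | h1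
    · have hanti : StrictAntiOn (fun t => R.eval t) (Set.Icc a b) := by
        refine strictAntiOn_of_deriv_neg (convex_Icc a b) R.continuous.continuousOn ?_
        intro s hs
        rw [interior_Icc] at hs
        rw [Polynomial.deriv, ← sign_eq_neg_one_iff, hd s hs.1.le hs.2.le, sign_neg h1]
      have h2 : R.eval b < R.eval a := hanti haa hbb hab
      have h3 : SignType.sign (R.eval b) ≤ SignType.sign (R.eval a) := OrderHom.mono (SignType.sign : ℝ →o SignType) h2.le
      rw [sign_neg h1]
      revert h3 hne
      generalize SignType.sign (R.eval a) = u
      generalize SignType.sign (R.eval b) = v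
      revert u v
      decide
    · exfalso
      have hz : ∀ s ∈ Set.Icc a b, (derivative R).eval s = 0 := by
        intro s hs
        rw [← sign_eq_zero_iff, hd s hs.1 hs.2, h1, sign_zero]
      have hconst : R.eval b = R.eval a := by
        refine constant_of_has_deriv_right_zero (f := fun t => R.eval t)
          R.continuous.continuousOn (fun s hs => ?_) b hbb
        have := (R.hasDerivAt s).hasDerivWithinAt (s := Set.Ici s)
        rwa [hz s ⟨hs.1, hs.2.le⟩] at this
      exact hne (by rw [hconst])
    · have hmono : StrictMonoOn (fun t => R.eval t) (Set.Icc a b) := by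
        refine strictMonoOn_of_deriv_pos (convex_Icc a b) R.continuous.continuousOn ?_
        intro s hs
        rw [interior_Icc] at hs
        rw [Polynomial.deriv, ← sign_eq_one_iff, hd s hs.1.le hs.2.le, sign_pos h1]
      have h2 : R.eval a < R.eval b := hmono haa hbb hab
      have h3 : SignType.sign (R.eval a) ≤ SignType.sign (R.eval b) := OrderHom.mono (SignType.sign : ℝ →o SignType) h2.le
      rw [sign_pos h1]
      revert h3 hne
      generalize SignType.sign (R.eval a) = u
      generalize SignType.sign (R.eval b) = v
      revert u v
      decide
  rcases lt_trichotomy a b with h | h | h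
  · rw [sign_neg (sub_neg.2 h), key a b h hne heq]
  · exact absurd (by rw [h]) hne
  · have := key b a h hne.symm (fun i hi => (heq i hi).symm)
    rw [sign_pos (sub_pos.2 h), heq (j + 1) (by omega), scmp_swap, ← neg_mul_comm, neg_mul, this]
    rfl

end Pool.Agent.Lib.MP_f4ff90_ag
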