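import Pool.Agent.Lib.MP_f4ff90_ag.KCell

/-!
# MP_f4ff90_ag : fibre systems which are monotone on cells, the system
-/

set_option autoImplicit false

open Filter Polynomial

namespace Pool.Agent.Lib.MP_f4ff90_ag

/-- two points of `F` which have the same position as `φ` relative to the elements of `L` -/
lemma exists_test2 {F : Subalgebra ℝ (ℕ → ℝ)} (hF : HF F) (L : List (ℕ → ℝ))
    (hL : ∀ ξ ∈ L, ξ ∈ F) (φ : ℕ → ℝ)
    (hφ : ∀ ξ ∈ L, (∀ᶠ n in atTop, φ n < ξ n) ∨ (∀ᶠ n in atTop, ξ n < φ n)) :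
    ∃ w ∈ F, ∃ w' ∈ F, (∀ᶠ n in atTop, w n < w' n) ∧
      ∀ ξ ∈ L, (∀ᶠ n in atTop, φ n < ξ n ∧ w n < ξ n ∧ w' n < ξ n) ∨
      (∀ᶠ n in atTop, ξ n < φ n ∧ ξ n < w n ∧ ξ n < w' n) := by
  classical
  set Lm := L.filter (fun ξ => ∀ᶠ n in atTop, ξ n < φ n) with hLm
  set Lp := L.filter (fun ξ => ∀ᶠ n in atTop, φ n < ξ n) with hLp
  have hm : ∀ ξ, ξ ∈ Lm ↔ ξ ∈ L ∧ ∀ᶠ n in atTop, ξ n < φ n := by
    intro ξ; rw [hLm, List.mem_filter]; simp
  have hp : ∀ ξ, ξ ∈ Lp ↔ ξ ∈ L ∧ ∀ᶠ n in atTop, φ n < ξ n := by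
    intro ξ; rw [hLp, List.mem_filter]; simp
  by_cases hm0 : Lm = []
  · by_cases hp0 : Lp = []
    · refine ⟨fun _ => 0, hF.const 0, fun _ => 1, hF.const 1,
        Eventually.of_forall fun _ => zero_lt_one, fun ξ hξ => ?_⟩
      rcases hφ ξ hξ with h | h
      · have := (hp ξ).2 ⟨hξ, h⟩; rw [hp0] at this; simp at this
      · have := (hm ξ).2 ⟨hξ, h⟩; rw [hm0] at this; simp at this
    · obtain ⟨β, hβ, hmin⟩ := exists_min_list hF Lp hp0 fun ξ hξ => hL ξ ((hp ξ).1 hξ).1
      refine ⟨fun n => β n - 2, hF.sub (hL β ((hp β).1 hβ).1) (hF.const 2),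
        fun n => β n - 1, hF.sub (hL β ((hp β).1 hβ).1) (hF.const 1),
        Eventually.of_forall fun n => by linarith, fun ξ hξ => ?_⟩
      rcases hφ ξ hξ with h | h
      · left
        filter_upwards [h, hmin ξ ((hp ξ).2 ⟨hξ, h⟩)] with n h1 h2
        exact ⟨h1, by linarith, by linarith⟩
      · have := (hm ξ).2 ⟨hξ, h⟩; rw [hm0] at this; simp at this
  · obtain ⟨α, hα, hmax⟩ := exists_max_list hF Lm hm0 fun ξ hξ => hL ξ ((hm ξ).1 hξ).1
    by_cases hp0 : Lp = []
    · refine ⟨fun n => α n + 1, hF.add (hL α ((hm α).1 hα).1) (hF.const 1),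
        fun n => α n + 2, hF.add (hL α ((hm α).1 hα).1) (hF.const 2),
        Eventually.of_forall fun n => by linarith, fun ξ hξ => ?_⟩
      rcases hφ ξ hξ with h | h
      · have := (hp ξ).2 ⟨hξ, h⟩; rw [hp0] at this; simp at this
      · right
        filter_upwards [h, hmax ξ ((hm ξ).2 ⟨hξ, h⟩)] with n h1 h2
        exact ⟨h1, by linarith, by linarith⟩
    · obtain ⟨β, hβ, hmin⟩ := exists_min_list hF Lp hp0 fun ξ hξ => hL ξ ((hp ξ).1 hξ).1
      have hαF := hL α ((hm α).1 hα).1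
      have hβF := hL β ((hp β).1 hβ).1
      have hαφ := ((hm α).1 hα).2
      have hβφ := ((hp β).1 hβ).2
      refine ⟨fun n => (2 * α n + β n) / 3,
        hF.div (hF.add (hF.mul (hF.const 2) hαF) hβF) (hF.const 3),
        fun n => (α n + 2 * β n) / 3,
        hF.div (hF.add hαF (hF.mul (hF.const 2) hβF)) (hF.const 3), ?_, fun ξ hξ => ?_⟩
      · filter_upwards [hαφ, hβφ] with n h1 h2
        linarith
      rcases hφ ξ hξ with h | h
      · left
        filter_upwards [h, hmin ξ ((hp ξ).2 ⟨hξ, h⟩), hαφ, hβφ] with n h1 h2 h3 h4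
        exact ⟨h1, by linarith, by linarith⟩
      · right
        filter_upwards [h, hmax ξ ((hm ξ).2 ⟨hξ, h⟩), hαφ, hβφ] with n h1 h2 h3 h4
        exact ⟨h1, by linarith, by linarith⟩

/-- the set of all points at which all derivatives of all members of the family have the same
signs as at `z` -/
def cellAt (𝓥 : List (ℕ → ℝ[X])) (n : ℕ) (z : ℝ) : Set ℝ :=
  {t | ∀ V ∈ 𝓥, ∀ j, SignType.sign ((derivative^[j] (V n)).eval t) =
    SignType.sign ((derivative^[j] (V n)).eval z)}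

lemma self_mem_cellAt (𝓥 : List (ℕ → ℝ[X])) (n : ℕ) (z : ℝ) : z ∈ cellAt 𝓥 n z :=
  fun _ _ _ => rfl

lemma PS.iterDeriv {F : Subalgebra ℝ (ℕ → ℝ)} {E : ℕ} {V : ℕ → ℝ[X]} (h : PS F E V) (j : ℕ) :
    PS F E (fun n => Polynomial.derivative^[j] (V n)) := by
  induction j with
  | zero => exact h
  | succ j ih =>
    have := ih.derivative.mono (Nat.sub_le E 1)
    simp only [Function.iterate_succ_apply']
    exact this

/-- the position of an element of the field relative to the orbit is decided -/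
lemma cell_dec {G : Subalgebra ℝ (ℕ → ℝ)} (hG : HF G) {E : ℕ} {𝓥 : List (ℕ → ℝ[X])}
    (hV : ∀ V ∈ 𝓥, PS G E V) {z : ℕ → ℝ}
    (hz : ∀ V ∈ 𝓥, ∀ j, ∃ s, ∀ᶠ k in atTop, SignType.sign ((derivative^[j] (V k)).eval (z k)) = s)
    {ξ : ℕ → ℝ} (hξ : ξ ∈ G) :
    (∀ᶠ k in atTop, ξ k ∈ cellAt 𝓥 k (z k)) ∨ Tame (fun k => z k - ξ k) := by
  have hξs : ∀ V ∈ 𝓥, ∀ j, ∃ s, ∀ᶠ k in atTop,
      SignType.sign ((derivative^[j] (V k)).eval (ξ k)) = s := fun V hVm j =>
    hG.tame _ (hG.eval_mem ((hV V hVm).iterDeriv j) hξ)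
  have hbig : ∀ V ∈ 𝓥, ∀ᶠ k in atTop, ∀ j > E, derivative^[j] (V k) = 0 := by
    intro V hVm
    filter_upwards [(hV V hVm).deg] with k hk j hj
    exact iterate_derivative_eq_zero (hk.trans_lt hj)
  by_cases hcase : ∀ V ∈ 𝓥, ∀ j ≤ E, ∀ᶠ k in atTop,
      SignType.sign ((derivative^[j] (V k)).eval (ξ k)) =
        SignType.sign ((derivative^[j] (V k)).eval (z k))
  · left
    have h1 : ∀ᶠ k in atTop, ∀ V ∈ 𝓥, ∀ j,
        SignType.sign ((derivative^[j] (V k)).eval (ξ k)) =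
          SignType.sign ((derivative^[j] (V k)).eval (z k)) := by
      refine eventually_forall_list fun V hVm => ?_
      have h2 : ∀ᶠ k in atTop, ∀ j ∈ List.range (E + 1),
          SignType.sign ((derivative^[j] (V k)).eval (ξ k)) =
            SignType.sign ((derivative^[j] (V k)).eval (z k)) :=
        eventually_forall_list fun j hj =>
          hcase V hVm j (by have := List.mem_range.1 hj; omega)
      filter_upwards [h2, hbig V hVm] with k h3 h4 j
      by_cases hj : j < E + 1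
      · exact h3 j (List.mem_range.2 hj)
      · rw [h4 j (by omega)]
        simp
    exact h1
  · right
    push Not at hcase
    obtain ⟨V, hVm, j₀, hj₀, hne₀⟩ := hcase
    choose sz hsz using hz V hVm
    choose sx hsx using hξs V hVm
    have hP : ∃ j ≤ E, sz j ≠ sx j := by
      refine ⟨j₀, hj₀, fun heq => hne₀ ?_⟩
      have := (hsz j₀).and (hsx j₀)
      filter_upwards [this] with k hk hcon
      exact hcon (by rw [hk.1, hk.2, heq])
    classical
    obtain ⟨j₁, hj₁, hj₁'⟩ := hP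
    set j := Nat.findGreatest (fun j => sz j ≠ sx j) E with hjdef
    have hj1 : sz j ≠ sx j := Nat.findGreatest_spec (P := fun j => sz j ≠ sx j) hj₁ hj₁'
    have hj2 : ∀ i, j < i → i ≤ E → sz i = sx i := by
      intro i h1 h2
      by_contra hcon
      exact Nat.findGreatest_is_greatest h1 h2 hcon
    have hall : ∀ᶠ k in atTop, ∀ i > j, SignType.sign ((derivative^[i] (V k)).eval (z k)) =
        SignType.sign ((derivative^[i] (V k)).eval (ξ k)) := by
      have h2 : ∀ᶠ k in atTop, ∀ i ∈ List.range (E + 1), j < i →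
          SignType.sign ((derivative^[i] (V k)).eval (z k)) =
            SignType.sign ((derivative^[i] (V k)).eval (ξ k)) :=
        eventually_forall_list fun i hi => by
          filter_upwards [hsz i, hsx i] with k h3 h4 h5
          rw [h3, h4]
          exact hj2 i h5 (by have := List.mem_range.1 hi; omega)
      filter_upwards [h2, hbig V hVm] with k h3 h4 i hi
      by_cases hiE : i < E + 1
      · exact h3 i (List.mem_range.2 hiE) hi
      · rw [h4 i (by omega)]
        simp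
    refine ⟨sz (j + 1) * scmp (sz j) (sx j), ?_⟩
    filter_upwards [hall, hsz j, hsx j, hsz (j + 1)] with k h1 h2 h3 h4
    rw [thom_sign (P := V k) (j := j) (by rw [h2, h3]; exact hj1) h1, h2, h3, h4]

/-- if a nonzero derivative vanishes at `z`, the cell of `z` is `{z}` -/
lemma cell_singleton {𝓥 : List (ℕ → ℝ[X])} {n : ℕ} {z : ℝ} {V : ℕ → ℝ[X]} (hV : V ∈ 𝓥) {j : ℕ}
    (h0 : derivative^[j] (V n) ≠ 0) (hz : (derivative^[j] (V n)).eval z = 0) {t : ℝ}
    (ht : t ∈ cellAt 𝓥 n z) : t = z := by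
  by_contra hne
  have key : ∀ a b : ℝ, a < b → (∀ i, SignType.sign ((derivative^[i] (V n)).eval a) =
      SignType.sign ((derivative^[i] (V n)).eval b)) → (derivative^[j] (V n)).eval a = 0 →
        False := by
    intro a b hab h ha
    refine h0 (eq_zero_of_infinite_isRoot _ ?_)
    refine Set.Infinite.mono ?_ (Set.Icc_infinite hab)
    intro s hs
    have := thom_conn _ (V n) le_rfl a b s hs.1 hs.2 h j
    rw [ha, sign_zero] at this
    exact sign_eq_zero_iff.1 this
  rcases lt_or_gt_of_ne hne with h | h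
  · refine key t z h (fun i => ht V hV i) ?_
    have := ht V hV j
    rw [hz, sign_zero] at this
    exact sign_eq_zero_iff.1 this
  · exact key z t h (fun i => (ht V hV i).symm) hz

variable {q : ℕ} {S : Subalgebra ℝ (ℕ → ℝ)} {D : ℕ} {N M : ℕ → ℝ[X]} {y : ℕ → ℝ}

/-- on a progression, the cell is eventually a point or contains two points of the field -/
lemma cell_cases {G : Subalgebra ℝ (ℕ → ℝ)} (hG : MaxHF G) {E : ℕ} {𝓥 : List (ℕ → ℝ[X])}
    (hV : ∀ V ∈ 𝓥, PS G E V) {z : ℕ → ℝ}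
    (hz : ∀ V ∈ 𝓥, ∀ j, ∃ s, ∀ᶠ k in atTop,
      SignType.sign ((derivative^[j] (V k)).eval (z k)) = s) :
    (∀ᶠ k in atTop, ∀ t ∈ cellAt 𝓥 k (z k), t = z k) ∨
      ∃ w ∈ G, ∃ w' ∈ G, ∀ᶠ k in atTop, w k ∈ cellAt 𝓥 k (z k) ∧ w' k ∈ cellAt 𝓥 k (z k) ∧
        w k < w' k := by
  classical
  -- all pairs `(V, j)` with `V^(j)` eventually nonzero
  by_cases hroot : ∃ V ∈ 𝓥, ∃ j, (∀ᶠ k in atTop, derivative^[j] (V k) ≠ 0) ∧
      ∀ᶠ k in atTop, (derivative^[j] (V k)).eval (z k) = 0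
  · left
    obtain ⟨V, hVm, j, h1, h2⟩ := hroot
    filter_upwards [h1, h2] with k h3 h4 t ht
    exact cell_singleton hVm h3 h4 ht
  · right
    have hno : ∀ V ∈ 𝓥, ∀ j, (∀ᶠ k in atTop, derivative^[j] (V k) ≠ 0) →
        ∀ᶠ k in atTop, (derivative^[j] (V k)).eval (z k) ≠ 0 := by
      intro V hVm j h1
      obtain ⟨s, hs⟩ := hz V hVm j
      by_cases hs0 : s = 0
      · exfalso
        refine hroot ⟨V, hVm, j, h1, ?_⟩
        filter_upwards [hs] with k hk
        rw [hs0] at hk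
        exact sign_eq_zero_iff.1 hk
      · filter_upwards [hs] with k hk h0
        rw [h0, sign_zero] at hk
        exact hs0 hk.symm
    -- root lists
    have hlist : ∀ x : (ℕ → ℝ[X]) × ℕ, x.1 ∈ 𝓥 → ∃ L : List (ℕ → ℝ), (∀ η ∈ L, η ∈ G) ∧
        ((∀ᶠ k in atTop, derivative^[x.2] (x.1 k) = 0) ∨
          RootList G (fun k => derivative^[x.2] (x.1 k)) L ∧
            ∀ᶠ k in atTop, derivative^[x.2] (x.1 k) ≠ 0) := by
      intro x hx
      have hPS := (hV x.1 hx).iterDeriv x.2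
      rcases hPS.dcd_zero hG.toHF with h | h
      · exact ⟨[], by simp, Or.inl h⟩
      · obtain ⟨L, hL⟩ := exists_rootList hG E _ hPS (by
          intro h'
          obtain ⟨n, hn⟩ := (h'.and h).exists
          exact hn.2 hn.1)
        exact ⟨L, hL.1, Or.inr ⟨hL, h⟩⟩
    choose! Lf hLf using hlist
    set pairs : List ((ℕ → ℝ[X]) × ℕ) := 𝓥.product (List.range (E + 1)) with hpairs
    have hpm : ∀ x ∈ pairs, x.1 ∈ 𝓥 := fun x hx => (List.mem_product.1 (by
      rw [hpairs] at hx; exact hx)).1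
    set L := pairs.flatMap (fun x => if (∀ᶠ k in atTop, derivative^[x.2] (x.1 k) = 0) then []
      else Lf x) with hLdef
    have hLmem : ∀ η ∈ L, ∃ x ∈ pairs, (¬ ∀ᶠ k in atTop, derivative^[x.2] (x.1 k) = 0) ∧
        η ∈ Lf x := by
      intro η hη
      rw [hLdef, List.mem_flatMap] at hη
      obtain ⟨x, hx, hη⟩ := hη
      by_cases h : ∀ᶠ k in atTop, derivative^[x.2] (x.1 k) = 0
      · rw [if_pos h] at hη; simp at hη
      · rw [if_neg h] at hη; exact ⟨x, hx, h, hη⟩
    have hLG : ∀ η ∈ L, η ∈ G := by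
      intro η hη
      obtain ⟨x, hx, _, h⟩ := hLmem η hη
      exact (hLf x (hpm x hx)).1 η h
    have hpos : ∀ η ∈ L, (∀ᶠ k in atTop, z k < η k) ∨ (∀ᶠ k in atTop, η k < z k) := by
      intro η hη
      obtain ⟨x, hx, hx0, hηx⟩ := hLmem η hη
      obtain ⟨hRL, hne⟩ := ((hLf x (hpm x hx)).2.resolve_left hx0)
      have hz0 := hno x.1 (hpm x hx) x.2 hne
      rcases cell_dec hG.toHF hV hz (hLG η hη) with h | h
      · exfalso
        obtain ⟨k, h1, h2, h3⟩ := (h.and (hz0.and hRL.2)).exists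
        have h4 : (derivative^[x.2] (x.1 k)).eval (η k) = 0 := (h3 _).2 ⟨η, hηx, rfl⟩
        have h5 := h1 x.1 (hpm x hx) x.2
        rw [h4, sign_zero] at h5
        exact h2 (sign_eq_zero_iff.1 h5.symm)
      · rcases h.cases with h1 | h1 | h1
        · left; filter_upwards [h1] with k hk; linarith
        · exfalso
          obtain ⟨k, h2, h3, h4⟩ := (h1.and (hz0.and hRL.2)).exists
          exact h3 ((h4 _).2 ⟨η, hηx, by linarith⟩)
        · right; filter_upwards [h1] with k hk; linarith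
    obtain ⟨w, hw, w', hw', hww, hpos'⟩ := exists_test2 hG.toHF L hLG z hpos
    have hposA : ∀ᶠ k in atTop, ∀ η ∈ L, (z k < η k ∧ w k < η k ∧ w' k < η k) ∨
        (η k < z k ∧ η k < w k ∧ η k < w' k) := by
      refine eventually_forall_list fun η hη => ?_
      rcases hpos' η hη with h | h
      · filter_upwards [h] with n hn; exact Or.inl hn
      · filter_upwards [h] with n hn; exact Or.inr hn
    have hrl : ∀ᶠ k in atTop, ∀ x ∈ pairs, derivative^[x.2] (x.1 k) = 0 ∨
        ∀ t, (derivative^[x.2] (x.1 k)).eval t = 0 → ∃ η ∈ L, η k = t := by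
      refine eventually_forall_list fun x hx => ?_
      rcases (hLf x (hpm x hx)).2 with h | ⟨h, h'⟩
      · filter_upwards [h] with k hk; exact Or.inl hk
      · filter_upwards [h.2] with k hk
        right
        intro t ht
        obtain ⟨η, hη, hηt⟩ := (hk t).1 ht
        refine ⟨η, ?_, hηt⟩
        rw [hLdef, List.mem_flatMap]
        refine ⟨x, hx, ?_⟩
        rw [if_neg]
        · exact hη
        · intro hcon
          obtain ⟨k, h1, h2⟩ := (hcon.and h').exists
          exact h2 h1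
    have hbig : ∀ᶠ k in atTop, ∀ V ∈ 𝓥, ∀ j > E, derivative^[j] (V k) = 0 := by
      refine eventually_forall_list fun V hVm => ?_
      filter_upwards [(hV V hVm).deg] with k hk j hj
      exact iterate_derivative_eq_zero (hk.trans_lt hj)
    refine ⟨w, hw, w', hw', ?_⟩
    filter_upwards [hposA, hrl, hbig, hww] with k h1 h2 h3 h4
    have hcell : ∀ v : ℝ, (∀ η ∈ L, (z k < η k ∧ v < η k) ∨ (η k < z k ∧ η k < v)) →
        v ∈ cellAt 𝓥 k (z k) := by
      intro v hv V hVm j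
      by_cases hj : j < E + 1
      · have hx : (V, j) ∈ pairs := List.mem_product.2 ⟨hVm, List.mem_range.2 hj⟩
        rcases h2 (V, j) hx with h5 | h5
        · simp only at h5
          rw [h5]; simp
        · refine sign_eq_of_no_root _ _ _ fun s hs hs0 => ?_
          obtain ⟨η, hη, rfl⟩ := h5 s hs0
          rw [Set.mem_uIcc] at hs
          rcases hv η hη with h6 | h6 <;> rcases hs with h7 | h7 <;>
            linarith [h6.1, h6.2, h7.1, h7.2]
      · rw [h3 V hVm j (by omega)]; simp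
    refine ⟨hcell _ fun η hη => ?_, hcell _ fun η hη => ?_, h4⟩
    · rcases h1 η hη with h | h
      · exact Or.inl ⟨h.1, h.2.1⟩
      · exact Or.inr ⟨h.1, h.2.1⟩
    · rcases h1 η hη with h | h
      · exact Or.inl ⟨h.1, h.2.2⟩
      · exact Or.inr ⟨h.1, h.2.2⟩

/-- **fibre systems which are monotone on cells** -/
theorem sys_of_cells (hq : 0 < q) (hS : Per q S) (hN : PS S D N) (hM : PS S D M) {E : ℕ}
    {𝓥 : List (ℕ → ℝ[X])} (hV : ∀ V ∈ 𝓥, PS S E V)
    (hrec : ∀ᶠ n in atTop, y (n + 1) = gg N M n (y n))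
    (hsg : ∀ V ∈ 𝓥, ∀ j, ∀ᶠ n in atTop,
      SignType.sign ((derivative^[j] (V (n + q))).eval (y (n + q))) =
        SignType.sign ((derivative^[j] (V n)).eval (y n)))
    (hmono : ∀ᶠ n in atTop, ∃ σ, HasType (cellAt 𝓥 n (y n)) σ (gg N M n)) :
    ∃ I σ, Sys q S D N M I σ y := by
  classical
  -- restriction to a progression
  have hcls : ∀ m, 0 < m → q ∣ m → ∀ a, ∀ V ∈ 𝓥.map (fun V k => V (a + m * k)), ∀ j,
      ∃ s, ∀ᶠ k in atTop, SignType.sign ((derivative^[j] (V k)).eval (y (a + m * k))) = s := by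
    intro m hm hqm a V hVm j
    obtain ⟨V', hV', rfl⟩ := List.mem_map.1 hVm
    exact const_cls (σ := fun n => SignType.sign ((derivative^[j] (V' n)).eval (y n))) hm hqm
      (hsg V' hV' j) a
  have hclsPS : ∀ m, 0 < m → ∀ a (G : Subalgebra ℝ (ℕ → ℝ)), cls m a S ≤ G →
      ∀ V ∈ 𝓥.map (fun V k => V (a + m * k)), PS G E V := by
    intro m hm a G hle V hVm
    obtain ⟨V', hV', rfl⟩ := List.mem_map.1 hVm
    exact ((hV V' hV').cls hS hm a 0).mono_alg hle
  have hcell : ∀ m a k z, cellAt (𝓥.map (fun V k => V (a + m * k))) k z =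
      cellAt 𝓥 (a + m * k) z := by
    intro m a k z
    ext t
    simp only [cellAt, Set.mem_ofPred_eq, List.forall_mem_map]
  have huniq : ∀ {n : ℕ} {σ τ : SignType} {w w' : ℝ}, w ∈ cellAt 𝓥 n (y n) →
      w' ∈ cellAt 𝓥 n (y n) → w < w' → HasType (cellAt 𝓥 n (y n)) σ (gg N M n) →
      HasType (cellAt 𝓥 n (y n)) τ (gg N M n) → σ = τ := by
    intro n σ τ w w' hw hw' hlt h1 h2
    have h3 := h1 w hw w' hw'
    have h4 := h2 w hw w' hw'
    rw [sign_pos (sub_pos.2 hlt), mul_one] at h3 h4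
    rw [← h3, h4]
  let σ : ℕ → SignType := fun n =>
    if h : (∃ t ∈ cellAt 𝓥 n (y n), t ≠ y n) ∧ ∃ σ, HasType (cellAt 𝓥 n (y n)) σ (gg N M n)
      then h.2.choose else 1
  have hσ : ∀ n, (∃ σ, HasType (cellAt 𝓥 n (y n)) σ (gg N M n)) →
      HasType (cellAt 𝓥 n (y n)) (σ n) (gg N M n) := by
    intro n hn
    by_cases h : ∃ t ∈ cellAt 𝓥 n (y n), t ≠ y n
    · have h1 : σ n = (⟨h, hn⟩ : (∃ t ∈ cellAt 𝓥 n (y n), t ≠ y n) ∧
          ∃ σ, HasType (cellAt 𝓥 n (y n)) σ (gg N M n)).2.choose := dif_pos ⟨h, hn⟩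
      rw [h1]
      exact hn.choose_spec
    · push Not at h
      intro t ht t' ht'
      rw [h t ht, h t' ht', sub_self, sub_self, sign_zero, mul_zero]
  refine ⟨fun n => cellAt 𝓥 n (y n), σ, ⟨hq, hS, hN, hM, hrec,
    Eventually.of_forall fun n => self_mem_cellAt 𝓥 n (y n), ?_, ?_, ?_⟩⟩
  · filter_upwards [hmono] with n hn
    exact hσ n hn
  · refine per_of_classes (σ := σ) hq fun a _ => ?_
    obtain ⟨G, hFG, hG⟩ := exists_maxHF _ (cls_hf hS hq dvd_rfl a)
    rcases cell_cases hG (hclsPS q hq a G hFG) (hcls q hq dvd_rfl a) with h | h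
    · refine ⟨1, ?_⟩
      filter_upwards [h] with k hk
      rw [hcell] at hk
      have : ¬ ((∃ t ∈ cellAt 𝓥 (a + q * k) (y (a + q * k)), t ≠ y (a + q * k)) ∧
          ∃ σ, HasType (cellAt 𝓥 (a + q * k) (y (a + q * k))) σ (gg N M (a + q * k))) := by
        rintro ⟨⟨t, ht, hne⟩, _⟩
        exact hne (hk t ht)
      exact dif_neg this
    · obtain ⟨w, hw, w', hw', hww⟩ := h
      have hN' : PS G D (fun k => N (a + q * k)) := (hN.cls hS hq a 0).mono_alg hFG
      have hM' : PS G D (fun k => M (a + q * k)) := (hM.cls hS hq a 0).mono_alg hFG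
      obtain ⟨s, hs⟩ := hG.tame _ (hG.sub (gg_mem hG.inv hG.ev hN' hM' hw')
        (gg_mem hG.inv hG.ev hN' hM' hw))
      refine ⟨s, ?_⟩
      filter_upwards [hww, hs, ev_cls hq a hmono] with k h1 h2 h3
      rw [hcell] at h1
      have h4 := hσ _ h3 (w k) h1.1 (w' k) h1.2.1
      rw [sign_pos (sub_pos.2 h1.2.2), mul_one] at h4
      rw [← h4]
      exact h2
  · intro a G hG hle ξ hξ
    have hm : 0 < 2 * q := by omega
    have hqm : q ∣ 2 * q := ⟨2, by omega⟩
    rcases cell_dec hG.toHF (hclsPS (2 * q) hm a G hle) (hcls (2 * q) hm hqm a) hξ with h | h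
    · left
      filter_upwards [h] with k hk
      rw [hcell] at hk
      exact hk
    · right; left; exact h

end Pool.Agent.Lib.MP_f4ff90_ag
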