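import Pool.Agent.Lib.MP_f4ff90_ag.KStep

/-!
# MP_f4ff90_ag : fibre systems with periodic itinerary
-/

set_option autoImplicit false

open Filter Polynomial

namespace Pool.Agent.Lib.MP_f4ff90_ag

/-- numerator of the derivative of `N / M` -/
noncomputable def wr (N M : ℝ[X]) : ℝ[X] :=
  Polynomial.derivative N * M - N * Polynomial.derivative M

/-- polynomial whose roots are the critical points and the poles of `N / M` -/
noncomputable def crit (N M : ℝ[X]) : ℝ[X] :=
  (Polynomial.derivative N * M - N * Polynomial.derivative M) * M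

lemma crit_eq (N M : ℝ[X]) : crit N M = wr N M * M := rfl

lemma PS.wr {F : Subalgebra ℝ (ℕ → ℝ)} {D : ℕ} {N M : ℕ → ℝ[X]} (hN : PS F D N)
    (hM : PS F D M) : PS F (2 * D) (fun n => Pool.Agent.Lib.MP_f4ff90_ag.wr (N n) (M n)) := by
  have := (hN.derivative.mul hM).sub (hN.mul hM.derivative)
  exact this.mono (by simp only [max_le_iff]; omega)

lemma PS.crit {F : Subalgebra ℝ (ℕ → ℝ)} {D : ℕ} {N M : ℕ → ℝ[X]} (hN : PS F D N)
    (hM : PS F D M) : PS F (3 * D) (fun n => Pool.Agent.Lib.MP_f4ff90_ag.crit (N n) (M n)) := by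
  have := (hN.wr hM).mul hM
  exact this.mono (by omega)

/-- the set of all points which are not separated from `z` by a root of `W` -/
def lap (W : ℝ[X]) (z : ℝ) : Set ℝ := {t | ∀ s ∈ Set.uIcc t z, W.eval s ≠ 0}

lemma lap_conn {W : ℝ[X]} {z t t' s : ℝ} (ht : t ∈ lap W z) (ht' : t' ∈ lap W z)
    (h1 : t ≤ s) (h2 : s ≤ t') : s ∈ lap W z := by
  intro r hr
  rw [Set.mem_uIcc] at hr
  rcases le_total r z with h | h
  · refine ht r ?_
    rw [Set.mem_uIcc]
    rcases hr with hr | hr
    · left; exact ⟨h1.trans hr.1, h⟩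
    · have : r = z := le_antisymm h hr.1
      rcases le_total t z with h3 | h3
      · left; exact ⟨by rw [this]; exact h3, h⟩
      · right; exact ⟨hr.1, by rw [this]; exact h3⟩
  · refine ht' r ?_
    rw [Set.mem_uIcc]
    rcases hr with hr | hr
    · have : r = z := le_antisymm hr.2 h
      rcases le_total t' z with h3 | h3
      · left; exact ⟨by rw [this]; exact h3, hr.2⟩
      · right; exact ⟨h, by rw [this]; exact h3⟩
    · right; exact ⟨hr.1, hr.2.trans h2⟩

lemma lap_spec {N M : ℝ[X]} {z s : ℝ} (hs : s ∈ lap (crit N M) z) :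
    M.eval s ≠ 0 ∧ SignType.sign ((wr N M).eval s) = SignType.sign ((wr N M).eval z) := by
  have h1 : ∀ r ∈ Set.uIcc s z, (wr N M).eval r ≠ 0 ∧ M.eval r ≠ 0 := by
    intro r hr
    have := hs r hr
    rw [crit_eq, eval_mul] at this
    exact ⟨left_ne_zero_of_mul this, right_ne_zero_of_mul this⟩
  exact ⟨(h1 s Set.left_mem_uIcc).2, sign_eq_of_no_root _ _ _ fun r hr => (h1 r hr).1⟩

lemma lap_hasType (N M : ℝ[X]) (z : ℝ) :
    HasType (lap (crit N M) z) (SignType.sign ((wr N M).eval z))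
      (fun t => N.eval t / M.eval t) := by
  -- the case `t < t'`
  have key : ∀ t ∈ lap (crit N M) z, ∀ t' ∈ lap (crit N M) z, t < t' →
      SignType.sign (N.eval t' / M.eval t' - N.eval t / M.eval t) =
        SignType.sign ((wr N M).eval z) := by
    intro t ht t' ht' htt
    have hsp : ∀ s, t ≤ s → s ≤ t' → M.eval s ≠ 0 ∧
        SignType.sign ((wr N M).eval s) = SignType.sign ((wr N M).eval z) :=
      fun s h1 h2 => lap_spec (lap_conn ht ht' h1 h2)
    have hder : ∀ s, t ≤ s → s ≤ t' → HasDerivAt (fun t => N.eval t / M.eval t)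
        ((wr N M).eval s / (M.eval s) ^ 2) s := by
      intro s h1 h2
      have := (N.hasDerivAt s).div (M.hasDerivAt s) (hsp s h1 h2).1
      rw [wr, eval_sub, eval_mul, eval_mul]
      exact this
    obtain ⟨c, hc, hc'⟩ := exists_hasDerivAt_eq_slope (fun t => N.eval t / M.eval t)
      (fun s => (wr N M).eval s / (M.eval s) ^ 2) htt
      (fun s hs => (hder s hs.1 hs.2).continuousAt.continuousWithinAt)
      (fun s hs => hder s hs.1.le hs.2.le)
    have h3 := hsp c hc.1.le hc.2.le
    have h4 : N.eval t' / M.eval t' - N.eval t / M.eval t =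
        (wr N M).eval c * ((t' - t) / (M.eval c) ^ 2) := by
      have h5 : t' - t ≠ 0 := (sub_pos.2 htt).ne'
      rw [eq_div_iff h5] at hc'
      rw [← hc']
      ring
    have h6 : 0 < (t' - t) / (M.eval c) ^ 2 := by
      have := sub_pos.2 htt
      have := h3.1
      positivity
    rw [h4, sign_mul, sign_pos h6, mul_one, h3.2]
  intro t ht t' ht'
  rcases lt_trichotomy t t' with h | h | h
  · rw [sign_pos (sub_pos.2 h), mul_one]
    exact key t ht t' ht' h
  · rw [h, sub_self, sub_self, sign_zero, mul_zero]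
  · rw [sign_neg (sub_neg.2 h)]
    have := key t' ht' t ht h
    rw [← this, ← neg_sub, Left.sign_neg]
    generalize SignType.sign (eval t N / eval t M - eval t' N / eval t' M) = s
    revert s; decide

/-- constancy of `N / M` if the critical polynomial vanishes -/
lemma eq_of_crit_eq_zero {N M : ℝ[X]} (h : crit N M = 0) {z p : ℝ} (hz : M.eval z ≠ 0)
    (hp : M.eval p ≠ 0) : N.eval z / M.eval z = N.eval p / M.eval p := by
  have hM : M ≠ 0 := by rintro rfl; simp at hz
  have h0 : wr N M = 0 := by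
    rw [crit_eq] at h
    exact (mul_eq_zero.1 h).resolve_right hM
  set c := N.eval z / M.eval z with hc
  -- `R = N - c M` satisfies `R' M = R M'` and `R(z) = 0`
  set R := N - Polynomial.C c * M with hR
  have hRz : R.eval z = 0 := by
    rw [hR, eval_sub, eval_mul, eval_C, hc]
    field_simp
    ring
  have hR' : Polynomial.derivative R * M = R * Polynomial.derivative M := by
    have h1 : Polynomial.derivative N * M = N * Polynomial.derivative M := sub_eq_zero.1 h0
    rw [hR, derivative_sub, derivative_C_mul, sub_mul, sub_mul, h1]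
    ring
  have hR0 : R = 0 := by
    by_contra hne
    obtain ⟨Q, hQ, hQ'⟩ := exists_eq_pow_rootMultiplicity_mul_and_not_dvd R hne z
    set k := rootMultiplicity z R with hk
    have hk1 : 0 < k := (rootMultiplicity_pos hne).2 hRz
    have hQz : Q.eval z ≠ 0 := by
      intro h2
      exact hQ' (dvd_iff_isRoot.2 h2)
    obtain ⟨l, hl⟩ : ∃ l, k = l + 1 := ⟨k - 1, by omega⟩
    rw [hQ, hl, derivative_mul, derivative_X_sub_C_pow] at hR'
    have h2 : (Polynomial.X - Polynomial.C z) ^ l *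
        (((l : ℝ[X]) + 1) * Q * M + (Polynomial.X - Polynomial.C z) *
          Polynomial.derivative Q * M) =
        (Polynomial.X - Polynomial.C z) ^ l *
          ((Polynomial.X - Polynomial.C z) * Q * Polynomial.derivative M) := by
      rw [pow_succ] at hR'
      simp only [Nat.add_sub_cancel] at hR'
      push_cast at hR'
      have hC : (Polynomial.C ((l : ℝ) + 1) : ℝ[X]) = (l : ℝ[X]) + 1 := by simp
      rw [hC] at hR'
      linear_combination hR'
    have h3 := mul_left_cancel₀ (pow_ne_zero l (X_sub_C_ne_zero z)) h2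
    have h4 := congrArg (Polynomial.eval z) h3
    simp only [eval_add, eval_mul, eval_sub, eval_X, eval_C, sub_self, zero_mul, add_zero,
      eval_natCast, eval_one] at h4
    have h5 : ((l : ℝ) + 1) ≠ 0 := by positivity
    exact (mul_ne_zero (mul_ne_zero h5 hQz) hz) h4
  have h6 : N.eval p = c * M.eval p := by
    have := congrArg (Polynomial.eval p) hR0
    rw [hR, eval_sub, eval_mul, eval_C, eval_zero] at this
    linarith
  rw [h6]
  field_simp

/-- a nonzero polynomial sequence is eventually nonzero at some natural number -/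
lemma exists_nonroot {F : Subalgebra ℝ (ℕ → ℝ)} (hF : HF F) {D : ℕ} {M : ℕ → ℝ[X]}
    (hM : PS F D M) (h0 : ∀ᶠ n in atTop, M n ≠ 0) :
    ∃ p : ℝ, ∀ᶠ n in atTop, (M n).eval p ≠ 0 := by
  by_contra hcon
  push Not at hcon
  have h1 : ∀ p : ℝ, ∀ᶠ n in atTop, (M n).eval p = 0 := by
    intro p
    rcases (hF.tame _ (hF.eval_mem hM (hF.const p))).zero with h | h
    · exact h
    · exact absurd h (by
        have := hcon p
        rw [Filter.Frequently] at this
        exact this)
  have h2 : ∀ᶠ n in atTop, ∀ p ∈ List.range (D + 1), (M n).eval ((p : ℕ) : ℝ) = 0 :=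
    eventually_forall_list fun p _ => h1 p
  obtain ⟨n, h3, h4, h5⟩ := (h2.and (hM.deg.and h0)).exists
  refine h5 (eq_zero_of_natDegree_lt_card_of_eval_eq_zero' (M n)
    ((Finset.range (D + 1)).image (fun k : ℕ => (k : ℝ))) ?_ ?_)
  · intro p hp
    obtain ⟨k, hk, rfl⟩ := Finset.mem_image.1 hp
    exact h3 k (List.mem_range.2 (Finset.mem_range.1 hk))
  · rw [Finset.card_image_of_injective _ Nat.cast_injective, Finset.card_range]
    omega

lemma rk_mono (p : ℝ[X]) {s t : ℝ} (h : s ≤ t) : rk p s ≤ rk p t := by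
  unfold rk
  refine Finset.card_le_card fun x hx => ?_
  rw [Finset.mem_filter] at hx ⊢
  exact ⟨hx.1, hx.2.trans_le h⟩

/-- a sequence of roots of constant rank belongs to the field -/
lemma mem_of_rank {G : Subalgebra ℝ (ℕ → ℝ)} (hG : MaxHF G) {D : ℕ} {W : ℕ → ℝ[X]}
    (hW : PS G D W) (h0 : ∀ᶠ n in atTop, W n ≠ 0) {z : ℕ → ℝ} {r : ℕ}
    (hz : ∀ᶠ n in atTop, (W n).eval (z n) = 0) (hr : ∀ᶠ n in atTop, rk (W n) (z n) = r) :
    z ∈ G := by
  obtain ⟨L, hL⟩ := exists_rootList hG D _ hW (by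
    intro h
    obtain ⟨n, hn⟩ := (h.and h0).exists
    exact hn.2 hn.1)
  have hdec : ∀ η ∈ L, Dcd (fun n => rk (W n) (η n) = r) := by
    intro η hη
    obtain ⟨r', h⟩ := rk_ev_const hG.toHF hL h0 (hL.1 η hη)
    by_cases hrr : r' = r
    · left; filter_upwards [h] with n hn; rw [hn, hrr]
    · right; filter_upwards [h] with n hn; rw [hn]; exact hrr
  have hiff : ∀ᶠ n in atTop, ∀ η ∈ L, (rk (W n) (η n) = r ↔
      ∀ᶠ k in atTop, rk (W k) (η k) = r) :=
    eventually_forall_list fun η hη => Dcd.iff (hdec η hη)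
  obtain ⟨n, hn1, hn2, hn3, hn4⟩ := (hiff.and (hL.2.and (hz.and hr))).exists
  obtain ⟨η, hη, hηn⟩ := (hn2 _).1 hn3
  have hηr : ∀ᶠ k in atTop, rk (W k) (η k) = r := (hn1 η hη).1 (by rw [hηn]; exact hn4)
  refine hG.ev η (hL.1 η hη) _ ?_
  filter_upwards [hηr, hr, h0, hL.2, hz] with k h1 h2 h3 h4 h5
  exact rk_inj h3 h5 ((h4 _).2 ⟨η, hη, rfl⟩) (by rw [h1, h2])

/-- position relative to the roots, if the rank is constant -/
lemma pos_of_rank {G : Subalgebra ℝ (ℕ → ℝ)} (hG : HF G) {W : ℕ → ℝ[X]}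
    (h0 : ∀ᶠ n in atTop, W n ≠ 0) {L : List (ℕ → ℝ)} (hL : RootList G W L) {z : ℕ → ℝ} {r : ℕ}
    (hz : ∀ᶠ n in atTop, (W n).eval (z n) ≠ 0) (hr : ∀ᶠ n in atTop, rk (W n) (z n) = r) :
    ∀ η ∈ L, (∀ᶠ n in atTop, z n < η n) ∨ (∀ᶠ n in atTop, η n < z n) := by
  intro η hη
  obtain ⟨ρ, hρ⟩ := rk_ev_const hG hL h0 (hL.1 η hη)
  rcases lt_or_ge ρ r with h | h
  · right
    filter_upwards [hρ, hr, hz, hL.2] with n h1 h2 h3 h4
    rcases lt_trichotomy (η n) (z n) with h5 | h5 | h5
    · exact h5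
    · exact absurd ((h4 (z n)).2 ⟨η, hη, h5⟩) h3
    · have := rk_mono (W n) h5.le
      omega
  · left
    filter_upwards [hρ, hr, hz, hL.2, h0] with n h1 h2 h3 h4 h6
    rcases lt_trichotomy (η n) (z n) with h5 | h5 | h5
    · have := rk_lt h6 ((h4 (η n)).2 ⟨η, hη, rfl⟩) h5
      omega
    · exact absurd ((h4 (z n)).2 ⟨η, hη, h5⟩) h3
    · exact h5

end Pool.Agent.Lib.MP_f4ff90_ag
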