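import Pool.Agent.Lib.MP_f4ff90_ag.KItin

/-!
# MP_f4ff90_ag : fibre systems with periodic itinerary, the system
-/

set_option autoImplicit false

open Filter Polynomial

namespace Pool.Agent.Lib.MP_f4ff90_ag

/-- an eventually `q`-periodic sequence is constant on progressions -/
lemma const_cls {α : Type*} {σ : ℕ → α} {q m : ℕ} (hm : 0 < m) (hqm : q ∣ m)
    (h : ∀ᶠ n in atTop, σ (n + q) = σ n) (a : ℕ) : ∃ s, ∀ᶠ k in atTop, σ (a + m * k) = s := by
  obtain ⟨l, rfl⟩ := hqm
  have h1 : ∀ j, ∀ᶠ n in atTop, σ (n + j * q) = σ n := by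
    intro j
    induction j with
    | zero => simp
    | succ j ih =>
      filter_upwards [ih, ev_shift h (j * q)] with n h1 h2
      rw [← h1, ← h2]
      congr 1; ring
  have h2 := ev_cls hm a (h1 l)
  obtain ⟨K, hK⟩ := eventually_atTop.1 h2
  refine ⟨σ (a + q * l * K), ?_⟩
  rw [eventually_atTop]
  refine ⟨K, fun n hn => ?_⟩
  induction n, hn using Nat.le_induction with
  | base => rfl
  | succ n hn ih =>
    rw [← ih, ← hK n hn]
    congr 1; ring

lemma per_of_classes {α : Type*} {σ : ℕ → α} {q : ℕ} (hq : 0 < q)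
    (h : ∀ a < q, ∃ s, ∀ᶠ k in atTop, σ (a + q * k) = s) : ∀ᶠ n in atTop, σ (n + q) = σ n := by
  refine ev_of_classes hq fun a ha => ?_
  obtain ⟨s, hs⟩ := h a ha
  filter_upwards [hs, ev_shift hs 1] with k h1 h2
  rw [h1, ← h2]
  congr 1; ring

variable {q : ℕ} {S : Subalgebra ℝ (ℕ → ℝ)} {D : ℕ} {N M : ℕ → ℝ[X]} {y : ℕ → ℝ}

/-- in a lap of constant rank, positions are decided -/
lemma lap_dec {G : Subalgebra ℝ (ℕ → ℝ)} (hG : MaxHF G) {W : ℕ → ℝ[X]} (hW : PS G D W)
    (h0 : ∀ᶠ n in atTop, W n ≠ 0) {z : ℕ → ℝ} {r : ℕ}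
    (hz : ∀ᶠ n in atTop, (W n).eval (z n) ≠ 0) (hr : ∀ᶠ n in atTop, rk (W n) (z n) = r)
    {ξ : ℕ → ℝ} (hξ : ξ ∈ G) :
    (∀ᶠ n in atTop, ξ n ∈ lap (W n) (z n)) ∨ Tame (fun n => z n - ξ n) := by
  obtain ⟨L, hL⟩ := exists_rootList hG D _ hW (by
    intro h
    obtain ⟨n, hn⟩ := (h.and h0).exists
    exact hn.2 hn.1)
  have hpos := pos_of_rank hG.toHF h0 hL hz hr
  by_cases hcase : ∀ η ∈ L, (∀ᶠ n in atTop, z n < η n ∧ ξ n < η n) ∨
      (∀ᶠ n in atTop, η n < z n ∧ η n < ξ n)
  · left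
    have h2 : ∀ᶠ n in atTop, ∀ η ∈ L, (z n < η n ∧ ξ n < η n) ∨ (η n < z n ∧ η n < ξ n) := by
      refine eventually_forall_list fun η hη => ?_
      rcases hcase η hη with h | h
      · filter_upwards [h] with n hn; exact Or.inl hn
      · filter_upwards [h] with n hn; exact Or.inr hn
    filter_upwards [h2, hL.2] with n h3 h4 s hs hs0
    obtain ⟨η, hη, rfl⟩ := (h4 s).1 hs0
    rw [Set.mem_uIcc] at hs
    rcases h3 η hη with h5 | h5 <;> rcases hs with h6 | h6 <;> linarith [h5.1, h5.2, h6.1, h6.2]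
  · right
    simp only [not_forall, not_or] at hcase
    obtain ⟨η, hη, h1, h2⟩ := hcase
    have hηG := hL.1 η hη
    rcases hpos η hη with h3 | h3
    · -- `z < η`
      rcases hG.lt hξ hηG with h4 | h4
      · exact absurd (h3.and h4) h1
      · refine Tame.of_neg ?_
        filter_upwards [h3, h4] with n h5 h6
        linarith [not_lt.1 h6]
    · rcases hG.lt hηG hξ with h4 | h4
      · exact absurd (h3.and h4) h2
      · refine Tame.of_pos ?_
        filter_upwards [h3, h4] with n h5 h6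
        linarith [not_lt.1 h6]

/-- in a lap of constant rank, there is a test point -/
lemma lap_test {G : Subalgebra ℝ (ℕ → ℝ)} (hG : MaxHF G) {W : ℕ → ℝ[X]} (hW : PS G D W)
    (h0 : ∀ᶠ n in atTop, W n ≠ 0) {z : ℕ → ℝ} {r : ℕ}
    (hz : ∀ᶠ n in atTop, (W n).eval (z n) ≠ 0) (hr : ∀ᶠ n in atTop, rk (W n) (z n) = r) :
    ∃ w ∈ G, ∀ᶠ n in atTop, w n ∈ lap (W n) (z n) := by
  obtain ⟨L, hL⟩ := exists_rootList hG D _ hW (by
    intro h
    obtain ⟨n, hn⟩ := (h.and h0).exists
    exact hn.2 hn.1)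
  have hpos := pos_of_rank hG.toHF h0 hL hz hr
  obtain ⟨w, hw, hw'⟩ := exists_test hG.toHF L hL.1 z hpos
  refine ⟨w, hw, ?_⟩
  have h2 : ∀ᶠ n in atTop, ∀ η ∈ L, (z n < η n ∧ w n < η n) ∨ (η n < z n ∧ η n < w n) := by
    refine eventually_forall_list fun η hη => ?_
    rcases hw' η hη with h | h
    · filter_upwards [h] with n hn; exact Or.inl hn
    · filter_upwards [h] with n hn; exact Or.inr hn
  filter_upwards [h2, hL.2] with n h3 h4 s hs hs0
  obtain ⟨η, hη, rfl⟩ := (h4 s).1 hs0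
  rw [Set.mem_uIcc] at hs
  rcases h3 η hη with h5 | h5 <;> rcases hs with h6 | h6 <;> linarith [h5.1, h5.2, h6.1, h6.2]

/-- **fibre systems with periodic itinerary** -/
theorem sys_of_itinerary (hq : 0 < q) (hS : Per q S) (hN : PS S D N) (hM : PS S D M)
    (hrec : ∀ᶠ n in atTop, y (n + 1) = gg N M n (y n))
    (hden : ∀ᶠ n in atTop, (M n).eval (y n) ≠ 0)
    (hrk : ∀ᶠ n in atTop, rk (crit (N (n + q)) (M (n + q))) (y (n + q)) =
      rk (crit (N n) (M n)) (y n))
    (hroot : ∀ᶠ n in atTop, (y (n + q) ∈ (crit (N (n + q)) (M (n + q))).roots ↔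
      y n ∈ (crit (N n) (M n)).roots)) :
    ∃ I σ, Sys q S D N M I σ y := by
  classical
  have hrt : ∀ n, crit (N n) (M n) ≠ 0 →
      (y n ∈ (crit (N n) (M n)).roots ↔ (crit (N n) (M n)).eval (y n) = 0) := fun n hn => by
    rw [mem_roots hn]; rfl
  -- the three cases on a progression
  have hcases : ∀ m, 0 < m → q ∣ m → ∀ a,
      (∀ᶠ k in atTop, crit (N (a + m * k)) (M (a + m * k)) = 0) ∨
      ((∀ᶠ k in atTop, crit (N (a + m * k)) (M (a + m * k)) ≠ 0) ∧
        ((∀ᶠ k in atTop, (crit (N (a + m * k)) (M (a + m * k))).eval (y (a + m * k)) = 0) ∨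
        (∀ᶠ k in atTop, (crit (N (a + m * k)) (M (a + m * k))).eval (y (a + m * k)) ≠ 0))) := by
    intro m hm hqm a
    have hW : PS (cls m a S) (3 * D) (fun k => crit (N (a + m * k)) (M (a + m * k))) :=
      (hN.crit hM).cls hS hm a 0
    rcases hW.dcd_zero (cls_hf hS hm hqm a) with h | h
    · left; exact h
    · right
      refine ⟨h, ?_⟩
      obtain ⟨s, hs⟩ := const_cls (σ := fun n => y n ∈ (crit (N n) (M n)).roots) hm hqm
        (by filter_upwards [hroot] with n hn; exact propext hn) a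
      by_cases hsT : s
      · left
        filter_upwards [h, hs] with k h1 h2
        rw [← hrt _ h1, h2]
        exact hsT
      · right
        filter_upwards [h, hs] with k h1 h2
        rw [ne_eq, ← hrt _ h1, h2]
        exact hsT
  have hrank : ∀ m, 0 < m → q ∣ m → ∀ a, ∃ r, ∀ᶠ k in atTop,
      rk (crit (N (a + m * k)) (M (a + m * k))) (y (a + m * k)) = r := fun m hm hqm a =>
    const_cls (σ := fun n => rk (crit (N n) (M n)) (y n)) hm hqm hrk a
  refine ⟨fun n => if crit (N n) (M n) = 0 ∨ (crit (N n) (M n)).eval (y n) = 0 then {y n}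
      else lap (crit (N n) (M n)) (y n),
    fun n => if crit (N n) (M n) = 0 ∨ (crit (N n) (M n)).eval (y n) = 0 then 1
      else SignType.sign ((wr (N n) (M n)).eval (y n)), ⟨hq, hS, hN, hM, hrec, ?_, ?_, ?_, ?_⟩⟩
  · -- `mem`
    refine Eventually.of_forall fun n => ?_
    by_cases h : crit (N n) (M n) = 0 ∨ (crit (N n) (M n)).eval (y n) = 0
    · rw [if_pos h]; rfl
    · rw [if_neg h]
      push Not at h
      intro s hs
      rw [Set.uIcc_self, Set.mem_singleton_iff] at hs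
      rw [hs]; exact h.2
  · -- `typ`
    refine Eventually.of_forall fun n => ?_
    by_cases h : crit (N n) (M n) = 0 ∨ (crit (N n) (M n)).eval (y n) = 0
    · rw [if_pos h, if_pos h]
      intro t ht t' ht'
      rw [Set.mem_singleton_iff] at ht ht'
      rw [ht, ht', sub_self, sub_self, sign_zero, mul_zero]
    · rw [if_neg h, if_neg h]
      exact lap_hasType (N n) (M n) (y n)
  · -- `sper`
    refine per_of_classes (σ := fun n =>
      if crit (N n) (M n) = 0 ∨ (crit (N n) (M n)).eval (y n) = 0 then (1 : SignType)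
      else SignType.sign ((wr (N n) (M n)).eval (y n))) hq fun a _ => ?_
    rcases hcases q hq dvd_rfl a with h | ⟨h, h' | h'⟩
    · refine ⟨1, ?_⟩
      filter_upwards [h] with k hk
      rw [if_pos (Or.inl hk)]
    · refine ⟨1, ?_⟩
      filter_upwards [h'] with k hk
      rw [if_pos (Or.inr hk)]
    · obtain ⟨G, hFG, hG⟩ := exists_maxHF _ (cls_hf hS hq dvd_rfl a)
      obtain ⟨r, hr⟩ := hrank q hq dvd_rfl a
      have hW : PS G (3 * D) (fun k => crit (N (a + q * k)) (M (a + q * k))) :=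
        ((hN.crit hM).cls hS hq a 0).mono_alg hFG
      have hU : PS G (2 * D) (fun k => wr (N (a + q * k)) (M (a + q * k))) :=
        ((hN.wr hM).cls hS hq a 0).mono_alg hFG
      obtain ⟨w, hw, hw'⟩ := lap_test hG hW h (z := fun k => y (a + q * k)) h' hr
      obtain ⟨s, hs⟩ := hG.tame _ (hG.eval_mem hU hw)
      refine ⟨s, ?_⟩
      filter_upwards [h, h', hw', hs] with k h1 h2 h3 h4
      rw [if_neg (not_or.2 ⟨h1, h2⟩), ← (lap_spec h3).2, h4]
  · -- `dec`
    intro a G hG hle ξ hξ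
    have hm : 0 < 2 * q := by omega
    have hqm : q ∣ 2 * q := ⟨2, by omega⟩
    have hW : PS G (3 * D) (fun k => crit (N (a + 2 * q * k)) (M (a + 2 * q * k))) :=
      ((hN.crit hM).cls hS hm a 0).mono_alg hle
    have hN' : PS G D (fun k => N (a + 2 * q * k)) := (hN.cls hS hm a 0).mono_alg hle
    have hM' : PS G D (fun k => M (a + 2 * q * k)) := (hM.cls hS hm a 0).mono_alg hle
    obtain ⟨r, hr⟩ := hrank (2 * q) hm hqm a
    rcases hcases (2 * q) hm hqm a with h | ⟨h, h' | h'⟩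
    · right; right
      have hM0 : ∀ᶠ k in atTop, M (a + 2 * q * k) ≠ 0 := by
        filter_upwards [ev_cls hm a hden] with k hk h0
        rw [h0, eval_zero] at hk
        exact hk rfl
      obtain ⟨p, hp⟩ := exists_nonroot hG.toHF hM' hM0
      refine hG.ev _ (gg_mem hG.inv hG.ev hN' hM' (hG.const p)) _ ?_
      filter_upwards [h, hp, ev_cls hm a hden, ev_cls hm a hrec] with k h1 h2 h3 h4
      rw [h4]
      exact eq_of_crit_eq_zero h1 h3 h2
    · right; left
      exact hG.tame _ (hG.sub (mem_of_rank hG hW h h' hr) hξ)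
    · rcases lap_dec hG hW h (z := fun k => y (a + 2 * q * k)) h' hr hξ with h1 | h1
      · left
        filter_upwards [h, h', h1] with k h2 h3 h4
        rw [if_neg (not_or.2 ⟨h2, h3⟩)]
        exact h4
      · right; left; exact h1

end Pool.Agent.Lib.MP_f4ff90_ag
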