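import Pool.Agent.Lib.MP_f4ff90_ag.HRank

/-!
# MP_f4ff90_ag : shift invariant algebras of sequences with periodic signs
-/

set_option autoImplicit false

open Filter Polynomial

namespace Pool.Agent.Lib.MP_f4ff90_ag

/-- an algebra of real sequences, closed under pointwise inverses, eventual equality and shift,
such that the signs of all its elements are eventually periodic with period `q` -/
structure Per (q : ℕ) (S : Subalgebra ℝ (ℕ → ℝ)) : Prop where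
  inv : ∀ u ∈ S, (fun n => (u n)⁻¹) ∈ S
  ev : ∀ u ∈ S, ∀ v : ℕ → ℝ, (∀ᶠ n in atTop, v n = u n) → v ∈ S
  shift : ∀ u ∈ S, (fun n => u (n + 1)) ∈ S
  sgn : ∀ u ∈ S, ∀ᶠ n in atTop, SignType.sign (u (n + q)) = SignType.sign (u n)

/-- restriction of the sequences in `S` to the arithmetic progression `a + m k` -/
def cls (m a : ℕ) (S : Subalgebra ℝ (ℕ → ℝ)) : Subalgebra ℝ (ℕ → ℝ) where
  carrier := {v | ∃ s ∈ S, ∀ᶠ k in atTop, v k = s (a + m * k)}
  mul_mem' := by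
    rintro u v ⟨s, hs, h⟩ ⟨t, ht, h'⟩
    exact ⟨s * t, S.mul_mem hs ht, by
      filter_upwards [h, h'] with k h1 h2
      rw [Pi.mul_apply, Pi.mul_apply, h1, h2]⟩
  add_mem' := by
    rintro u v ⟨s, hs, h⟩ ⟨t, ht, h'⟩
    exact ⟨s + t, S.add_mem hs ht, by
      filter_upwards [h, h'] with k h1 h2
      rw [Pi.add_apply, Pi.add_apply, h1, h2]⟩
  algebraMap_mem' r := ⟨algebraMap ℝ (ℕ → ℝ) r, S.algebraMap_mem r,
    Eventually.of_forall fun _ => rfl⟩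

lemma ev_shift {p : ℕ → Prop} (h : ∀ᶠ n in atTop, p n) (j : ℕ) :
    ∀ᶠ n in atTop, p (n + j) := (tendsto_add_atTop_nat j).eventually h

lemma tendsto_cls {m : ℕ} (hm : 0 < m) (a : ℕ) :
    Tendsto (fun k => a + m * k) atTop atTop := by
  refine tendsto_atTop_mono (f := fun k => k) (fun k => ?_) tendsto_id
  nlinarith [Nat.zero_le a]

lemma ev_cls {m : ℕ} (hm : 0 < m) (a : ℕ) {p : ℕ → Prop} (h : ∀ᶠ n in atTop, p n) :
    ∀ᶠ k in atTop, p (a + m * k) := (tendsto_cls hm a).eventually h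

lemma ev_of_classes {m : ℕ} (hm : 0 < m) {p : ℕ → Prop}
    (h : ∀ a < m, ∀ᶠ k in atTop, p (a + m * k)) : ∀ᶠ n in atTop, p n := by
  have h1 : ∀ᶠ k in atTop, ∀ a ∈ List.range m, p (a + m * k) :=
    eventually_forall_list fun a ha => h a (List.mem_range.1 ha)
  rw [eventually_atTop] at h1 ⊢
  obtain ⟨K, hK⟩ := h1
  refine ⟨m * K, fun n hn => ?_⟩
  have h2 := hK (n / m) ((Nat.le_div_iff_mul_le hm).2 (by rw [mul_comm]; exact hn)) (n % m)
    (List.mem_range.2 (Nat.mod_lt _ hm))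
  rwa [Nat.mod_add_div] at h2

lemma tame_of_step {u : ℕ → ℝ}
    (h : ∀ᶠ k in atTop, SignType.sign (u (k + 1)) = SignType.sign (u k)) : Tame u := by
  rw [eventually_atTop] at h
  obtain ⟨K, hK⟩ := h
  refine ⟨SignType.sign (u K), ?_⟩
  rw [eventually_atTop]
  refine ⟨K, fun n hn => ?_⟩
  induction n, hn using Nat.le_induction with
  | base => rfl
  | succ n hn ih => rw [hK n hn, ih]

lemma Tame.of_shift {u : ℕ → ℝ} (h : Tame (fun n => u (n + 1))) : Tame u := by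
  obtain ⟨s, hs⟩ := h
  refine ⟨s, ?_⟩
  rw [eventually_atTop] at hs ⊢
  obtain ⟨K, hK⟩ := hs
  refine ⟨K + 1, fun n hn => ?_⟩
  have := hK (n - 1) (by omega)
  simp only [Nat.sub_add_cancel (show 1 ≤ n by omega)] at this
  exact this

lemma Per.shift_add {q : ℕ} {S : Subalgebra ℝ (ℕ → ℝ)} (hS : Per q S) {u : ℕ → ℝ}
    (hu : u ∈ S) (j : ℕ) : (fun n => u (n + j)) ∈ S := by
  induction j with
  | zero => exact hu
  | succ j ih =>
    have := hS.shift _ ih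
    refine hS.ev _ this _ (Eventually.of_forall fun n => ?_)
    show u (n + (j + 1)) = u (n + 1 + j)
    congr 1; ring

lemma Per.div {q : ℕ} {S : Subalgebra ℝ (ℕ → ℝ)} (h : Per q S) {u v : ℕ → ℝ} (hu : u ∈ S)
    (hv : v ∈ S) : (fun n => u n / v n) ∈ S := by
  have := S.mul_mem hu (h.inv v hv)
  simp only [div_eq_mul_inv]
  exact this

lemma Per.sgn_mul {q : ℕ} {S : Subalgebra ℝ (ℕ → ℝ)} (hS : Per q S) {u : ℕ → ℝ}
    (hu : u ∈ S) (j : ℕ) :
    ∀ᶠ n in atTop, SignType.sign (u (n + j * q)) = SignType.sign (u n) := by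
  induction j with
  | zero => simp
  | succ j ih =>
    filter_upwards [ih, ev_shift (hS.sgn u hu) (j * q)] with n h1 h2
    rw [← h1, ← h2]
    congr 2; ring

lemma cls_hf {q : ℕ} {S : Subalgebra ℝ (ℕ → ℝ)} (hS : Per q S) {m : ℕ} (hm : 0 < m)
    (hqm : q ∣ m) (a : ℕ) : HF (cls m a S) := by
  refine ⟨?_, ?_, ?_⟩
  · rintro v ⟨s, hs, h⟩
    refine ⟨_, hS.inv s hs, ?_⟩
    filter_upwards [h] with k hk
    rw [hk]
  · rintro v ⟨s, hs, h⟩
    obtain ⟨j, rfl⟩ := hqm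
    refine Tame.congr (u := fun k => s (a + q * j * k)) (tame_of_step ?_) h
    filter_upwards [ev_cls hm a (hS.sgn_mul hs j)] with k hk
    rw [← hk]
    congr 2; ring
  · rintro v ⟨s, hs, h⟩ w hw
    refine ⟨s, hs, ?_⟩
    filter_upwards [h, hw] with k h1 h2
    rw [h2, h1]

lemma mem_cls {m a : ℕ} {S : Subalgebra ℝ (ℕ → ℝ)} {u : ℕ → ℝ} (hu : u ∈ S) :
    (fun k => u (a + m * k)) ∈ cls m a S := ⟨u, hu, Eventually.of_forall fun _ => rfl⟩

lemma cls_succ_le {q : ℕ} {S : Subalgebra ℝ (ℕ → ℝ)} (hS : Per q S) (m a : ℕ) :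
    cls m (a + 1) S ≤ cls m a S := by
  rintro v ⟨s, hs, h⟩
  refine ⟨_, hS.shift s hs, ?_⟩
  filter_upwards [h] with k hk
  rw [hk]
  congr 1; ring

lemma cls_shift {q : ℕ} {S : Subalgebra ℝ (ℕ → ℝ)} (hS : Per q S) (m a : ℕ) {v : ℕ → ℝ}
    (hv : v ∈ cls m a S) : (fun k => v (k + 1)) ∈ cls m a S := by
  obtain ⟨s, hs, h⟩ := hv
  refine ⟨_, hS.shift_add hs m, ?_⟩
  filter_upwards [ev_shift h 1] with k hk
  rw [hk]
  congr 1; ring

lemma PS.cls {q : ℕ} {S : Subalgebra ℝ (ℕ → ℝ)} (hS : Per q S) {D : ℕ} {P : ℕ → ℝ[X]}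
    (hP : PS S D P) {m : ℕ} (hm : 0 < m) (a j : ℕ) :
    PS (cls m a S) D (fun k => P (a + m * k + j)) := by
  refine ⟨?_, fun l => ?_⟩
  · exact ev_cls hm a (ev_shift hP.deg j)
  · exact mem_cls (u := fun n => (P (n + j)).coeff l) (hS.shift_add (hP.coeff l) j)

lemma PS.cls_shift {q : ℕ} {S : Subalgebra ℝ (ℕ → ℝ)} (hS : Per q S) {m a : ℕ} {D : ℕ}
    {P : ℕ → ℝ[X]} (hP : PS (Pool.Agent.Lib.MP_f4ff90_ag.cls m a S) D P) :
    PS (Pool.Agent.Lib.MP_f4ff90_ag.cls m a S) D (fun k => P (k + 1)) :=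
  ⟨ev_shift hP.deg 1, fun l => Pool.Agent.Lib.MP_f4ff90_ag.cls_shift hS m a (hP.coeff l)⟩

/-! ## Fibre maps and types of maps -/

/-- the fibre map -/
noncomputable def gg (N M : ℕ → ℝ[X]) (n : ℕ) (t : ℝ) : ℝ := (N n).eval t / (M n).eval t

/-- `h` is increasing (`σ = 1`), decreasing (`σ = -1`) or constant (`σ = 0`) on `I` -/
def HasType (I : Set ℝ) (σ : SignType) (h : ℝ → ℝ) : Prop :=
  ∀ t ∈ I, ∀ t' ∈ I, SignType.sign (h t' - h t) = σ * SignType.sign (t' - t)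

lemma gg_mem {F : Subalgebra ℝ (ℕ → ℝ)} (hinv : ∀ u ∈ F, (fun n => (u n)⁻¹) ∈ F)
    (hev : ∀ u ∈ F, ∀ v : ℕ → ℝ, (∀ᶠ n in atTop, v n = u n) → v ∈ F) {D : ℕ}
    {N' M' : ℕ → ℝ[X]} (hN : PS F D N') (hM : PS F D M') {u : ℕ → ℝ} (hu : u ∈ F) :
    (fun n => (N' n).eval (u n) / (M' n).eval (u n)) ∈ F := by
  have := F.mul_mem (hN.eval_mem hev hu) (hinv _ (hM.eval_mem hev hu))
  simp only [div_eq_mul_inv]
  exact this

/-- The data of a monotone fibre system: at time `n` the map `gg N M n` has type `σ n` on the set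
`I n`, which contains the point `y n` of the orbit; the types are `q`-periodic.  The position of
the sequences of a maximal Hardy type field relative to the sets `I n` is decided. -/
structure Sys (q : ℕ) (S : Subalgebra ℝ (ℕ → ℝ)) (D : ℕ) (N M : ℕ → ℝ[X])
    (I : ℕ → Set ℝ) (σ : ℕ → SignType) (y : ℕ → ℝ) : Prop where
  hq : 0 < q
  per : Per q S
  hN : PS S D N
  hM : PS S D M
  recur : ∀ᶠ n in atTop, y (n + 1) = gg N M n (y n)
  mem : ∀ᶠ n in atTop, y n ∈ I n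
  typ : ∀ᶠ n in atTop, HasType (I n) (σ n) (gg N M n)
  sper : ∀ᶠ n in atTop, σ (n + q) = σ n
  dec : ∀ (a : ℕ) (G : Subalgebra ℝ (ℕ → ℝ)), MaxHF G → cls (2 * q) a S ≤ G → ∀ ξ ∈ G,
    (∀ᶠ k in atTop, ξ k ∈ I (a + 2 * q * k)) ∨ Tame (fun k => y (a + 2 * q * k) - ξ k) ∨
      (fun k => y (a + 2 * q * k + 1)) ∈ G

end Pool.Agent.Lib.MP_f4ff90_ag
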