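import Pool.Agent.Lib.MP_f4ff90_ag.KTame

/-!
# MP_f4ff90_ag : adjoining the orbit of a monotone fibre system
-/

set_option autoImplicit false

open Filter Polynomial

namespace Pool.Agent.Lib.MP_f4ff90_ag

/-- the algebra of all sequences whose restrictions to the arithmetic progressions `a + m k` are
fractions of polynomials in `y`, with coefficients in `S` -/
def adj (m : ℕ) (S : Subalgebra ℝ (ℕ → ℝ)) (y : ℕ → ℝ) : Subalgebra ℝ (ℕ → ℝ) where
  carrier := {v | ∀ a, (fun k => v (a + m * k)) ∈ ext (cls m a S) (fun k => y (a + m * k))}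
  mul_mem' := fun hu hv a => (ext (cls m a S) (fun k => y (a + m * k))).mul_mem (hu a) (hv a)
  add_mem' := fun hu hv a => (ext (cls m a S) (fun k => y (a + m * k))).add_mem (hu a) (hv a)
  algebraMap_mem' r := fun a =>
    (ext (cls m a S) (fun k => y (a + m * k))).algebraMap_mem r

variable {q : ℕ} {S : Subalgebra ℝ (ℕ → ℝ)} {D : ℕ} {N M : ℕ → ℝ[X]}
  {I : ℕ → Set ℝ} {σ : ℕ → SignType} {y : ℕ → ℝ}

/-- **adjoining the orbit of a monotone fibre system** -/
theorem Sys.step (h : Sys q S D N M I σ y) :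
    ∃ S' : Subalgebra ℝ (ℕ → ℝ), S ≤ S' ∧ y ∈ S' ∧ Per (2 * q) S' := by
  have hm : 0 < 2 * q := by have := h.hq; omega
  have hHF : ∀ a, HF (ext (cls (2 * q) a S) (fun k => y (a + 2 * q * k))) :=
    fun a => ext_hf (h.tameOver a)
  refine ⟨adj (2 * q) S y, ?_, ?_, ⟨?_, ?_, ?_, ?_⟩⟩
  · intro s hs a
    exact le_ext _ _ (mem_cls hs)
  · intro a
    exact self_mem_ext _ _
  · intro u hu a
    exact (hHF a).inv _ (hu a)
  · intro u hu v hv a
    exact (hHF a).ev _ (hu a) _ (ev_cls hm a hv)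
  · intro u hu a
    have h1 : (fun k => u (a + 1 + 2 * q * k)) ∈
        ext (cls (2 * q) (a + 1) S) (fun k => y (a + 1 + 2 * q * k)) := hu (a + 1)
    have h2 : ext (cls (2 * q) (a + 1) S) (fun k => y (a + 1 + 2 * q * k)) ≤
        ext (cls (2 * q) a S) (fun k => y (a + 2 * q * k)) := by
      refine ext_le ((cls_succ_le h.per (2 * q) a).trans (le_ext _ _)) ?_ (hHF a).inv (hHF a).ev
      have h3 := gg_mem (hHF a).inv (hHF a).ev
        ((h.hN.cls h.per hm a 0).mono_alg (le_ext _ (fun k => y (a + 2 * q * k))))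
        ((h.hM.cls h.per hm a 0).mono_alg (le_ext _ (fun k => y (a + 2 * q * k))))
        (self_mem_ext _ _)
      refine (hHF a).ev _ h3 _ ?_
      filter_upwards [ev_cls hm a h.recur] with k hk
      rw [show a + 1 + 2 * q * k = a + 2 * q * k + 1 by ring, hk]
      rfl
    have h4 := h2 h1
    have h5 : (fun k => u (a + 1 + 2 * q * k)) = fun k => u (a + 2 * q * k + 1) := by
      funext k
      congr 1; ring
    rw [h5] at h4
    exact h4
  · intro u hu
    refine ev_of_classes hm fun a _ => ?_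
    obtain ⟨s, hs⟩ := (hHF a).tame _ (hu a)
    filter_upwards [hs, ev_shift hs 1] with k h1 h2
    rw [h1, ← h2]
    congr 2; ring

end Pool.Agent.Lib.MP_f4ff90_ag
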