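import Pool.Agent.Lib.MP_f4ff90_ag.KPer

/-!
# MP_f4ff90_ag : the orbit of a monotone fibre system is tame over the base
-/

set_option autoImplicit false

open Filter Polynomial

namespace Pool.Agent.Lib.MP_f4ff90_ag

/-- the comparison lemma -/
lemma tame_of_rec_pos {d g δ : ℕ → ℝ} (h : ∀ᶠ k in atTop, d (k + 1) = g k + δ k)
    (hs : ∀ᶠ k in atTop, SignType.sign (g k) = SignType.sign (d k))
    (hδ : ∀ᶠ k in atTop, 0 < δ k) : Tame d := by
  by_cases h0 : ∀ᶠ k in atTop, d k < 0
  · exact Tame.of_neg h0
  · refine Tame.of_pos ?_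
    obtain ⟨K, hK⟩ := eventually_atTop.1 (h.and (hs.and hδ))
    obtain ⟨k, hk, hdk⟩ : ∃ k ≥ K, 0 ≤ d k := by
      by_contra hcon
      push Not at hcon
      exact h0 (eventually_atTop.2 ⟨K, hcon⟩)
    have hstep : ∀ j ≥ K, 0 ≤ d j → 0 < d (j + 1) := by
      intro j hj hdj
      obtain ⟨h1, h2, h3⟩ := hK j hj
      have h4 : 0 ≤ g j := by
        rw [← sign_nonneg_iff, h2, sign_nonneg_iff]
        exact hdj
      rw [h1]; linarith
    rw [eventually_atTop]
    refine ⟨k + 1, fun n hn => ?_⟩
    induction n, hn using Nat.le_induction with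
    | base => exact hstep k hk hdk
    | succ n hn ih => exact hstep n (by omega) ih.le

lemma tame_of_rec {d g δ : ℕ → ℝ} (h : ∀ᶠ k in atTop, d (k + 1) = g k + δ k)
    (hs : ∀ᶠ k in atTop, SignType.sign (g k) = SignType.sign (d k))
    (hδ : Tame δ) : Tame d := by
  rcases hδ.cases with h1 | h1 | h1
  · have := tame_of_rec_pos (d := fun k => - d k) (g := fun k => - g k) (δ := fun k => - δ k)
      (by filter_upwards [h] with k hk; rw [hk]; ring)
      (by filter_upwards [hs] with k hk; rw [Left.sign_neg, Left.sign_neg, hk])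
      (by filter_upwards [h1] with k hk; linarith)
    simpa using this.neg'
  · refine tame_of_step ?_
    filter_upwards [h, hs, h1] with k h2 h3 h4
    rw [h2, h4, add_zero, h3]
  · exact tame_of_rec_pos h hs h1

/-- a sign valued sequence which is eventually `q`-periodic is constant on progressions -/
lemma sign_cls {σ : ℕ → SignType} {q m : ℕ} (hm : 0 < m) (hqm : q ∣ m)
    (h : ∀ᶠ n in atTop, σ (n + q) = σ n) (a : ℕ) : ∃ s, ∀ᶠ k in atTop, σ (a + m * k) = s := by
  obtain ⟨l, rfl⟩ := hqm
  have h1 : ∀ j, ∀ᶠ n in atTop, σ (n + j * q) = σ n := by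
    intro j
    induction j with
    | zero => simp
    | succ j ih =>
      filter_upwards [ih, ev_shift h (j * q)] with n h1 h2
      rw [← h1, ← h2]
      congr 1; ring
  have h2 := ev_cls hm a (h1 l)
  obtain ⟨K, hK⟩ := eventually_atTop.1 h2
  refine ⟨σ (a + q * l * K), ?_⟩
  rw [eventually_atTop]
  refine ⟨K, fun n hn => ?_⟩
  induction n, hn using Nat.le_induction with
  | base => rfl
  | succ n hn ih =>
    rw [← ih, ← hK n hn]
    congr 1; ring

lemma SignType.mul_self_of_ne_zero' {s : SignType} (h : s ≠ 0) : s * s = 1 := by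
  revert s; decide

variable {q : ℕ} {S : Subalgebra ℝ (ℕ → ℝ)} {D : ℕ} {N M : ℕ → ℝ[X]}
  {I : ℕ → Set ℝ} {σ : ℕ → SignType} {y : ℕ → ℝ}

lemma cls_add_le (hS : Per q S) (m a j : ℕ) : cls m (a + j) S ≤ cls m a S := by
  induction j with
  | zero => exact le_rfl
  | succ j ih => exact (cls_succ_le hS m (a + j)).trans ih

/-- the chain of comparisons -/
lemma Sys.chain (h : Sys q S D N M I σ y) (a : ℕ) {G : Subalgebra ℝ (ℕ → ℝ)} (hG : MaxHF G)
    (hle : cls (2 * q) a S ≤ G) {ξ : ℕ → ℝ} (hξ : ξ ∈ G) (j : ℕ) :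
    Tame (fun k => y (a + 2 * q * k) - ξ k) ∨ (fun k => y (a + 2 * q * k + j)) ∈ G ∨
      ∃ η ∈ G, (∀ᶠ k in atTop, SignType.sign (y (a + 2 * q * k + j) - η k) =
        (∏ i ∈ Finset.range j, σ (a + 2 * q * k + i)) *
          SignType.sign (y (a + 2 * q * k) - ξ k)) ∧
        ∃ s : SignType, s ≠ 0 ∧ ∀ᶠ k in atTop,
          ∏ i ∈ Finset.range j, σ (a + 2 * q * k + i) = s := by
  have hm : 0 < 2 * q := by have := h.hq; omega
  set m := 2 * q with hmdef
  have hqm : q ∣ m := ⟨2, by omega⟩
  induction j with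
  | zero =>
    right; right
    refine ⟨ξ, hξ, Eventually.of_forall fun k => by simp, 1, by decide,
      Eventually.of_forall fun k => by simp⟩
  | succ j ih =>
    rcases ih with h1 | h1 | ⟨η, hη, h1, s, hs0, hs⟩
    · left; exact h1
    · right; left
      have h2 := gg_mem hG.inv hG.ev ((h.hN.cls h.per hm a j).mono_alg hle)
        ((h.hM.cls h.per hm a j).mono_alg hle) h1
      refine hG.ev _ h2 _ ?_
      filter_upwards [ev_cls hm a (ev_shift h.recur j)] with k hk
      exact hk
    · have hη' := gg_mem hG.inv hG.ev ((h.hN.cls h.per hm a j).mono_alg hle)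
        ((h.hM.cls h.per hm a j).mono_alg hle) hη
      rcases h.dec (a + j) G hG ((cls_add_le h.per m a j).trans hle) η hη with h2 | h2 | h2
      · obtain ⟨s', hs'⟩ := sign_cls hm hqm h.sper (a + j)
        have h3 : ∀ᶠ k in atTop, SignType.sign (y (a + m * k + (j + 1)) -
            gg N M (a + m * k + j) (η k)) =
              σ (a + m * k + j) * SignType.sign (y (a + m * k + j) - η k) := by
          filter_upwards [h2, ev_cls hm a (ev_shift h.recur j), ev_cls hm a (ev_shift h.mem j),
            ev_cls hm a (ev_shift h.typ j)] with k h4 h5 h6 h7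
          rw [show a + m * k + (j + 1) = a + m * k + j + 1 by ring, h5]
          refine h7 _ ?_ _ h6
          rw [show a + m * k + j = a + j + m * k by ring]
          exact h4
        by_cases hs'0 : s' = 0
        · right; left
          refine hG.ev _ hη' _ ?_
          filter_upwards [h3, hs'] with k h4 h5
          rw [show a + m * k + j = a + j + m * k by ring, h5, hs'0, zero_mul,
            sign_eq_zero_iff, sub_eq_zero] at h4
          rw [h4, show a + j + m * k = a + m * k + j by ring]
          rfl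
        · right; right
          refine ⟨_, hη', ?_, s * s', ?_, ?_⟩
          · filter_upwards [h1, h3] with k h4 h5
            rw [Finset.prod_range_succ,
              show ∀ a b c : SignType, a * b * c = b * (a * c) by decide, ← h4]
            exact h5
          · exact mul_ne_zero hs0 hs'0
          · filter_upwards [hs, hs'] with k h4 h5
            rw [Finset.prod_range_succ, h4, show a + m * k + j = a + j + m * k by ring, h5]
      · left
        have h2' : Tame (fun k => y (a + m * k + j) - η k) := by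
          refine h2.congr (Eventually.of_forall fun k => ?_)
          rw [show a + m * k + j = a + j + m * k by ring]
        obtain ⟨c, hc⟩ := h2'
        refine ⟨s * c, ?_⟩
        filter_upwards [h1, hs, hc] with k h4 h5 h6
        rw [← h6, h4, h5, ← mul_assoc, SignType.mul_self_of_ne_zero' hs0, one_mul]
      · right; left
        refine hG.ev _ h2 _ (Eventually.of_forall fun k => ?_)
        show y (a + m * k + (j + 1)) = y (a + j + m * k + 1)
        congr 1; ring

lemma prod_two_mul {q n : ℕ} (h : ∀ i < q, σ (n + i + q) = σ (n + i))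
    (h0 : ∏ i ∈ Finset.range (2 * q), σ (n + i) ≠ 0) :
    ∏ i ∈ Finset.range (2 * q), σ (n + i) = 1 := by
  rw [two_mul, Finset.prod_range_add] at h0 ⊢
  have h1 : (∏ x ∈ Finset.range q, σ (n + (q + x))) = ∏ x ∈ Finset.range q, σ (n + x) := by
    refine Finset.prod_congr rfl fun i hi => ?_
    rw [← h i (Finset.mem_range.1 hi)]
    congr 1; ring
  rw [h1] at h0 ⊢
  generalize (∏ x ∈ Finset.range q, σ (n + x)) = s at h0 ⊢
  revert s
  decide

/-- **the orbit is tame over the base, on arithmetic progressions of difference `2 q`** -/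
theorem Sys.tameOver (h : Sys q S D N M I σ y) (a : ℕ) :
    TameOver (cls (2 * q) a S) (fun k => y (a + 2 * q * k)) := by
  have hm : 0 < 2 * q := by have := h.hq; omega
  have hqm : q ∣ 2 * q := ⟨2, by omega⟩
  have hF := cls_hf h.per hm hqm a
  obtain ⟨G, hFG, hG⟩ := exists_maxHF _ hF
  intro E P hP
  rcases hP.dcd_zero hF with h0 | h0
  · refine Tame.of_zero ?_
    filter_upwards [h0] with n hn
    rw [hn, eval_zero]
  obtain ⟨L, hL⟩ := exists_rootList hG E P (hP.mono_alg hFG) (by
    intro h'
    obtain ⟨n, hn⟩ := (h'.and h0).exists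
    exact hn.2 hn.1)
  refine sign_at hG.toHF (hP.mono_alg hFG) hL fun ξ hξ => ?_
  have hξG := hL.1 ξ hξ
  have hξ' : (fun k => ξ (k + 1)) ∈ G :=
    root_shift hG ((hP.cls_shift h.per).mono_alg hFG) h0 hL hξ
  rcases h.chain a hG hFG hξG (2 * q) with h1 | h1 | ⟨η, hη, h1, s, hs0, hs⟩
  · exact h1
  · refine Tame.of_shift ((hG.tame _ (hG.sub h1 hξ')).congr (Eventually.of_forall fun k => ?_))
    rw [show a + 2 * q * (k + 1) = a + 2 * q * k + 2 * q by ring]
  · have hone : ∀ᶠ k in atTop, ∏ i ∈ Finset.range (2 * q), σ (a + 2 * q * k + i) = 1 := by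
      obtain ⟨n₁, hn₁⟩ := eventually_atTop.1 h.sper
      filter_upwards [ev_cls hm a (eventually_ge_atTop n₁), hs] with k h2 h3
      exact prod_two_mul (fun i _ => hn₁ _ (h2.trans (Nat.le_add_right _ _)))
        (by rw [h3]; exact hs0)
    refine tame_of_rec (g := fun k => y (a + 2 * q * k + 2 * q) - η k)
      (δ := fun k => η k - ξ (k + 1)) ?_ ?_ (hG.tame _ (hG.sub hη hξ'))
    · refine Eventually.of_forall fun k => ?_
      show y (a + 2 * q * (k + 1)) - ξ (k + 1) =
        (y (a + 2 * q * k + 2 * q) - η k) + (η k - ξ (k + 1))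
      rw [show a + 2 * q * (k + 1) = a + 2 * q * k + 2 * q by ring]
      ring
    · filter_upwards [h1, hone] with k h2 h3
      rw [h2, h3, one_mul]

end Pool.Agent.Lib.MP_f4ff90_ag
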