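import Pool.Agent.Lib.MP_f4ff90_ag.KItin2

/-!
# MP_f4ff90_ag : asymptotically periodic orbits of polynomials in one variable
-/

set_option autoImplicit false

open Filter Topology

namespace Pool.Agent.Lib.MP_f4ff90_ag

/-- along arithmetic progressions of some difference `p`, the sequence converges to a real number,
to `+∞` or to `-∞` -/
def AsymPeriodic (u : ℕ → ℝ) : Prop :=
  ∃ p > 0, ∀ a : ℕ, (∃ l : ℝ, Tendsto (fun k => u (a + p * k)) atTop (𝓝 l)) ∨
    Tendsto (fun k => u (a + p * k)) atTop atTop ∨ Tendsto (fun k => u (a + p * k)) atTop atBot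

/-- deterministic sequences in a finite set are eventually periodic -/
lemma ev_periodic_of_finite {α : Type*} [Finite α] {f : ℕ → α} {T : α → α} {n₀ : ℕ}
    (h : ∀ n ≥ n₀, f (n + 1) = T (f n)) : ∃ P > 0, ∀ᶠ n in atTop, f (n + P) = f n := by
  obtain ⟨i, j, hij, hfij⟩ := Finite.exists_ne_map_eq_of_infinite (fun n : ℕ => f (n₀ + n))
  wlog hlt : i < j generalizing i j
  · exact this j i hij.symm hfij.symm (lt_of_le_of_ne (not_lt.1 hlt) hij.symm)
  refine ⟨j - i, by omega, ?_⟩
  rw [eventually_atTop]
  refine ⟨n₀ + i, fun n hn => ?_⟩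
  induction n, hn using Nat.le_induction with
  | base =>
    have : n₀ + i + (j - i) = n₀ + j := by omega
    rw [this]
    exact hfij.symm
  | succ n hn ih =>
    rw [show n + 1 + (j - i) = n + (j - i) + 1 by ring, h _ (by omega), h _ (by omega), ih]

lemma local_sign {F : Polynomial ℝ} (hF : 0 < F.natDegree) (l : ℝ) :
    ∃ (τ : SignType → SignType) (ε : ℝ), 0 < ε ∧ ∀ t, |t - l| < ε →
      SignType.sign (F.eval t - F.eval l) = τ (SignType.sign (t - l)) := by
  set G := F - Polynomial.C (F.eval l) with hG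
  have hG0 : G ≠ 0 := by
    intro h
    have h1 : F = Polynomial.C (F.eval l) := sub_eq_zero.1 h
    rw [h1, Polynomial.natDegree_C] at hF
    exact lt_irrefl _ hF
  have hGe : ∀ t, G.eval t = F.eval t - F.eval l := by
    intro t; rw [hG, Polynomial.eval_sub, Polynomial.eval_C]
  have hfin : ((G.roots.toFinset.erase l : Finset ℝ) : Set ℝ).Finite := Finset.finite_toSet _
  have hmem : ((G.roots.toFinset.erase l : Finset ℝ) : Set ℝ)ᶜ ∈ 𝓝 l :=
    hfin.isClosed.compl_mem_nhds (by simp)
  obtain ⟨ε, hε, hball⟩ := Metric.mem_nhds_iff.1 hmem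
  have hroot : ∀ t, |t - l| < ε → t ≠ l → G.eval t ≠ 0 := by
    intro t ht htl h0
    have h1 := hball (Metric.mem_ball.2 (by rw [Real.dist_eq]; exact ht))
    refine h1 ?_
    rw [Finset.mem_coe, Finset.mem_erase, Multiset.mem_toFinset, Polynomial.mem_roots hG0]
    exact ⟨htl, h0⟩
  refine ⟨fun s => if s = 1 then SignType.sign (G.eval (l + ε / 2))
    else if s = -1 then SignType.sign (G.eval (l - ε / 2)) else 0, ε, hε, fun t ht => ?_⟩
  have ht' := abs_lt.1 ht
  rw [← hGe]
  rcases lt_trichotomy t l with h | h | h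
  · rw [sign_neg (sub_neg.2 h)]
    beta_reduce
    rw [if_neg (by decide), if_pos rfl]
    refine sign_eq_of_no_root _ _ _ fun s hs => hroot s ?_ ?_
    · rw [Set.mem_uIcc] at hs
      rw [abs_lt]
      rcases hs with hs | hs <;> constructor <;> linarith [hs.1, hs.2]
    · rw [Set.mem_uIcc] at hs
      rcases hs with hs | hs
      · exact (show s < l by linarith [hs.2]).ne
      · exact (show s < l by linarith [hs.2]).ne
  · rw [h, sub_self, sign_zero]
    beta_reduce
    rw [if_neg (by decide), if_neg (by decide), hGe, sub_self, sign_zero]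
  · rw [sign_pos (sub_pos.2 h)]
    beta_reduce
    rw [if_pos rfl]
    refine sign_eq_of_no_root _ _ _ fun s hs => hroot s ?_ ?_
    · rw [Set.mem_uIcc] at hs
      rw [abs_lt]
      rcases hs with hs | hs <;> constructor <;> linarith [hs.1, hs.2]
    · rw [Set.mem_uIcc] at hs
      rcases hs with hs | hs
      · exact (show l < s by linarith [hs.1]).ne'
      · exact (show l < s by linarith [hs.1]).ne'

lemma far_sign {F : Polynomial ℝ} (hF : F ≠ 0) :
    ∃ (τ : SignType → SignType) (R : ℝ), 0 < R ∧ ∀ t, R < |t| →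
      SignType.sign (F.eval t) = τ (SignType.sign t) := by
  obtain ⟨R, hR⟩ : ∃ R : ℝ, ∀ t, F.eval t = 0 → |t| ≤ R := by
    refine ⟨∑ s ∈ F.roots.toFinset, |s|, fun t ht => ?_⟩
    exact Finset.single_le_sum (f := fun s => |s|) (fun s _ => abs_nonneg s)
      (Multiset.mem_toFinset.2 ((Polynomial.mem_roots hF).2 ht))
  set R' := max R 1 with hR'
  have hR'1 : 1 ≤ R' := le_max_right _ _
  have hRR' : R ≤ R' := le_max_left _ _
  refine ⟨fun s => if s = 1 then SignType.sign (F.eval (R' + 1))
    else SignType.sign (F.eval (-(R' + 1))), R', by linarith, fun t ht => ?_⟩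
  rcases lt_trichotomy t 0 with h | h | h
  · rw [sign_neg h]
    beta_reduce
    rw [if_neg (by decide)]
    rw [abs_of_neg h] at ht
    refine sign_eq_of_no_root _ _ _ fun s hs h0 => ?_
    have h1 := hR s h0
    rw [Set.mem_uIcc] at hs
    have h2 := abs_le.1 h1
    rcases hs with hs | hs <;> linarith [hs.1, hs.2, h2.1]
  · rw [h, abs_zero] at ht; linarith
  · rw [sign_pos h]
    beta_reduce
    rw [if_pos rfl]
    rw [abs_of_pos h] at ht
    refine sign_eq_of_no_root _ _ _ fun s hs h0 => ?_
    have h1 := hR s h0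
    rw [Set.mem_uIcc] at hs
    have h2 := abs_le.1 h1
    rcases hs with hs | hs <;> linarith [hs.1, hs.2, h2.2]

lemma sign_sub_of_tendsto {v : ℕ → ℝ} {l c : ℝ} (h : Tendsto v atTop (𝓝 l)) (hlc : l ≠ c) :
    ∀ᶠ k in atTop, SignType.sign (v k - c) = SignType.sign (l - c) := by
  rcases lt_or_gt_of_ne hlc with h1 | h1
  · filter_upwards [h.eventually (gt_mem_nhds h1)] with k hk
    rw [sign_neg (sub_neg.2 hk), sign_neg (sub_neg.2 h1)]
  · filter_upwards [h.eventually (lt_mem_nhds h1)] with k hk
    rw [sign_pos (sub_pos.2 hk), sign_pos (sub_pos.2 h1)]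

/-- **positions of asymptotically periodic orbits are eventually periodic** -/
theorem AsymPeriodic.signs {u : ℕ → ℝ} {F : Polynomial ℝ} (hu : ∀ n, u (n + 1) = F.eval (u n))
    (h : AsymPeriodic u) : ∃ P > 0, ∀ c : ℝ, ∀ᶠ n in atTop,
      SignType.sign (u (n + P) - c) = SignType.sign (u n - c) := by
  rcases Nat.eq_zero_or_pos F.natDegree with h0 | hdeg
  · -- constant polynomials
    refine ⟨1, one_pos, fun c => ?_⟩
    filter_upwards [eventually_ge_atTop 1] with n hn
    obtain ⟨k, rfl⟩ : ∃ k, n = k + 1 := ⟨n - 1, by omega⟩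
    rw [hu (k + 1), hu k, Polynomial.eq_C_of_natDegree_eq_zero h0]
    simp
  obtain ⟨p, hp, hlim⟩ := h
  by_cases hfin : ∃ a, ∃ l : ℝ, Tendsto (fun k => u (a + p * k)) atTop (𝓝 l)
  · obtain ⟨a₀, l₀, hl₀⟩ := hfin
    -- all limits are finite
    have hstep : ∀ a, (∃ l : ℝ, Tendsto (fun k => u (a + p * k)) atTop (𝓝 l)) →
        ∃ l : ℝ, Tendsto (fun k => u (a + 1 + p * k)) atTop (𝓝 l) := by
      rintro a ⟨l, hl⟩
      refine ⟨F.eval l, ?_⟩
      have h1 : Tendsto (fun k => F.eval (u (a + p * k))) atTop (𝓝 (F.eval l)) :=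
        (F.continuous.tendsto l).comp hl
      refine h1.congr fun k => ?_
      rw [← hu]
      congr 1; ring
    have hall : ∀ j, ∃ l : ℝ, Tendsto (fun k => u (a₀ + j + p * k)) atTop (𝓝 l) := by
      intro j
      induction j with
      | zero => exact ⟨l₀, hl₀⟩
      | succ j ih => exact hstep _ ih
    have hall' : ∀ a, ∃ l : ℝ, Tendsto (fun k => u (a + p * k)) atTop (𝓝 l) := by
      intro a
      obtain ⟨l, hl⟩ := hall (a + p * a₀ - a₀)
      refine ⟨l, ?_⟩
      have h2 : a₀ ≤ p * a₀ := Nat.le_mul_of_pos_left _ hp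
      have h1 : (fun k => u (a₀ + (a + p * a₀ - a₀) + p * k)) =
          fun k => u (a + p * (k + a₀)) := by
        funext k
        congr 1
        rw [show a₀ + (a + p * a₀ - a₀) = a + p * a₀ by omega]
        ring
      rw [h1] at hl
      exact (tendsto_add_atTop_iff_nat a₀).1 hl
    choose l hl using hall'
    have hlp : ∀ a, l (a + p) = l a := by
      intro a
      have h1 : Tendsto (fun k => u (a + p * (k + 1))) atTop (𝓝 (l a)) :=
        (tendsto_add_atTop_iff_nat 1).2 (hl a)
      have h2 : Tendsto (fun k => u (a + p * (k + 1))) atTop (𝓝 (l (a + p))) := by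
        refine (hl (a + p)).congr fun k => ?_
        congr 1; ring
      exact tendsto_nhds_unique h2 h1
    have hlpk : ∀ a k, l (a + p * k) = l a := by
      intro a k
      induction k with
      | zero => simp
      | succ k ih => rw [show a + p * (k + 1) = a + p * k + p by ring, hlp, ih]
    have hlF : ∀ a, l (a + 1) = F.eval (l a) := by
      intro a
      have h1 : Tendsto (fun k => F.eval (u (a + p * k))) atTop (𝓝 (F.eval (l a))) :=
        (F.continuous.tendsto _).comp (hl a)
      have h2 : Tendsto (fun k => F.eval (u (a + p * k))) atTop (𝓝 (l (a + 1))) := by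
        refine (hl (a + 1)).congr fun k => ?_
        rw [← hu]
        congr 1; ring
      exact tendsto_nhds_unique h2 h1
    choose τ ε hε hτ using local_sign hdeg
    have hclose : ∀ᶠ n in atTop, |u n - l n| < ε (l n) := by
      refine ev_of_classes hp fun a _ => ?_
      have h1 := Metric.tendsto_nhds.1 (hl a) (ε (l a)) (hε _)
      filter_upwards [h1] with k hk
      rw [hlpk]
      rwa [Real.dist_eq] at hk
    obtain ⟨n₀, hn₀⟩ := eventually_atTop.1 hclose
    have hmodl : ∀ n, l (n % p) = l n := by
      intro n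
      conv_rhs => rw [← Nat.mod_add_div n p, hlpk]
    obtain ⟨P, hP, hper⟩ := ev_periodic_of_finite
      (f := fun n => ((⟨n % p, Nat.mod_lt n hp⟩ : Fin p), SignType.sign (u n - l n)))
      (T := fun x => ((⟨((x.1 : ℕ) + 1) % p, Nat.mod_lt _ hp⟩ : Fin p), τ (l x.1) x.2))
      (n₀ := n₀) (by
        intro n hn
        refine Prod.ext ?_ ?_
        · refine Fin.ext ?_
          simp only
          rw [Nat.mod_add_mod]
        · simp only
          rw [hmodl, hu, hlF]
          exact hτ _ _ (hn₀ n hn))
    have hpP : p ∣ P := by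
      obtain ⟨n, hn⟩ := hper.exists
      have h1 := congrArg (fun x => (x.1 : ℕ)) hn
      simp only at h1
      have h2 : (n + P) % p = (n + 0) % p := by simpa using h1
      have h3 : P ≡ 0 [MOD p] := Nat.ModEq.add_left_cancel' n h2
      exact (Nat.modEq_zero_iff_dvd).1 h3
    refine ⟨P, hP, fun c => ?_⟩
    obtain ⟨e, rfl⟩ := hpP
    refine ev_of_classes hP fun a _ => ?_
    have hla : Tendsto (fun k => u (a + p * e * k)) atTop (𝓝 (l a)) := by
      have he : 0 < e := Nat.pos_of_mul_pos_left hP |> fun h => by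
        rcases Nat.eq_zero_or_pos e with h' | h'
        · rw [h', Nat.mul_zero] at hP; exact absurd hP (lt_irrefl _)
        · exact h'
      have h1 : Tendsto (fun k : ℕ => e * k) atTop atTop :=
        tendsto_id.const_mul_atTop' he
      have h2 := (hl a).comp h1
      refine h2.congr fun k => ?_
      simp only [Function.comp]
      congr 1; ring
    by_cases hc : l a = c
    · filter_upwards [ev_cls hP a hper] with k hk
      have h1 := congrArg Prod.snd hk
      simp only at h1
      have h2 : l (a + p * e * k) = c := by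
        rw [mul_assoc, hlpk, hc]
      have h3 : l (a + p * e * k + p * e) = c := by
        rw [hlpk, h2]
      rw [h2, h3] at h1
      exact h1
    · have h1 := sign_sub_of_tendsto hla hc
      filter_upwards [h1, ev_shift h1 1] with k h2 h3
      rw [h2, ← h3]
      congr 3
      ring
  · push Not at hfin
    refine ⟨p, hp, fun c => ?_⟩
    refine ev_of_classes hp fun a _ => ?_
    have hs : ∃ s, ∀ᶠ k in atTop, SignType.sign (u (a + p * k) - c) = s := by
      rcases hlim a with ⟨l, hl⟩ | hl | hl
      · exact absurd hl (hfin a l)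
      · refine ⟨1, ?_⟩
        filter_upwards [hl.eventually (eventually_gt_atTop c)] with k hk
        exact sign_pos (sub_pos.2 hk)
      · refine ⟨-1, ?_⟩
        filter_upwards [hl.eventually (eventually_lt_atBot c)] with k hk
        exact sign_neg (sub_neg.2 hk)
    obtain ⟨s, hs⟩ := hs
    filter_upwards [hs, ev_shift hs 1] with k h1 h2
    rw [h1, ← h2]
    congr 3
    ring

/-- eventually periodic sequences are asymptotically periodic -/
lemma asymPeriodic_of_periodic {u : ℕ → ℝ} {p : ℕ} (hp : 0 < p)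
    (h : ∀ᶠ n in atTop, u (n + p) = u n) : AsymPeriodic u := by
  refine ⟨p, hp, fun a => ?_⟩
  left
  obtain ⟨s, hs⟩ := const_cls hp dvd_rfl h a
  exact ⟨s, tendsto_const_nhds.congr' (by filter_upwards [hs] with k hk using hk.symm)⟩

/-- escaping orbits of polynomials are asymptotically periodic -/
lemma asymPeriodic_of_escape {u : ℕ → ℝ} {F : Polynomial ℝ} (hu : ∀ n, u (n + 1) = F.eval (u n))
    (h : Tendsto (fun n => |u n|) atTop atTop) : AsymPeriodic u := by
  have hF : F ≠ 0 := by
    rintro rfl
    obtain ⟨n, h1, h2⟩ := ((eventually_ge_atTop 1).and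
      (h.eventually (eventually_gt_atTop 0))).exists
    obtain ⟨k, rfl⟩ : ∃ k, n = k + 1 := ⟨n - 1, by omega⟩
    rw [hu k] at h2
    simp at h2
  obtain ⟨τ, R, hR, hτ⟩ := far_sign hF
  obtain ⟨n₀, hn₀⟩ := eventually_atTop.1 (h.eventually (eventually_gt_atTop R))
  obtain ⟨P, hP, hper⟩ := ev_periodic_of_finite (f := fun n => SignType.sign (u n)) (T := τ)
    (n₀ := n₀) (fun n hn => by
      rw [hu n]; exact hτ _ (hn₀ n hn))
  refine ⟨P, hP, fun a => ?_⟩
  obtain ⟨s, hs⟩ := const_cls (σ := fun n => SignType.sign (u n)) hP dvd_rfl hper a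
  have habs : Tendsto (fun k => |u (a + P * k)|) atTop atTop := h.comp (tendsto_cls hP a)
  right
  rcases s with _ | _ | _
  · exfalso
    obtain ⟨k, h1, h2⟩ := (hs.and (habs.eventually (eventually_gt_atTop 0))).exists
    have h3 : u (a + P * k) = 0 := sign_eq_zero_iff.1 h1
    rw [h3] at h2
    simp at h2
  · right
    have h1 : Tendsto (fun k => -|u (a + P * k)|) atTop atBot := tendsto_neg_atTop_atBot.comp habs
    refine h1.congr' ?_
    filter_upwards [hs] with k hk
    have h3 : u (a + P * k) < 0 := sign_eq_neg_one_iff.1 hk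
    rw [abs_of_neg h3, neg_neg]
  · left
    refine habs.congr' ?_
    filter_upwards [hs] with k hk
    have h3 : 0 < u (a + P * k) := sign_eq_one_iff.1 hk
    rw [abs_of_pos h3]

/-- integer orbits of integer polynomials are asymptotically periodic -/
theorem asymPeriodic_int {z : ℕ → ℤ} {F : Polynomial ℤ} (hz : ∀ n, z (n + 1) = F.eval (z n)) :
    AsymPeriodic (fun n => (z n : ℝ)) := by
  by_cases hinj : Function.Injective z
  · have h1 : Tendsto z atTop cofinite := by
      rw [← Nat.cofinite_eq_atTop]; exact hinj.tendsto_cofinite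
    have h2 : Tendsto (fun n => |z n|) atTop atTop := by
      rw [Int.cofinite_eq] at h1
      have h3 : Tendsto (fun x : ℤ => |x|) (atBot ⊔ atTop) atTop :=
        tendsto_sup.2 ⟨tendsto_abs_atBot_atTop, tendsto_abs_atTop_atTop⟩
      exact h3.comp h1
    refine asymPeriodic_of_escape (F := F.map (Int.castRingHom ℝ)) (fun n => ?_) ?_
    · rw [hz, Polynomial.eval_intCast_map]
      simp
    · have h3 : Tendsto (fun n => ((|z n| : ℤ) : ℝ)) atTop atTop :=
        tendsto_intCast_atTop_atTop.comp h2
      refine h3.congr fun n => ?_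
      push_cast
      rfl
  · rw [Function.not_injective_iff] at hinj
    obtain ⟨i, j, hij, hne⟩ := hinj
    wlog hlt : i < j generalizing i j
    · exact this j i hij.symm hne.symm (lt_of_le_of_ne (not_lt.1 hlt) hne.symm)
    refine asymPeriodic_of_periodic (p := j - i) (by omega) ?_
    rw [eventually_atTop]
    refine ⟨i, fun n hn => ?_⟩
    induction n, hn using Nat.le_induction with
    | base => rw [show i + (j - i) = j by omega, hij]
    | succ n hn ih =>
      have h1 : z (n + (j - i)) = z n := by exact_mod_cast ih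
      rw [show n + 1 + (j - i) = n + (j - i) + 1 by ring, hz, hz, h1]

end Pool.Agent.Lib.MP_f4ff90_ag
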