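import Pool.Agent.Lib.MP_f4ff90_ag.TTri

/-!
# MP_f4ff90_ag : the main theorem
-/

set_option autoImplicit false

open Filter

namespace Pool.Agent.Lib.MP_f4ff90_ag

variable {d : ℕ}

/-! ## Affine coordinates and split coordinates are tame -/

/-- the `i`-th component is affine in the `i`-th coordinate -/
def AffineCoord {K : Type*} [Field K] (num den : Fin d → MvPolynomial (Fin d) K) (i : Fin d) :
    Prop :=
  ∃ A B : MvPolynomial (Fin d) K, Below i A ∧ Below i B ∧ Below i (den i) ∧
    num i = A * MvPolynomial.X i + B

lemma AffineCoord.tame {num den : Fin d → MvPolynomial (Fin d) ℝ} {x : ℕ → Fin d → ℝ}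
    (hx : IsOrbit num den x) {i : Fin d} (h : AffineCoord num den i) :
    TameCoord num den x 1 i := by
  obtain ⟨A, B, hA, hB, hD, hnum⟩ := h
  refine ⟨∅, by simp, by simp, 0, fun n _ => ?_⟩
  have hupd : ∀ (p : MvPolynomial (Fin d) ℝ), Below i p → ∀ t : ℝ,
      MvPolynomial.eval (Function.update (x n) i t) p = MvPolynomial.eval (x n) p := by
    intro p hp t
    refine eval_congr_vars fun j hj => ?_
    rw [Function.update_of_ne (hp j hj).ne]
  have hfib : fibre num den i (x n) = fun t => (MvPolynomial.eval (x n) A * t +
      MvPolynomial.eval (x n) B) / MvPolynomial.eval (x n) (den i) := by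
    funext t
    rw [fibre, hupd _ hD, hnum, map_add, map_mul, hupd _ hA, hupd _ hB, MvPolynomial.eval_X,
      Function.update_self]
  refine ⟨fun t _ => ?_, ?_⟩
  · rw [hupd _ hD]
    exact (hx n i).1
  · rw [hfib]
    set a := MvPolynomial.eval (x n) A
    set b := MvPolynomial.eval (x n) B
    have hc : MvPolynomial.eval (x n) (den i) ≠ 0 := (hx n i).1
    set c := MvPolynomial.eval (x n) (den i)
    have hdiff : ∀ t t' : ℝ, (a * t' + b) / c - (a * t + b) / c = a / c * (t' - t) := by
      intro t t'
      field_simp
      ring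
    rcases lt_trichotomy (a / c) 0 with h1 | h1 | h1
    · right; left
      intro t _ t' _ htt
      have := hdiff t t'
      have h2 := mul_neg_of_neg_of_pos h1 (sub_pos.2 htt)
      beta_reduce
      linarith
    · right; right
      intro t _ t' _
      have := hdiff t t'
      rw [h1, zero_mul] at this
      beta_reduce
      linarith
    · left
      intro t _ t' _ htt
      have := hdiff t t'
      have h2 := mul_pos h1 (sub_pos.2 htt)
      beta_reduce
      linarith

lemma of_hasType {I : Set ℝ} {f : ℝ → ℝ} {σ : SignType} (h : HasType I σ f) :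
    StrictMonoOn f I ∨ StrictAntiOn f I ∨ ∀ t ∈ I, ∀ t' ∈ I, f t = f t' := by
  rcases σ with _ | _ | _
  · right; right
    intro t ht t' ht'
    have h1 := h t ht t' ht'
    change SignType.sign (f t' - f t) = (0 : SignType) * SignType.sign (t' - t) at h1
    rw [zero_mul, sign_eq_zero_iff] at h1
    linarith
  · right; left
    intro t ht t' ht' htt
    have h1 := h t ht t' ht'
    change SignType.sign (f t' - f t) = (-1 : SignType) * SignType.sign (t' - t) at h1
    rw [sign_pos (sub_pos.2 htt), mul_one, sign_eq_neg_one_iff] at h1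
    linarith
  · left
    intro t ht t' ht' htt
    have h1 := h t ht t' ht'
    change SignType.sign (f t' - f t) = (1 : SignType) * SignType.sign (t' - t) at h1
    rw [sign_pos (sub_pos.2 htt), mul_one, sign_eq_one_iff] at h1
    linarith

lemma eval_aeval_X {K : Type*} [Field K] (v : Fin d → K) (i : Fin d) (F : Polynomial K) :
    MvPolynomial.eval v (Polynomial.aeval (MvPolynomial.X i : MvPolynomial (Fin d) K) F) =
      F.eval (v i) := by
  induction F using Polynomial.induction_on' with
  | add p q hp hq => rw [map_add, map_add, hp, hq, Polynomial.eval_add]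
  | monomial k c =>
    rw [Polynomial.aeval_monomial, map_mul, map_pow, MvPolynomial.eval_X,
      MvPolynomial.algebraMap_eq, MvPolynomial.eval_C, Polynomial.eval_monomial]

/-- polynomials in one coordinate with asymptotically periodic orbit -/
lemma tame_of_asym {num den : Fin d → MvPolynomial (Fin d) ℝ} {x : ℕ → Fin d → ℝ}
    (hx : IsOrbit num den x) {i : Fin d} {F : Polynomial ℝ}
    (hnum : num i = Polynomial.aeval (MvPolynomial.X i) F) (hden : den i = 1)
    (h : AsymPeriodic (fun n => x n i)) : ∃ p > 0, TameCoord num den x p i := by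
  classical
  have hu : ∀ n, x (n + 1) i = F.eval (x n i) := by
    intro n
    rw [(hx n i).2, hnum, hden, eval_aeval_X, map_one, div_one]
  obtain ⟨P, hP, hsig⟩ := h.signs hu
  refine ⟨P, hP, ?_⟩
  set lin : ℝ → MvPolynomial (Fin d) ℝ := fun c => MvPolynomial.X i - MvPolynomial.C c with hlin
  have hd1 : ∀ c, MvPolynomial.pderiv i (lin c) = 1 := by
    intro c
    rw [hlin]
    simp
  have hdj : ∀ c (j : ℕ), Below i ((MvPolynomial.pderiv i)^[j + 1] (lin c)) := by
    intro c j
    rw [Function.iterate_succ_apply, hd1]
    rcases j with _ | j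
    · intro k hk
      simp at hk
    · rw [Function.iterate_succ_apply]
      have h1 : MvPolynomial.pderiv i (1 : MvPolynomial (Fin d) ℝ) = 0 := by simp
      have h2 : ∀ j : ℕ, (MvPolynomial.pderiv i)^[j] (0 : MvPolynomial (Fin d) ℝ) = 0 := by
        intro j
        induction j with
        | zero => rfl
        | succ j ih => rw [Function.iterate_succ_apply', ih, map_zero]
      rw [h1, h2]
      intro k hk
      simp at hk
  refine ⟨(Polynomial.derivative F).roots.toFinset.image lin, ?_, ?_, 0, fun n _ => ⟨?_, ?_⟩⟩
  · intro V hV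
    obtain ⟨c, _, rfl⟩ := Finset.mem_image.1 hV
    intro j hj
    have h1 := MvPolynomial.vars_sub_subset _ hj
    rw [MvPolynomial.vars_X, MvPolynomial.vars_C, Finset.union_empty, Finset.mem_singleton] at h1
    exact h1.le
  · intro V hV j
    obtain ⟨c, _, rfl⟩ := Finset.mem_image.1 hV
    rcases j with _ | j
    · right
      obtain ⟨n₀, hn₀⟩ := eventually_atTop.1 (hsig c)
      refine ⟨n₀, fun n hn => ?_⟩
      simp only [Function.iterate_zero, id, hlin, map_sub, MvPolynomial.eval_X,
        MvPolynomial.eval_C]
      exact hn₀ n hn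
    · left
      exact hdj c j
  · intro t _
    rw [hden, map_one]
    exact one_ne_zero
  · have hfib : fibre num den i (x n) = fun t => F.eval t := by
      funext t
      rw [fibre, hnum, hden, eval_aeval_X, map_one, div_one, Function.update_self]
    rw [hfib]
    have hcell : ∀ t ∈ cell i ((Polynomial.derivative F).roots.toFinset.image lin) (x n),
        ∀ c ∈ (Polynomial.derivative F).roots.toFinset,
          SignType.sign (t - c) = SignType.sign (x n i - c) := by
      intro t ht c hc
      have := ht (lin c) (Finset.mem_image_of_mem _ hc) 0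
      simpa [hlin] using this
    by_cases hF0 : Polynomial.derivative F = 0
    · right; right
      intro t _ t' _
      have h0 : F.natDegree = 0 := Polynomial.derivative_eq_zero.1 hF0
      rw [Polynomial.eq_C_of_natDegree_eq_zero h0]
      simp
    by_cases hxr : (Polynomial.derivative F).eval (x n i) = 0
    · left
      have hone : ∀ t ∈ cell i ((Polynomial.derivative F).roots.toFinset.image lin) (x n),
          t = x n i := by
        intro t ht
        have := hcell t ht (x n i) (Multiset.mem_toFinset.2 ((Polynomial.mem_roots hF0).2 hxr))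
        rw [sub_self, sign_zero, sign_eq_zero_iff, sub_eq_zero] at this
        exact this
      intro t ht t' ht' htt
      rw [hone t ht, hone t' ht'] at htt
      exact absurd htt (lt_irrefl _)
    · have hc1 : crit F 1 = Polynomial.derivative F := by simp [crit]
      have hsub : cell i ((Polynomial.derivative F).roots.toFinset.image lin) (x n) ⊆
          lap (crit F 1) (x n i) := by
        intro t ht s hs hs0
        rw [hc1] at hs0
        have h1 := hcell t ht s (Multiset.mem_toFinset.2 ((Polynomial.mem_roots hF0).2 hs0))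
        have hsx : s ≠ x n i := by
          rintro rfl
          exact hxr hs0
        rw [Set.mem_uIcc] at hs
        rcases lt_or_gt_of_ne hsx with h2 | h2
        · rw [sign_pos (sub_pos.2 h2), sign_eq_one_iff] at h1
          rcases hs with h3 | h3 <;> linarith [h3.1, h3.2]
        · rw [sign_neg (sub_neg.2 h2), sign_eq_neg_one_iff] at h1
          rcases hs with h3 | h3 <;> linarith [h3.1, h3.2]
      have hty : HasType (cell i ((Polynomial.derivative F).roots.toFinset.image lin) (x n))
          (SignType.sign ((wr F 1).eval (x n i))) (fun t => F.eval t) := by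
        intro t ht t' ht'
        have := lap_hasType F 1 (x n i) t (hsub ht) t' (hsub ht')
        simpa using this
      exact of_hasType hty

/-! ## Transport to subfields of the real numbers -/

section transport

variable {K : Type*} [Field K] (τ : K →+* ℝ)

lemma eval_map_tau (v : Fin d → K) (p : MvPolynomial (Fin d) K) :
    MvPolynomial.eval (fun i => τ (v i)) (MvPolynomial.map τ p) = τ (MvPolynomial.eval v p) := by
  rw [MvPolynomial.eval_map]
  exact (MvPolynomial.eval₂_comp (f := τ) (g := v) (p := p)).symm

lemma IsOrbit.map {num den : Fin d → MvPolynomial (Fin d) K} {x : ℕ → Fin d → K}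
    (hx : IsOrbit num den x) :
    IsOrbit (fun i => MvPolynomial.map τ (num i)) (fun i => MvPolynomial.map τ (den i))
      (fun n i => τ (x n i)) := by
  intro n i
  rw [eval_map_tau, eval_map_tau]
  refine ⟨(map_ne_zero τ).2 (hx n i).1, ?_⟩
  show τ (x (n + 1) i) = _
  rw [(hx n i).2, map_div₀]

lemma UpTo.map {i : Fin d} {p : MvPolynomial (Fin d) K} (h : UpTo i p) :
    UpTo i (MvPolynomial.map τ p) := fun j hj => h j (MvPolynomial.vars_map p τ hj)

lemma Below.map {i : Fin d} {p : MvPolynomial (Fin d) K} (h : Below i p) :
    Below i (MvPolynomial.map τ p) := fun j hj => h j (MvPolynomial.vars_map p τ hj)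

/-- the `i`-th component is a polynomial `F` in the `i`-th coordinate alone; the `i`-th coordinate
of the orbit is asymptotically periodic, or `F` and the initial coordinate are integral -/
def SplitCoord (τ : K →+* ℝ) (num den : Fin d → MvPolynomial (Fin d) K) (x : ℕ → Fin d → K)
    (i : Fin d) : Prop :=
  ∃ F : Polynomial K, num i = Polynomial.aeval (MvPolynomial.X i) F ∧ den i = 1 ∧
    (AsymPeriodic (fun n => τ (x n i)) ∨
      ((∃ G : Polynomial ℤ, F = G.map (Int.castRingHom K)) ∧ ∃ z : ℤ, x 0 i = z))

/-- the signs (for the ordering given by `τ`) of all polynomials over `K` along `x` are eventually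
periodic with period `m` -/
def SignPeriodicAt (τ : K →+* ℝ) (m : ℕ) (x : ℕ → Fin d → K) : Prop :=
  ∀ P : MvPolynomial (Fin d) K, ∃ n₀, ∀ n ≥ n₀,
    SignType.sign (τ (MvPolynomial.eval (x (n + m)) P)) =
      SignType.sign (τ (MvPolynomial.eval (x n) P))

variable {τ}

lemma SignPeriodic.at {m : ℕ} {x : ℕ → Fin d → K} (h : SignPeriodic m fun n i => τ (x n i)) :
    SignPeriodicAt τ m x := by
  intro P
  obtain ⟨n₀, hn₀⟩ := h (MvPolynomial.map τ P)
  refine ⟨n₀, fun n hn => ?_⟩
  have := hn₀ n hn
  rwa [eval_map_tau, eval_map_tau] at this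

lemma SignPeriodicAt.hyp {m : ℕ} {x : ℕ → Fin d → K} (h : SignPeriodicAt τ m x) :
    HypPeriodic m x := by
  intro P
  obtain ⟨n₀, hn₀⟩ := h P
  refine ⟨n₀, fun n hn => ?_⟩
  have h1 := hn₀ n hn
  have h2 : ∀ a : K, a = 0 ↔ SignType.sign (τ a) = 0 := by
    intro a
    rw [sign_eq_zero_iff, map_eq_zero]
  rw [h2, h2, h1]

lemma map_aeval_X (i : Fin d) (F : Polynomial K) : MvPolynomial.map τ
    (Polynomial.aeval (MvPolynomial.X i : MvPolynomial (Fin d) K) F) =
      Polynomial.aeval (MvPolynomial.X i : MvPolynomial (Fin d) ℝ) (F.map τ) := by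
  induction F using Polynomial.induction_on' with
  | add p q hp hq =>
    rw [map_add, map_add, Polynomial.map_add, map_add, hp, hq]
  | monomial k c =>
    rw [Polynomial.aeval_monomial, Polynomial.map_monomial, Polynomial.aeval_monomial, map_mul,
      map_pow, MvPolynomial.map_X, MvPolynomial.algebraMap_eq, MvPolynomial.algebraMap_eq,
      MvPolynomial.map_C]

lemma AffineCoord.map {num den : Fin d → MvPolynomial (Fin d) K} {i : Fin d}
    (h : AffineCoord num den i) : AffineCoord (fun i => MvPolynomial.map τ (num i))
      (fun i => MvPolynomial.map τ (den i)) i := by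
  obtain ⟨A, B, hA, hB, hD, hnum⟩ := h
  refine ⟨MvPolynomial.map τ A, MvPolynomial.map τ B, hA.map τ, hB.map τ, hD.map τ, ?_⟩
  beta_reduce
  rw [hnum]
  simp

lemma SplitCoord.tame {num den : Fin d → MvPolynomial (Fin d) K} {x : ℕ → Fin d → K}
    (hx : IsOrbit num den x) {i : Fin d} (h : SplitCoord τ num den x i) :
    ∃ p > 0, TameCoord (fun i => MvPolynomial.map τ (num i))
      (fun i => MvPolynomial.map τ (den i)) (fun n i => τ (x n i)) p i := by
  obtain ⟨F, hnum, hden, h⟩ := h
  have hasym : AsymPeriodic (fun n => τ (x n i)) := by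
    rcases h with h | ⟨⟨G, hG⟩, z, hz⟩
    · exact h
    · have h1 : ∀ n, x n i = (((fun a => G.eval a)^[n] z : ℤ) : K) := by
        intro n
        induction n with
        | zero => exact hz
        | succ n ih =>
          rw [Function.iterate_succ_apply', (hx n i).2, hnum, hden, eval_aeval_X, map_one,
            div_one, ih, hG]
          rw [Polynomial.eval_intCast_map]
          simp
      have h2 := asymPeriodic_int (z := fun n => (fun a => G.eval a)^[n] z) (F := G)
        (fun n => Function.iterate_succ_apply' _ _ _)
      have h3 : (fun n => τ (x n i)) = fun n => (((fun a => G.eval a)^[n] z : ℤ) : ℝ) := by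
        funext n
        rw [h1, map_intCast]
      rw [h3]
      exact h2
  refine tame_of_asym (hx.map τ) (F := F.map τ) ?_ ?_ hasym
  · rw [hnum, map_aeval_X]
  · rw [hden, map_one]

/-- **main theorem** -/
theorem main_theorem {num den : Fin d → MvPolynomial (Fin d) K} {x : ℕ → Fin d → K}
    (hx : IsOrbit num den x) (hnum : ∀ i, UpTo i (num i)) (hden : ∀ i, UpTo i (den i))
    (h : ∀ i, AffineCoord num den i ∨ SplitCoord τ num den x i ∨
      ∃ p > 0, TameCoord (fun i => MvPolynomial.map τ (num i))
        (fun i => MvPolynomial.map τ (den i)) (fun n i => τ (x n i)) p i)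
    (L : Type*) [Field L] [Algebra K L] :
    ∃ p > 0, ((∀ i, AffineCoord num den i) → p = 1) ∧ SignPeriodicAt τ (2 ^ d * p) x ∧
      DML L (2 ^ d * p) x ∧ (IrredClosure L x → GenericInClosure L x) := by
  have key : ∃ p > 0, ((∀ i, AffineCoord num den i) → p = 1) ∧
      SignPeriodicAt τ (2 ^ d * p) x := by
    by_cases haff : ∀ i, AffineCoord num den i
    · refine ⟨1, one_pos, fun _ => rfl, ?_⟩
      exact (signPeriodic_triangular (hx.map τ) (fun i => (hnum i).map τ)
        (fun i => (hden i).map τ) one_pos fun i => ((haff i).map (τ := τ)).tame (hx.map τ)).at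
    · have h1 : ∀ i, ∃ p > 0, TameCoord (fun i => MvPolynomial.map τ (num i))
          (fun i => MvPolynomial.map τ (den i)) (fun n i => τ (x n i)) p i := by
        intro i
        rcases h i with h | h | h
        · exact ⟨1, one_pos, (h.map (τ := τ)).tame (hx.map τ)⟩
        · exact h.tame hx
        · exact h
      choose p hp h2 using h1
      have hprod : 0 < ∏ i, p i := Finset.prod_pos fun i _ => hp i
      refine ⟨∏ i, p i, hprod, fun h => absurd h haff, ?_⟩
      exact (signPeriodic_triangular (hx.map τ) (fun i => (hnum i).map τ)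
        (fun i => (hden i).map τ) hprod fun i =>
          (h2 i).mul (Finset.dvd_prod_of_mem p (Finset.mem_univ i))).at
  obtain ⟨p, hp, h1, h2⟩ := key
  have hm : 0 < 2 ^ d * p := by positivity
  exact ⟨p, hp, h1, h2, h2.hyp.dml, fun hirr => h2.hyp.generic hx hm hirr⟩

end transport

end Pool.Agent.Lib.MP_f4ff90_ag
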