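import Mathlib

/-!
# MP_f4ff90_ag : orbits of rational self-maps of affine space, zero sets and genericity

The map and the orbit are defined over a field `K`, the subvarieties over an extension `L`.
-/

set_option autoImplicit false

open Filter

namespace Pool.Agent.Lib.MP_f4ff90_ag

variable {d : ℕ} {K L : Type*} [Field K] [Field L] [Algebra K L]

/-- the point `v` of `K ^ d` as a point of `L ^ d` -/
def toL (L : Type*) [Field L] [Algebra K L] (v : Fin d → K) : Fin d → L :=
  fun i => algebraMap K L (v i)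

/-- `x` is an orbit of the rational self-map with components `num i / den i` -/
def IsOrbit (num den : Fin d → MvPolynomial (Fin d) K) (x : ℕ → Fin d → K) : Prop :=
  ∀ n i, MvPolynomial.eval (x n) (den i) ≠ 0 ∧
    x (n + 1) i = MvPolynomial.eval (x n) (num i) / MvPolynomial.eval (x n) (den i)

/-- Zariski closed subsets of `L ^ d` -/
def ZClosed (Y : Set (Fin d → L)) : Prop :=
  ∃ T : Set (MvPolynomial (Fin d) L), Y = {z | ∀ P ∈ T, MvPolynomial.eval z P = 0}

/-- the return sets of `x` to all Zariski closed subsets of `L ^ d` are eventually periodic with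
period `m` -/
def DML (L : Type*) [Field L] [Algebra K L] (m : ℕ) (x : ℕ → Fin d → K) : Prop :=
  ∀ Y : Set (Fin d → L), ZClosed Y → ∃ n₀, ∀ n ≥ n₀, (toL L (x (n + m)) ∈ Y ↔ toL L (x n) ∈ Y)

/-- the Zariski closure of `x` is irreducible -/
def IrredClosure (L : Type*) [Field L] [Algebra K L] (x : ℕ → Fin d → K) : Prop :=
  ∀ Y₁ Y₂ : Set (Fin d → L), ZClosed Y₁ → ZClosed Y₂ → (∀ n, toL L (x n) ∈ Y₁ ∪ Y₂) →
    (∀ n, toL L (x n) ∈ Y₁) ∨ ∀ n, toL L (x n) ∈ Y₂

/-- `x` is generic in its Zariski closure -/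
def GenericInClosure (L : Type*) [Field L] [Algebra K L] (x : ℕ → Fin d → K) : Prop :=
  ∀ Y : Set (Fin d → L), ZClosed Y → (∃ n, toL L (x n) ∉ Y) → {n | toL L (x n) ∈ Y}.Finite

/-- `x` is Zariski dense in affine space -/
def ZDense (L : Type*) [Field L] [Algebra K L] (x : ℕ → Fin d → K) : Prop :=
  ∀ Y : Set (Fin d → L), ZClosed Y → (∀ n, toL L (x n) ∈ Y) → Y = Set.univ

/-- `x` is generic in affine space -/
def ZGeneric (L : Type*) [Field L] [Algebra K L] (x : ℕ → Fin d → K) : Prop :=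
  ∀ Y : Set (Fin d → L), ZClosed Y → Y ≠ Set.univ → {n | toL L (x n) ∈ Y}.Finite

/-! ## Polynomials over `L` on points over `K` -/

lemma eval_toL (v : Fin d → K) (p : MvPolynomial (Fin d) K) :
    MvPolynomial.eval (toL L v) (MvPolynomial.map (algebraMap K L) p) =
      algebraMap K L (MvPolynomial.eval v p) := by
  rw [MvPolynomial.eval_map]
  exact (MvPolynomial.eval₂_comp (f := algebraMap K L) (g := v) (p := p)).symm

open Classical in
lemma exists_components (P : MvPolynomial (Fin d) L) :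
    ∃ Q : Module.Basis.ofVectorSpaceIndex K L →₀ MvPolynomial (Fin d) K,
      P = Q.sum fun b q => MvPolynomial.C (Module.Basis.ofVectorSpace K L b) *
        MvPolynomial.map (algebraMap K L) q := by
  set B := Module.Basis.ofVectorSpace K L with hB
  have hadd : ∀ Q Q' : Module.Basis.ofVectorSpaceIndex K L →₀ MvPolynomial (Fin d) K,
      ((Q + Q').sum fun b q => MvPolynomial.C (B b) * MvPolynomial.map (algebraMap K L) q) =
        (Q.sum fun b q => MvPolynomial.C (B b) * MvPolynomial.map (algebraMap K L) q) +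
          Q'.sum fun b q => MvPolynomial.C (B b) * MvPolynomial.map (algebraMap K L) q := by
    intro Q Q'
    refine Finsupp.sum_add_index' (fun b => by simp) (fun b q q' => ?_)
    rw [map_add, mul_add]
  induction P using MvPolynomial.induction_on with
  | C z =>
    refine ⟨(B.repr z).mapRange MvPolynomial.C (map_zero _), ?_⟩
    rw [Finsupp.sum_mapRange_index (by intro b; simp)]
    conv_lhs => rw [← B.linearCombination_repr z, Finsupp.linearCombination_apply]
    rw [Finsupp.sum, map_sum, Finsupp.sum]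
    refine Finset.sum_congr rfl fun b _ => ?_
    rw [MvPolynomial.map_C, ← map_mul, Algebra.smul_def, mul_comm]
  | add P P' hP hP' =>
    obtain ⟨Q, hQ⟩ := hP
    obtain ⟨Q', hQ'⟩ := hP'
    exact ⟨Q + Q', by rw [hadd, ← hQ, ← hQ']⟩
  | mul_X P i hP =>
    obtain ⟨Q, hQ⟩ := hP
    refine ⟨Q.mapRange (fun q => q * MvPolynomial.X i) (zero_mul _), ?_⟩
    rw [Finsupp.sum_mapRange_index (by intro b; simp)]
    conv_lhs => rw [hQ]
    rw [Finsupp.sum_mul]
    refine Finset.sum_congr rfl fun b _ => ?_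
    beta_reduce
    rw [map_mul, MvPolynomial.map_X, mul_assoc]

/-- a hypersurface over `L` is, on `K ^ d`, a finite intersection of hypersurfaces over `K` -/
lemma exists_finite_components (P : MvPolynomial (Fin d) L) :
    ∃ s : Finset (MvPolynomial (Fin d) K), ∀ v : Fin d → K,
      (MvPolynomial.eval (toL L v) P = 0 ↔ ∀ q ∈ s, MvPolynomial.eval v q = 0) := by
  classical
  obtain ⟨Q, hQ⟩ := exists_components (K := K) P
  refine ⟨Q.support.image Q, fun v => ?_⟩
  set B := Module.Basis.ofVectorSpace K L with hB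
  have h1 : MvPolynomial.eval (toL L v) P =
      ∑ b ∈ Q.support, MvPolynomial.eval v (Q b) • B b := by
    conv_lhs => rw [hQ]
    rw [Finsupp.sum, map_sum]
    refine Finset.sum_congr rfl fun b _ => ?_
    rw [map_mul, MvPolynomial.eval_C, eval_toL, Algebra.smul_def, mul_comm]
  rw [h1]
  constructor
  · intro h q hq
    obtain ⟨b, hb, rfl⟩ := Finset.mem_image.1 hq
    exact linearIndependent_iff'.1 B.linearIndependent Q.support _ h b hb
  · intro h
    refine Finset.sum_eq_zero fun b hb => ?_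
    rw [h _ (Finset.mem_image_of_mem _ hb), zero_smul]

/-- the return sets to hypersurfaces over `K` are eventually periodic -/
def HypPeriodic (m : ℕ) (x : ℕ → Fin d → K) : Prop :=
  ∀ P : MvPolynomial (Fin d) K, ∃ n₀, ∀ n ≥ n₀,
    (MvPolynomial.eval (x (n + m)) P = 0 ↔ MvPolynomial.eval (x n) P = 0)

lemma HypPeriodic.ext {m : ℕ} {x : ℕ → Fin d → K} (h : HypPeriodic m x)
    (P : MvPolynomial (Fin d) L) : ∃ n₀, ∀ n ≥ n₀,
    (MvPolynomial.eval (toL L (x (n + m))) P = 0 ↔ MvPolynomial.eval (toL L (x n)) P = 0) := by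
  obtain ⟨s, hs⟩ := exists_finite_components (K := K) P
  choose n₀ hn₀ using h
  refine ⟨s.sup n₀, fun n hn => ?_⟩
  rw [hs, hs]
  exact forall₂_congr fun q hq => hn₀ q n ((Finset.le_sup hq).trans hn)

lemma HypPeriodic.dml {m : ℕ} {x : ℕ → Fin d → K} (h : HypPeriodic m x) : DML L m x := by
  rintro Y ⟨T, rfl⟩
  obtain ⟨s, hs⟩ := (IsNoetherian.noetherian (Ideal.span T) : (Ideal.span T).FG)
  have hiff : ∀ z : Fin d → L, (∀ P ∈ T, MvPolynomial.eval z P = 0) ↔
      ∀ P ∈ s, MvPolynomial.eval z P = 0 := by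
    intro z
    have h1 : (∀ P ∈ T, MvPolynomial.eval z P = 0) ↔
        Ideal.span T ≤ RingHom.ker (MvPolynomial.eval z) := by
      rw [Ideal.span_le]
      exact Iff.rfl
    have h2 : (∀ P ∈ s, MvPolynomial.eval z P = 0) ↔
        Ideal.span (s : Set (MvPolynomial (Fin d) L)) ≤ RingHom.ker (MvPolynomial.eval z) := by
      rw [Ideal.span_le]
      exact Iff.rfl
    have h3 : Ideal.span (s : Set (MvPolynomial (Fin d) L)) = Ideal.span T := hs
    rw [h1, h2, h3]
  choose n₀ hn₀ using h.ext (L := L)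
  refine ⟨s.sup n₀, fun n hn => ?_⟩
  show (∀ P ∈ T, _) ↔ (∀ P ∈ T, _)
  rw [hiff, hiff]
  exact forall₂_congr fun P hP => hn₀ P n ((Finset.le_sup hP).trans hn)

/-! ## Pull-backs -/

lemma exists_pullback {num den : Fin d → MvPolynomial (Fin d) K} {x : ℕ → Fin d → K}
    (hx : IsOrbit num den x) (P : MvPolynomial (Fin d) L) :
    ∃ P' : MvPolynomial (Fin d) L, ∀ n,
      (MvPolynomial.eval (toL L (x n)) P' = 0 ↔ MvPolynomial.eval (toL L (x (n + 1))) P = 0) := by
  set Δ : MvPolynomial (Fin d) L := ∏ j, MvPolynomial.map (algebraMap K L) (den j) with hΔ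
  have hΔ0 : ∀ n, MvPolynomial.eval (toL L (x n)) Δ ≠ 0 := by
    intro n
    rw [hΔ, map_prod, Finset.prod_ne_zero_iff]
    intro j _
    rw [eval_toL]
    exact (map_ne_zero _).2 (hx n j).1
  have key : ∃ (P' : MvPolynomial (Fin d) L) (E : ℕ), ∀ n,
      MvPolynomial.eval (toL L (x n)) P' =
        MvPolynomial.eval (toL L (x (n + 1))) P * MvPolynomial.eval (toL L (x n)) Δ ^ E := by
    induction P using MvPolynomial.induction_on with
    | C z => exact ⟨MvPolynomial.C z, 0, fun n => by simp⟩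
    | add P Q hP hQ =>
      obtain ⟨P', E, h⟩ := hP
      obtain ⟨Q', E', h'⟩ := hQ
      refine ⟨P' * Δ ^ E' + Q' * Δ ^ E, E + E', fun n => ?_⟩
      rw [map_add, map_mul, map_mul, map_pow, map_pow, h, h', map_add, pow_add]
      ring
    | mul_X P i hP =>
      obtain ⟨P', E, h⟩ := hP
      refine ⟨P' * (MvPolynomial.map (algebraMap K L) (num i) *
        ∏ j ∈ Finset.univ.erase i, MvPolynomial.map (algebraMap K L) (den j)), E + 1,
        fun n => ?_⟩
      have h1 : MvPolynomial.eval (toL L (x n)) Δ =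
          algebraMap K L (MvPolynomial.eval (x n) (den i)) *
            MvPolynomial.eval (toL L (x n))
              (∏ j ∈ Finset.univ.erase i, MvPolynomial.map (algebraMap K L) (den j)) := by
        rw [hΔ, ← Finset.mul_prod_erase Finset.univ _ (Finset.mem_univ i), map_mul, eval_toL]
      have h2 : toL L (x (n + 1)) i = algebraMap K L (MvPolynomial.eval (x n) (num i)) /
          algebraMap K L (MvPolynomial.eval (x n) (den i)) := by
        rw [toL, (hx n i).2, map_div₀]
      have h3 : algebraMap K L (MvPolynomial.eval (x n) (den i)) ≠ 0 :=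
        (map_ne_zero _).2 (hx n i).1
      rw [map_mul, map_mul, h, eval_toL, map_mul, MvPolynomial.eval_X, h2, pow_succ, h1]
      field_simp
  obtain ⟨P', E, h⟩ := key
  refine ⟨P', fun n => ?_⟩
  rw [h, mul_eq_zero, or_iff_left (pow_ne_zero _ (hΔ0 n))]

lemma exists_pullbacks {num den : Fin d → MvPolynomial (Fin d) K} {x : ℕ → Fin d → K}
    (hx : IsOrbit num den x) (P : MvPolynomial (Fin d) L) (j : ℕ) :
    ∃ P' : MvPolynomial (Fin d) L, ∀ n,
      (MvPolynomial.eval (toL L (x n)) P' = 0 ↔ MvPolynomial.eval (toL L (x (n + j))) P = 0) := by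
  induction j with
  | zero => exact ⟨P, fun n => Iff.rfl⟩
  | succ j ih =>
    obtain ⟨Q, hQ⟩ := ih
    obtain ⟨Q', hQ'⟩ := exists_pullback hx Q
    refine ⟨Q', fun n => ?_⟩
    rw [hQ', hQ, show n + 1 + j = n + (j + 1) by ring]

/-- irreducibility in terms of polynomials -/
lemma IrredClosure.mul {x : ℕ → Fin d → K} (h : IrredClosure L x)
    {P Q : MvPolynomial (Fin d) L}
    (hPQ : ∀ n, MvPolynomial.eval (toL L (x n)) P = 0 ∨ MvPolynomial.eval (toL L (x n)) Q = 0) :
    (∀ n, MvPolynomial.eval (toL L (x n)) P = 0) ∨ ∀ n, MvPolynomial.eval (toL L (x n)) Q = 0 :=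
  h {z | MvPolynomial.eval z P = 0} {z | MvPolynomial.eval z Q = 0}
    ⟨{P}, by ext z; simp⟩ ⟨{Q}, by ext z; simp⟩ hPQ

lemma IrredClosure.list {x : ℕ → Fin d → K} (h : IrredClosure L x) :
    ∀ T : List (MvPolynomial (Fin d) L),
      (∀ n, ∃ P ∈ T, MvPolynomial.eval (toL L (x n)) P = 0) →
        ∃ P ∈ T, ∀ n, MvPolynomial.eval (toL L (x n)) P = 0
  | [], hT => by simpa using hT 0
  | P :: T, hT => by
    have h1 : (∀ n, MvPolynomial.eval (toL L (x n)) P = 0) ∨
        ∀ n, MvPolynomial.eval (toL L (x n)) T.prod = 0 := by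
      refine h.mul fun n => ?_
      obtain ⟨Q, hQ, hQ0⟩ := hT n
      rcases List.mem_cons.1 hQ with rfl | hQ
      · exact Or.inl hQ0
      · right
        rw [map_list_prod, List.prod_eq_zero_iff]
        exact List.mem_map.2 ⟨Q, hQ, hQ0⟩
    rcases h1 with h1 | h1
    · exact ⟨P, by simp, h1⟩
    · obtain ⟨Q, hQ, hQ0⟩ := IrredClosure.list h T (by
        intro n
        have h2 := h1 n
        rw [map_list_prod, List.prod_eq_zero_iff] at h2
        obtain ⟨Q, hQ, hQ0⟩ := List.mem_map.1 h2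
        exact ⟨Q, hQ, hQ0⟩)
      exact ⟨Q, List.mem_cons_of_mem _ hQ, hQ0⟩

/-- a polynomial which vanishes on a tail of the orbit vanishes on the orbit -/
lemma IrredClosure.tail {x : ℕ → Fin d → K} (h : IrredClosure L x)
    (hne : ∀ k, ∃ n, x n ≠ x k) {Q : MvPolynomial (Fin d) L} {n₁ : ℕ}
    (hQ : ∀ n ≥ n₁, MvPolynomial.eval (toL L (x n)) Q = 0) :
    ∀ n, MvPolynomial.eval (toL L (x n)) Q = 0 := by
  have h1 : ∀ k, ∃ (n : ℕ) (i : Fin d), x n i ≠ x k i := by
    intro k
    obtain ⟨n, hn⟩ := hne k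
    obtain ⟨i, hi⟩ := Function.ne_iff.1 hn
    exact ⟨n, i, hi⟩
  choose N i hi using h1
  let Lk : ℕ → MvPolynomial (Fin d) L := fun k =>
    MvPolynomial.X (i k) - MvPolynomial.C (algebraMap K L (x k (i k)))
  obtain ⟨P, hP, hP0⟩ := h.list (Q :: (List.range n₁).map Lk) (by
    intro n
    by_cases hn : n₁ ≤ n
    · exact ⟨Q, by simp, hQ n hn⟩
    · refine ⟨Lk n, List.mem_cons_of_mem _ (List.mem_map.2 ⟨n, List.mem_range.2 (by omega), rfl⟩),
        ?_⟩
      simp [Lk, toL])
  rcases List.mem_cons.1 hP with rfl | hP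
  · exact hP0
  · obtain ⟨k, _, rfl⟩ := List.mem_map.1 hP
    have h2 := hP0 (N k)
    simp only [Lk, map_sub, MvPolynomial.eval_X, MvPolynomial.eval_C, toL, sub_eq_zero] at h2
    exact absurd ((algebraMap K L).injective h2) (hi k)

/-- **irreducible closure and periodic return sets imply genericity** -/
theorem HypPeriodic.generic {num den : Fin d → MvPolynomial (Fin d) K} {x : ℕ → Fin d → K}
    (hx : IsOrbit num den x) {m : ℕ} (hm : 0 < m) (h : HypPeriodic m x)
    (hirr : IrredClosure L x) : GenericInClosure L x := by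
  rintro Y ⟨T, rfl⟩ ⟨n', hn'⟩
  have hn'2 : ∃ P ∈ T, MvPolynomial.eval (toL L (x n')) P ≠ 0 := by
    by_contra hcon
    push Not at hcon
    exact hn' hcon
  obtain ⟨P, hPT, hP⟩ := hn'2
  suffices hfin : {n | MvPolynomial.eval (toL L (x n)) P = 0}.Finite by
    refine hfin.subset ?_
    intro n hn
    have hn2 : ∀ P ∈ T, MvPolynomial.eval (toL L (x n)) P = 0 := hn
    exact hn2 P hPT
  by_contra hinf
  have hinf' : {n | MvPolynomial.eval (toL L (x n)) P = 0}.Infinite := hinf
  obtain ⟨n₀, hn₀⟩ := h.ext P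
  obtain ⟨n₁, hn₁, hn₁'⟩ := hinf'.exists_gt n₀
  have hn₁0 : MvPolynomial.eval (toL L (x n₁)) P = 0 := hn₁
  have hAP : ∀ k, MvPolynomial.eval (toL L (x (n₁ + k * m))) P = 0 := by
    intro k
    induction k with
    | zero => simpa using hn₁0
    | succ k ih =>
      have := (hn₀ (n₁ + k * m) (by nlinarith [Nat.zero_le (k * m)])).2 ih
      rwa [show n₁ + k * m + m = n₁ + (k + 1) * m by ring] at this
  have hne : ∀ k, ∃ n, x n ≠ x k := by
    intro k
    by_contra hcon
    push Not at hcon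
    rw [hcon n', ← hcon n₁] at hP
    exact hP hn₁0
  choose Pj hPj using exists_pullbacks hx P
  have htail : ∀ n ≥ n₁, MvPolynomial.eval (toL L (x n)) ((List.range m).map Pj).prod = 0 := by
    intro n hn
    -- some `j < m` with `n + j ≡ n₁`
    obtain ⟨j, hj, k, hk⟩ : ∃ j < m, ∃ k, n + j = n₁ + k * m := by
      refine ⟨(m - (n - n₁) % m) % m, Nat.mod_lt _ hm, ?_⟩
      have h1 : (n - n₁ + (m - (n - n₁) % m) % m) % m = 0 := by
        rw [Nat.add_mod, Nat.mod_mod]
        have h2 : (n - n₁) % m < m := Nat.mod_lt _ hm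
        rcases Nat.eq_zero_or_pos ((n - n₁) % m) with h3 | h3
        · rw [h3]; simp
        · rw [Nat.mod_eq_of_lt (show m - (n - n₁) % m < m by omega),
            Nat.add_sub_cancel' h2.le, Nat.mod_self]
      obtain ⟨k, hk⟩ := Nat.dvd_of_mod_eq_zero h1
      exact ⟨k, by rw [mul_comm k m, ← hk]; omega⟩
    rw [map_list_prod, List.prod_eq_zero_iff]
    refine List.mem_map.2 ⟨Pj j, List.mem_map.2 ⟨j, List.mem_range.2 hj, rfl⟩, ?_⟩
    rw [hPj, hk]
    exact hAP k
  have hall := hirr.tail hne htail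
  obtain ⟨Q, hQ, hQ0⟩ := hirr.list ((List.range m).map Pj) (by
    intro n
    have h2 := hall n
    rw [map_list_prod, List.prod_eq_zero_iff] at h2
    obtain ⟨Q, hQ, hQ0⟩ := List.mem_map.1 h2
    exact ⟨Q, hQ, hQ0⟩)
  obtain ⟨j, _, rfl⟩ := List.mem_map.1 hQ
  have h3 : ∀ n ≥ j, MvPolynomial.eval (toL L (x n)) P = 0 := by
    intro n hn
    have := (hPj j (n - j)).1 (hQ0 _)
    rwa [Nat.sub_add_cancel hn] at this
  exact hP (hirr.tail hne h3 n')

/-- Zariski dense orbits have irreducible closure -/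
lemma ZDense.irred [Infinite L] {x : ℕ → Fin d → K} (h : ZDense L x) : IrredClosure L x := by
  have hP0 : ∀ P : MvPolynomial (Fin d) L, (∀ n, MvPolynomial.eval (toL L (x n)) P = 0) →
      P = 0 := by
    intro P hP
    have h1 := h {z | MvPolynomial.eval z P = 0} ⟨{P}, by ext z; simp⟩ hP
    refine MvPolynomial.funext fun z => ?_
    have h2 : z ∈ {z | MvPolynomial.eval z P = 0} := by rw [h1]; exact Set.mem_univ z
    rw [map_zero]
    exact h2
  rintro Y₁ Y₂ ⟨T₁, rfl⟩ ⟨T₂, rfl⟩ hY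
  by_contra hcon
  push Not at hcon
  obtain ⟨⟨n₁, h1⟩, ⟨n₂, h2⟩⟩ := hcon
  have h1' : ∃ P ∈ T₁, MvPolynomial.eval (toL L (x n₁)) P ≠ 0 := by
    by_contra hc
    push Not at hc
    exact h1 hc
  have h2' : ∃ P ∈ T₂, MvPolynomial.eval (toL L (x n₂)) P ≠ 0 := by
    by_contra hc
    push Not at hc
    exact h2 hc
  obtain ⟨P₁, hP₁, h1⟩ := h1'
  obtain ⟨P₂, hP₂, h2⟩ := h2'
  have h3 : P₁ * P₂ = 0 := by
    refine hP0 _ fun n => ?_
    rw [map_mul]
    rcases hY n with h | h
    · have h' : ∀ P ∈ T₁, MvPolynomial.eval (toL L (x n)) P = 0 := h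
      rw [h' P₁ hP₁, zero_mul]
    · have h' : ∀ P ∈ T₂, MvPolynomial.eval (toL L (x n)) P = 0 := h
      rw [h' P₂ hP₂, mul_zero]
  rcases mul_eq_zero.1 h3 with h4 | h4
  · rw [h4, map_zero] at h1; exact h1 rfl
  · rw [h4, map_zero] at h2; exact h2 rfl

/-- dense orbits with periodic return sets are generic -/
theorem ZDense.generic [Infinite L] {num den : Fin d → MvPolynomial (Fin d) K}
    {x : ℕ → Fin d → K} (hx : IsOrbit num den x) {m : ℕ} (hm : 0 < m) (h : HypPeriodic m x)
    (hd : ZDense L x) : ZGeneric L x := by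
  intro Y hY hne
  refine h.generic hx hm hd.irred Y hY ?_
  by_contra hcon
  push Not at hcon
  exact hne (hd Y hY hcon)

end Pool.Agent.Lib.MP_f4ff90_ag
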