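import Pool.Agent.Lib.MP_f4ff90_ag.KCell2
import Pool.Agent.Lib.MP_f4ff90_ag.TGen
import Pool.Agent.Lib.MP_f4ff90_ag.TAsym

/-!
# MP_f4ff90_ag : triangular maps with tame coordinates
-/

set_option autoImplicit false

open Filter

namespace Pool.Agent.Lib.MP_f4ff90_ag

variable {d : ℕ}

/-- `p` involves only the variables `X j` with `j < i` -/
def Below {K : Type*} [Field K] (i : Fin d) (p : MvPolynomial (Fin d) K) : Prop :=
  ∀ j ∈ p.vars, j < i

/-- `p` involves only the variables `X j` with `j ≤ i` -/
def UpTo {K : Type*} [Field K] (i : Fin d) (p : MvPolynomial (Fin d) K) : Prop :=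
  ∀ j ∈ p.vars, j ≤ i

/-- the signs of all real polynomials along `x` are eventually periodic with period `m` -/
def SignPeriodic (m : ℕ) (x : ℕ → Fin d → ℝ) : Prop :=
  ∀ P : MvPolynomial (Fin d) ℝ, ∃ n₀, ∀ n ≥ n₀,
    SignType.sign (MvPolynomial.eval (x (n + m)) P) = SignType.sign (MvPolynomial.eval (x n) P)

/-- the `i`-th component of the map as a function of the `i`-th coordinate `t` -/
noncomputable def fibre (num den : Fin d → MvPolynomial (Fin d) ℝ) (i : Fin d) (v : Fin d → ℝ)
    (t : ℝ) : ℝ :=
  MvPolynomial.eval (Function.update v i t) (num i) /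
    MvPolynomial.eval (Function.update v i t) (den i)

/-- the set of all `t` for which, after replacing `v i` by `t`, all iterated partial derivatives
(with respect to the `i`-th variable) of all `V ∈ 𝓥` keep their signs -/
def cell (i : Fin d) (𝓥 : Finset (MvPolynomial (Fin d) ℝ)) (v : Fin d → ℝ) : Set ℝ :=
  {t | ∀ V ∈ 𝓥, ∀ j : ℕ,
    SignType.sign (MvPolynomial.eval (Function.update v i t) ((MvPolynomial.pderiv i)^[j] V)) =
      SignType.sign (MvPolynomial.eval v ((MvPolynomial.pderiv i)^[j] V))}

/-- finitely many polynomials `V` in the coordinates up to `i` such that the signs of all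
`∂ᵢʲ V` which involve the `i`-th variable are eventually `p`-periodic along `x`, and such that the
fibre maps are (eventually) defined and strictly monotone or constant on the cells -/
def TameCoord (num den : Fin d → MvPolynomial (Fin d) ℝ) (x : ℕ → Fin d → ℝ) (p : ℕ)
    (i : Fin d) : Prop :=
  ∃ 𝓥 : Finset (MvPolynomial (Fin d) ℝ), (∀ V ∈ 𝓥, UpTo i V) ∧
    (∀ V ∈ 𝓥, ∀ j : ℕ, Below i ((MvPolynomial.pderiv i)^[j] V) ∨ ∃ n₀, ∀ n ≥ n₀,
      SignType.sign (MvPolynomial.eval (x (n + p)) ((MvPolynomial.pderiv i)^[j] V)) =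
        SignType.sign (MvPolynomial.eval (x n) ((MvPolynomial.pderiv i)^[j] V))) ∧
    ∃ n₀, ∀ n ≥ n₀,
      (∀ t ∈ cell i 𝓥 (x n), MvPolynomial.eval (Function.update (x n) i t) (den i) ≠ 0) ∧
      (StrictMonoOn (fibre num den i (x n)) (cell i 𝓥 (x n)) ∨
        StrictAntiOn (fibre num den i (x n)) (cell i 𝓥 (x n)) ∨
        ∀ t ∈ cell i 𝓥 (x n), ∀ t' ∈ cell i 𝓥 (x n),
          fibre num den i (x n) t = fibre num den i (x n) t')

/-! ## Polynomials in the coordinates -/

section algebra

variable {S : Subalgebra ℝ (ℕ → ℝ)}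

lemma eval_mem {z : ℕ → Fin d → ℝ} (hz : ∀ j, (fun n => z n j) ∈ S)
    (p : MvPolynomial (Fin d) ℝ) : (fun n => MvPolynomial.eval (z n) p) ∈ S := by
  induction p using MvPolynomial.induction_on with
  | C r =>
    simp only [MvPolynomial.eval_C]
    exact S.algebraMap_mem r
  | add p q hp hq =>
    simp only [map_add]
    exact S.add_mem hp hq
  | mul_X p i hp =>
    simp only [map_mul, MvPolynomial.eval_X]
    exact S.mul_mem hp (hz i)

lemma eval_congr_vars {p : MvPolynomial (Fin d) ℝ} {v w : Fin d → ℝ}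
    (h : ∀ j ∈ p.vars, v j = w j) : MvPolynomial.eval v p = MvPolynomial.eval w p := by
  refine MvPolynomial.hom_congr_vars (f₁ := MvPolynomial.eval v) (f₂ := MvPolynomial.eval w)
    ?_ ?_ rfl
  · ext r; simp
  · intro j hj _
    simpa using h j hj

lemma eval_mem_below {i : Fin d} {x : ℕ → Fin d → ℝ} (hx : ∀ j < i, (fun n => x n j) ∈ S)
    {p : MvPolynomial (Fin d) ℝ} (hp : Below i p) :
    (fun n => MvPolynomial.eval (x n) p) ∈ S := by
  classical
  have h1 := eval_mem (S := S) (z := fun n j => if j < i then x n j else 0) (by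
    intro j
    by_cases hj : j < i
    · simp only [hj, if_true]; exact hx j hj
    · simp only [hj, if_false]; exact S.zero_mem) p
  have h2 : (fun n => MvPolynomial.eval (x n) p) =
      fun n => MvPolynomial.eval (fun j => if j < i then x n j else 0) p := by
    funext n
    refine eval_congr_vars fun j hj => ?_
    rw [if_pos (hp j hj)]
  rw [h2]
  exact h1

/-- the polynomial in one variable obtained by substituting the lower coordinates -/
noncomputable def subst (i : Fin d) (v : Fin d → ℝ) (p : MvPolynomial (Fin d) ℝ) :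
    Polynomial ℝ :=
  MvPolynomial.aeval (fun j => if j < i then Polynomial.C (v j)
    else if j = i then Polynomial.X else 0) p

/-- the polynomial `p` on the line through `v` in the direction of the `i`-th coordinate -/
noncomputable def line (i : Fin d) (v : Fin d → ℝ) (p : MvPolynomial (Fin d) ℝ) :
    Polynomial ℝ :=
  MvPolynomial.aeval (fun j => if j = i then Polynomial.X else Polynomial.C (v j)) p

lemma line_eval (i : Fin d) (v : Fin d → ℝ) (p : MvPolynomial (Fin d) ℝ) (t : ℝ) :
    (line i v p).eval t = MvPolynomial.eval (Function.update v i t) p := by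
  induction p using MvPolynomial.induction_on with
  | C r => simp [line]
  | add p q hp hq =>
    rw [line, map_add, Polynomial.eval_add, map_add, ← hp, ← hq]
    rfl
  | mul_X p j hp =>
    rw [line, map_mul, Polynomial.eval_mul, map_mul, ← hp, MvPolynomial.aeval_X,
      MvPolynomial.eval_X]
    congr 1
    by_cases hj : j = i
    · subst hj; simp
    · rw [if_neg hj, Polynomial.eval_C, Function.update_of_ne hj]

lemma line_derivative (i : Fin d) (v : Fin d → ℝ) (p : MvPolynomial (Fin d) ℝ) :
    Polynomial.derivative (line i v p) = line i v (MvPolynomial.pderiv i p) := by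
  induction p using MvPolynomial.induction_on with
  | C r => simp [line]
  | add p q hp hq =>
    have h1 : line i v (p + q) = line i v p + line i v q := map_add _ _ _
    rw [h1, Polynomial.derivative_add, hp, hq, map_add]
    exact (map_add _ _ _).symm
  | mul_X p j hp =>
    have h1 : ∀ a b : MvPolynomial (Fin d) ℝ, line i v (a * b) = line i v a * line i v b :=
      fun a b => map_mul _ _ _
    have h2 : ∀ a b : MvPolynomial (Fin d) ℝ, line i v (a + b) = line i v a + line i v b :=
      fun a b => map_add _ _ _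
    have h3 : Polynomial.derivative (line i v (MvPolynomial.X j)) =
        line i v (MvPolynomial.pderiv i (MvPolynomial.X j)) := by
      by_cases hj : j = i
      · subst hj; simp [line]
      · rw [MvPolynomial.pderiv_X_of_ne hj]
        simp [line, hj]
    rw [h1, Polynomial.derivative_mul, hp, Derivation.leibniz, smul_eq_mul, smul_eq_mul, h2, h1,
      h1, h3]
    ring

lemma line_iterate_derivative (i : Fin d) (v : Fin d → ℝ) (p : MvPolynomial (Fin d) ℝ) (j : ℕ) :
    Polynomial.derivative^[j] (line i v p) = line i v ((MvPolynomial.pderiv i)^[j] p) := by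
  induction j with
  | zero => rfl
  | succ j ih =>
    rw [Function.iterate_succ_apply', Function.iterate_succ_apply', ih, line_derivative]

lemma line_eq_subst {i : Fin d} {v : Fin d → ℝ} {p : MvPolynomial (Fin d) ℝ}
    (hp : UpTo i p) : line i v p = subst i v p := by
  refine MvPolynomial.hom_congr_vars
    (f₁ := (MvPolynomial.aeval (R := ℝ) (fun j => if j = i then (Polynomial.X : Polynomial ℝ)
      else Polynomial.C (v j))).toRingHom)
    (f₂ := (MvPolynomial.aeval (R := ℝ) (fun j => if j < i then Polynomial.C (v j)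
        else if j = i then (Polynomial.X : Polynomial ℝ) else 0)).toRingHom) ?_ ?_ rfl
  · ext r; simp
  · intro j hj _
    rcases (hp j hj).lt_or_eq with h2 | h2
    · simp [h2, h2.ne]
    · subst h2
      simp

lemma subst_ps {i : Fin d} {x : ℕ → Fin d → ℝ} (hx : ∀ j < i, (fun n => x n j) ∈ S)
    (p : MvPolynomial (Fin d) ℝ) : ∃ D, PS S D (fun n => subst i (x n) p) := by
  induction p using MvPolynomial.induction_on with
  | C r =>
    refine ⟨0, ?_⟩
    have : PS S 0 (fun n => Polynomial.C ((fun _ => r : ℕ → ℝ) n)) := PS.C (S.algebraMap_mem r)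
    simpa [subst] using this
  | add p q hp hq =>
    obtain ⟨D, hD⟩ := hp
    obtain ⟨E, hE⟩ := hq
    refine ⟨max D E, ?_⟩
    have := hD.add hE
    simpa [subst] using this
  | mul_X p j hp =>
    obtain ⟨D, hD⟩ := hp
    refine ⟨D + 1, ?_⟩
    have hX : PS S 1 (fun n => (if j < i then Polynomial.C (x n j)
        else if j = i then (Polynomial.X : Polynomial ℝ) else 0)) := by
      by_cases h1 : j < i
      · simp only [h1, if_true]
        exact (PS.C (hx j h1)).mono (Nat.zero_le 1)
      · by_cases h2 : j = i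
        · simp only [h2, lt_irrefl, if_false, if_true]
          exact PS.X
        · simp only [h1, h2, if_false]
          exact PS.zero.mono (Nat.zero_le 1)
    have := hD.mul hX
    simpa [subst] using this

end algebra

lemma hasType_of {I : Set ℝ} {f : ℝ → ℝ} (h : StrictMonoOn f I ∨ StrictAntiOn f I ∨
    ∀ t ∈ I, ∀ t' ∈ I, f t = f t') : ∃ σ, HasType I σ f := by
  rcases h with h | h | h
  · refine ⟨1, fun t ht t' ht' => ?_⟩
    rw [one_mul]
    rcases lt_trichotomy t t' with h1 | h1 | h1
    · rw [sign_pos (sub_pos.2 h1), sign_pos (sub_pos.2 (h ht ht' h1))]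
    · rw [h1, sub_self, sub_self]
    · rw [sign_neg (sub_neg.2 h1), sign_neg (sub_neg.2 (h ht' ht h1))]
  · refine ⟨-1, fun t ht t' ht' => ?_⟩
    rcases lt_trichotomy t t' with h1 | h1 | h1
    · rw [sign_pos (sub_pos.2 h1), sign_neg (sub_neg.2 (h ht ht' h1))]; rfl
    · rw [h1, sub_self, sub_self]; simp
    · rw [sign_neg (sub_neg.2 h1), sign_pos (sub_pos.2 (h ht' ht h1))]; rfl
  · refine ⟨0, fun t ht t' ht' => ?_⟩
    rw [h t ht t' ht', sub_self, zero_mul, sign_zero]

/-- eventual periods can be multiplied -/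
lemma ev_period_mul {α : Type*} {f : ℕ → α} {p q : ℕ} (hpq : p ∣ q)
    (hf : ∀ᶠ n in atTop, f (n + p) = f n) : ∀ᶠ n in atTop, f (n + q) = f n := by
  obtain ⟨l, rfl⟩ := hpq
  have h1 : ∀ j, ∀ᶠ n in atTop, f (n + j * p) = f n := by
    intro j
    induction j with
    | zero => simp
    | succ j ih =>
      filter_upwards [ih, ev_shift hf (j * p)] with n h1 h2
      rw [← h1, ← h2]
      congr 1; ring
  have := h1 l
  rwa [mul_comm l p] at this

/-- **adjoining a tame coordinate** -/
theorem TameCoord.step {num den : Fin d → MvPolynomial (Fin d) ℝ} {x : ℕ → Fin d → ℝ}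
    (hx : IsOrbit num den x) {i : Fin d} (hnum : UpTo i (num i)) (hden : UpTo i (den i))
    {p q : ℕ} (hi : TameCoord num den x p i) (hq : 0 < q) (hpq : p ∣ q)
    {S : Subalgebra ℝ (ℕ → ℝ)} (hS : Per q S) (hlow : ∀ j < i, (fun n => x n j) ∈ S) :
    ∃ S' : Subalgebra ℝ (ℕ → ℝ), S ≤ S' ∧ (fun n => x n i) ∈ S' ∧ Per (2 * q) S' := by
  obtain ⟨𝓥, hUp, hsg, n₀, h⟩ := hi
  obtain ⟨D, hD⟩ := subst_ps hlow (num i)
  obtain ⟨E, hE⟩ := subst_ps hlow (den i)
  -- uniform degree bound for the family
  have hdeg : ∃ B, ∀ V ∈ 𝓥, PS S B (fun n => line i (x n) V) := by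
    have h1 : ∀ V : MvPolynomial (Fin d) ℝ, ∃ B, PS S B (fun n => subst i (x n) V) :=
      fun V => subst_ps hlow V
    choose B hB using h1
    refine ⟨𝓥.sup B, fun V hV => ?_⟩
    have h2 := (hB V).mono (Finset.le_sup (f := B) hV)
    have h3 : (fun n => line i (x n) V) = fun n => subst i (x n) V := by
      funext n; exact line_eq_subst (hUp V hV)
    rw [h3]; exact h2
  obtain ⟨B, hB⟩ := hdeg
  have hcell : ∀ n, cellAt (𝓥.toList.map (fun V n => line i (x n) V)) n (x n i) =
      cell i 𝓥 (x n) := by
    intro n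
    ext t
    simp only [cellAt, cell, Set.mem_ofPred_eq, List.forall_mem_map, Finset.mem_toList,
      line_iterate_derivative, line_eval, Function.update_eq_self]
  have hgg : ∀ n, gg (fun n => subst i (x n) (num i)) (fun n => subst i (x n) (den i)) n =
      fibre num den i (x n) := by
    intro n
    funext t
    rw [gg, fibre, ← line_eq_subst hnum, ← line_eq_subst hden, line_eval, line_eval]
  refine Exists.elim (sys_of_cells (y := fun n => x n i)
    (𝓥 := 𝓥.toList.map (fun V n => line i (x n) V)) (E := B) hq hS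
    (hD.mono (le_max_left D E)) (hE.mono (le_max_right D E)) ?_ ?_ ?_ ?_)
    fun I h => Exists.elim h fun σ hsys => hsys.step
  · intro V hV
    obtain ⟨V', hV', rfl⟩ := List.mem_map.1 hV
    exact hB V' (Finset.mem_toList.1 hV')
  · refine Eventually.of_forall fun n => ?_
    rw [hgg, (hx n i).2, fibre, Function.update_eq_self]
  · intro V hV j
    obtain ⟨V', hV', rfl⟩ := List.mem_map.1 hV
    have hV'' := Finset.mem_toList.1 hV'
    simp only [line_iterate_derivative, line_eval, Function.update_eq_self]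
    rcases hsg V' hV'' j with h1 | ⟨n₁, h1⟩
    · exact hS.sgn _ (eval_mem_below hlow h1)
    · exact ev_period_mul (f := fun n => SignType.sign
        (MvPolynomial.eval (x n) ((MvPolynomial.pderiv i)^[j] V'))) hpq
        (eventually_atTop.2 ⟨n₁, h1⟩)
  · filter_upwards [eventually_ge_atTop n₀] with n hn
    rw [hcell, hgg]
    exact hasType_of (h n hn).2

lemma TameCoord.mul {num den : Fin d → MvPolynomial (Fin d) ℝ} {x : ℕ → Fin d → ℝ}
    {p : ℕ} {i : Fin d} (h : TameCoord num den x p i) {q : ℕ} (hpq : p ∣ q) :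
    TameCoord num den x q i := by
  obtain ⟨𝓥, hUp, hsg, h⟩ := h
  refine ⟨𝓥, hUp, fun V hV j => ?_, h⟩
  rcases hsg V hV j with h1 | ⟨n₁, h1⟩
  · exact Or.inl h1
  · right
    exact eventually_atTop.1 (ev_period_mul (f := fun n => SignType.sign
        (MvPolynomial.eval (x n) ((MvPolynomial.pderiv i)^[j] V))) hpq
        (eventually_atTop.2 ⟨n₁, h1⟩))

/-! ## The base: eventually periodic sequences -/

/-- the algebra of eventually `q`-periodic sequences -/
def perAlg (q : ℕ) : Subalgebra ℝ (ℕ → ℝ) where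
  carrier := {u | ∀ᶠ n in atTop, u (n + q) = u n}
  mul_mem' := by
    intro _ _ hu hv
    filter_upwards [hu, hv] with n h1 h2
    rw [Pi.mul_apply, Pi.mul_apply, h1, h2]
  add_mem' := by
    intro _ _ hu hv
    filter_upwards [hu, hv] with n h1 h2
    rw [Pi.add_apply, Pi.add_apply, h1, h2]
  algebraMap_mem' r := Eventually.of_forall fun _ => rfl

lemma perAlg_per (q : ℕ) : Per q (perAlg q) := by
  refine ⟨?_, ?_, ?_, ?_⟩
  · intro u hu
    filter_upwards [show ∀ᶠ n in atTop, u (n + q) = u n from hu] with n h1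
    rw [h1]
  · intro u hu v hv
    filter_upwards [show ∀ᶠ n in atTop, u (n + q) = u n from hu, hv, ev_shift hv q] with n h1 h2 h3
    rw [h3, h1, h2]
  · intro u hu
    filter_upwards [ev_shift (show ∀ᶠ n in atTop, u (n + q) = u n from hu) 1] with n h1
    rw [← h1]
    congr 1; ring
  · intro u hu
    filter_upwards [show ∀ᶠ n in atTop, u (n + q) = u n from hu] with n h1
    rw [h1]

/-- **induction over the coordinates** -/
theorem signPeriodic_of_steps {x : ℕ → Fin d → ℝ} {q : ℕ} (hq : 0 < q)
    (hstep : ∀ (i : Fin d) (p : ℕ) (S : Subalgebra ℝ (ℕ → ℝ)), 0 < p → q ∣ p → Per p S →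
      (∀ j < i, (fun n => x n j) ∈ S) →
      ∃ S' : Subalgebra ℝ (ℕ → ℝ), S ≤ S' ∧ (fun n => x n i) ∈ S' ∧ Per (2 * p) S') :
    SignPeriodic (2 ^ d * q) x := by
  have key : ∀ k ≤ d, ∃ S : Subalgebra ℝ (ℕ → ℝ), Per (2 ^ k * q) S ∧
      ∀ j : Fin d, (j : ℕ) < k → (fun n => x n j) ∈ S := by
    intro k
    induction k with
    | zero =>
      intro _
      refine ⟨perAlg q, by simpa using perAlg_per q, fun j hj => absurd hj (by omega)⟩
    | succ k ih =>
      intro hk
      obtain ⟨S, hS, hmem⟩ := ih (by omega)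
      obtain ⟨S', hSS', hxS', hS'⟩ := hstep ⟨k, by omega⟩ (2 ^ k * q) S (by positivity)
        (Dvd.intro_left _ rfl) hS (fun j hj => hmem j hj)
      refine ⟨S', ?_, fun j hj => ?_⟩
      · rw [show 2 ^ (k + 1) * q = 2 * (2 ^ k * q) by ring]
        exact hS'
      · rcases Nat.lt_succ_iff_lt_or_eq.1 hj with h1 | h1
        · exact hSS' (hmem j h1)
        · have : j = ⟨k, by omega⟩ := Fin.ext h1
          rw [this]
          exact hxS'
  obtain ⟨S, hS, hmem⟩ := key d le_rfl
  intro P
  have h1 := hS.sgn _ (eval_mem (S := S) (fun j => hmem j j.2) P)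
  exact eventually_atTop.1 h1

/-- **triangular maps** -/
theorem signPeriodic_triangular {num den : Fin d → MvPolynomial (Fin d) ℝ}
    {x : ℕ → Fin d → ℝ} (hx : IsOrbit num den x) (hnum : ∀ i, UpTo i (num i))
    (hden : ∀ i, UpTo i (den i)) {p : ℕ} (hp : 0 < p) (h : ∀ i, TameCoord num den x p i) :
    SignPeriodic (2 ^ d * p) x :=
  signPeriodic_of_steps hp fun i _ _ hq hpq hS hlow =>
    (h i).step hx (hnum i) (hden i) hq hpq hS hlow

end Pool.Agent.Lib.MP_f4ff90_ag
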